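import Pool.Agent.Q253.HV.Stm3

set_option autoImplicit false

/-! # Comparison of the mean squares of `Z` at two heights -/

namespace Pool.Agent.Q253.HV

open MeasureTheory Filter Topology Set Complex

/-- one cell -/
lemma zw_cell {Z : ℝ → ℝ → ℝ} (hZ : Zfun2 Z) {σ δ δ' : ℝ} (hσ : 1 / 2 ≤ σ) (hδ : 0 < δ) (h : δ ≤ δ') (hδ1 : δ' ≤ 1 / 2)
    (x : ℝ) : ∫ y in x..(x + δ'), Z δ y ^ 2 / (σ ^ 2 + y ^ 2) ≤
      432 * (δ' / δ) * ∫ y in x..(x + δ'), Z δ' y ^ 2 / (σ ^ 2 + y ^ 2) := by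
  have hδ' : 0 < δ' := hδ.trans_le h
  have hx : x ≤ x + δ' := by linarith
  have hσ0 : 0 < σ := by linarith
  have cZ := hZ.cont δ hδ
  have cZ' := hZ.cont δ' hδ'
  have cw : Continuous (fun y : ℝ => σ ^ 2 + y ^ 2) := by fun_prop
  have cwn : ∀ y : ℝ, σ ^ 2 + y ^ 2 ≠ 0 := fun y => by positivity
  have c1 : Continuous (fun y => Z δ y ^ 2 / (σ ^ 2 + y ^ 2)) := (cZ.pow 2).div cw cwn
  have c2 : Continuous (fun y => Z δ' y ^ 2 / (σ ^ 2 + y ^ 2)) := (cZ'.pow 2).div cw cwn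
  set m := ∫ y in x..(x + δ'), Z δ y with hm
  have hm0 : 0 ≤ m := intervalIntegral.integral_nonneg hx fun y _ => hZ.nonneg δ y hδ
  -- for every `u` in the cell
  have hu : ∀ u ∈ Icc x (x + δ'), ∫ y in x..(x + δ'), Z δ y ^ 2 / (σ ^ 2 + y ^ 2) ≤
      (δ' / δ) * (432 * δ') * (Z δ' u ^ 2 / (σ ^ 2 + u ^ 2)) := by
    intro u hu
    have hZu := hZ.nonneg δ' u hδ'
    have hwu : 0 < σ ^ 2 + u ^ 2 := by positivity
    have p1 : ∀ y ∈ Icc x (x + δ'), Z δ y ^ 2 / (σ ^ 2 + y ^ 2) ≤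
        (δ' / δ) * (9 * (Z δ' u / (σ ^ 2 + u ^ 2))) * Z δ y := by
      intro y hy
      have hyu : |u - y| ≤ δ' := by
        rw [abs_le]
        constructor <;> linarith [hy.1, hy.2, hu.1, hu.2]
      have h1 := hZ.harn δ δ' y hδ h
      have h2 := hZ.hy δ' y u hδ' hyu
      have h3 := hZ.nonneg δ y hδ
      have hwy : 0 < σ ^ 2 + y ^ 2 := by positivity
      have h4 : σ ^ 2 + u ^ 2 ≤ 3 * (σ ^ 2 + y ^ 2) := by
        have h5 : (u - y) ^ 2 ≤ σ ^ 2 := by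
          rw [← sq_abs]
          exact pow_le_pow_left₀ (abs_nonneg _) (by linarith) 2
        nlinarith [sq_nonneg (u - 2 * y)]
      have h6 : Z δ y / (σ ^ 2 + y ^ 2) ≤ (δ' / δ) * (9 * (Z δ' u / (σ ^ 2 + u ^ 2))) := by
        have h7 : 1 / (σ ^ 2 + y ^ 2) ≤ 3 / (σ ^ 2 + u ^ 2) := by
          rw [div_le_div_iff₀ hwy hwu]
          linarith
        have h8 : Z δ y ≤ δ' / δ * (3 * Z δ' u) :=
          h1.trans (mul_le_mul_of_nonneg_left h2 (by positivity))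
        calc Z δ y / (σ ^ 2 + y ^ 2) = Z δ y * (1 / (σ ^ 2 + y ^ 2)) := by ring
          _ ≤ (δ' / δ * (3 * Z δ' u)) * (3 / (σ ^ 2 + u ^ 2)) :=
              mul_le_mul h8 h7 (by positivity) (by positivity)
          _ = _ := by ring
      calc Z δ y ^ 2 / (σ ^ 2 + y ^ 2) = (Z δ y / (σ ^ 2 + y ^ 2)) * Z δ y := by ring
        _ ≤ _ := mul_le_mul_of_nonneg_right h6 h3
    have p2 : ∫ y in x..(x + δ'), Z δ y ^ 2 / (σ ^ 2 + y ^ 2) ≤
        ∫ y in x..(x + δ'), (δ' / δ) * (9 * (Z δ' u / (σ ^ 2 + u ^ 2))) * Z δ y :=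
      intervalIntegral.integral_mono_on hx (c1.intervalIntegrable _ _)
        ((cZ.const_mul _).intervalIntegrable _ _) p1
    rw [intervalIntegral.integral_const_mul, ← hm] at p2
    have p3 : m ≤ 16 * δ' * Z δ' x := by
      refine le_trans ?_ (hZ.avg δ δ' x hδ h)
      rw [hm]
      exact intervalIntegral.integral_mono_interval (by linarith) hx le_rfl
        (Eventually.of_forall fun y => hZ.nonneg δ y hδ) (cZ.intervalIntegrable _ _)
    have p4 : Z δ' x ≤ 3 * Z δ' u := hZ.hy δ' x u hδ' (by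
      rw [abs_le]
      constructor <;> linarith [hu.1, hu.2])
    have p5 : m ≤ 48 * δ' * Z δ' u := by nlinarith
    refine p2.trans ?_
    calc (δ' / δ) * (9 * (Z δ' u / (σ ^ 2 + u ^ 2))) * m ≤
          (δ' / δ) * (9 * (Z δ' u / (σ ^ 2 + u ^ 2))) * (48 * δ' * Z δ' u) :=
          mul_le_mul_of_nonneg_left p5 (by positivity)
      _ = _ := by ring
  -- the mean over `u`
  have hI : ∫ _ in x..(x + δ'), (∫ y in x..(x + δ'), Z δ y ^ 2 / (σ ^ 2 + y ^ 2)) ≤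
      ∫ u in x..(x + δ'), (δ' / δ) * (432 * δ') * (Z δ' u ^ 2 / (σ ^ 2 + u ^ 2)) :=
    intervalIntegral.integral_mono_on hx intervalIntegrable_const
      ((c2.const_mul _).intervalIntegrable _ _) hu
  rw [intervalIntegral.integral_const, smul_eq_mul, intervalIntegral.integral_const_mul] at hI
  have e : x + δ' - x = δ' := by ring
  rw [e] at hI
  have e2 : (δ' / δ) * (432 * δ') * (∫ u in x..(x + δ'), Z δ' u ^ 2 / (σ ^ 2 + u ^ 2)) =
      δ' * (432 * (δ' / δ) * ∫ u in x..(x + δ'), Z δ' u ^ 2 / (σ ^ 2 + u ^ 2)) := by ring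
  rw [e2] at hI
  exact le_of_mul_le_mul_left hI hδ'

theorem t_ZW : S_ZW := by
  intro Z hZ σ δ δ' hσ hδ h hδ1 i1 i2
  have hδ' : 0 < δ' := hδ.trans_le h
  have hσ0 : 0 < σ := by linarith
  have cZ := hZ.cont δ hδ
  have cZ' := hZ.cont δ' hδ'
  have cw : Continuous (fun y : ℝ => σ ^ 2 + y ^ 2) := by fun_prop
  have cwn : ∀ y : ℝ, σ ^ 2 + y ^ 2 ≠ 0 := fun y => by positivity
  have c1 : Continuous (fun y => Z δ y ^ 2 / (σ ^ 2 + y ^ 2)) := (cZ.pow 2).div cw cwn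
  have c2 : Continuous (fun y => Z δ' y ^ 2 / (σ ^ 2 + y ^ 2)) := (cZ'.pow 2).div cw cwn
  -- many cells
  have hn : ∀ (n : ℕ) (x : ℝ), ∫ y in x..(x + n * δ'), Z δ y ^ 2 / (σ ^ 2 + y ^ 2) ≤
      432 * (δ' / δ) * ∫ y in x..(x + n * δ'), Z δ' y ^ 2 / (σ ^ 2 + y ^ 2) := by
    intro n x
    induction n with
    | zero => simp
    | succ n ih =>
      have e : x + ((n + 1 : ℕ) : ℝ) * δ' = (x + n * δ') + δ' := by push_cast; ring
      rw [e, ← intervalIntegral.integral_add_adjacent_intervals (c1.intervalIntegrable x (x + n * δ'))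
        (c1.intervalIntegrable _ _), ← intervalIntegral.integral_add_adjacent_intervals
        (c2.intervalIntegrable x (x + n * δ')) (c2.intervalIntegrable _ _), mul_add]
      exact add_le_add ih (zw_cell hZ hσ hδ h hδ1 _)
  have ha : Tendsto (fun n : ℕ => -((n : ℝ) * δ')) atTop atBot :=
    tendsto_neg_atTop_atBot.comp (tendsto_natCast_atTop_atTop.atTop_mul_const hδ')
  have hb : Tendsto (fun n : ℕ => (n : ℝ) * δ') atTop atTop :=
    tendsto_natCast_atTop_atTop.atTop_mul_const hδ'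
  have l1 := intervalIntegral_tendsto_integral i1 ha hb
  have l2 := (intervalIntegral_tendsto_integral i2 ha hb).const_mul (432 * (δ' / δ))
  refine le_of_tendsto_of_tendsto' l1 l2 fun n => ?_
  have := hn (2 * n) (-((n : ℝ) * δ'))
  have e : -((n : ℝ) * δ') + ((2 * n : ℕ) : ℝ) * δ' = n * δ' := by push_cast; ring
  rw [e] at this
  exact this

end Pool.Agent.Q253.HV
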