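import Mathlib

set_option autoImplicit false

/-!
# Project HV: Hooley's variance of the primes in progressions, one-sided bounds. Definitions and jobs

`L = log q`, `δ = c / L`, `σ = 1/2 + δ`.  For a character `χ ≠ 1` modulo `q` let `f t = ψ(e^t, χ)` and
`ℓ(s) = L'/L(s, χ) = - s ∫_0^∞ f(t) e^(-st) dt`, for `Re s > 1/2` under GRH.
-/

namespace Pool.Agent.Q253.HV

open MeasureTheory Filter Topology Set Complex

/-- `ψ(x, χ)`, the sum of `Λ(n) χ(n)` over `n ≤ x` -/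
noncomputable def psiC {q : ℕ} (χ : DirichletCharacter ℂ q) (x : ℝ) : ℂ :=
  ∑ n ∈ Finset.Icc 1 ⌊x⌋₊, ((ArithmeticFunction.vonMangoldt n : ℝ) : ℂ) * χ (n : ZMod q)

/-- `ψ(x; q, a)` for `0 ≤ a < q` -/
noncomputable def psiAP (x : ℝ) (q a : ℕ) : ℝ :=
  ∑ n ∈ (Finset.Icc 1 ⌊x⌋₊).filter (fun n => n % q = a), ArithmeticFunction.vonMangoldt n

/-- the variance `G(x, q)`, the sum of `(ψ(x; q, a) - x/φ(q))²` over the reduced classes `a` modulo `q` -/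
noncomputable def G (x : ℝ) (q : ℕ) : ℝ :=
  ∑ a ∈ (Finset.range q).filter (fun a => Nat.Coprime a q), (psiAP x q a - x / (Nat.totient q : ℝ)) ^ 2

/-- Laplace transform on `(0, ∞)` -/
noncomputable def lap (f : ℝ → ℂ) (s : ℂ) : ℂ := ∫ t in Ioi (0 : ℝ), f t * cexp (-s * t)

/-- `f(t) e^(-σt)` is square integrable on `(0, ∞)` for every `σ > 1/2` -/
def Adm (f : ℝ → ℂ) : Prop :=
  AEStronglyMeasurable f (volume.restrict (Ioi 0)) ∧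
    ∀ σ : ℝ, 1 / 2 < σ → IntegrableOn (fun t => ‖f t‖ ^ 2 * Real.exp (-(2 * σ * t))) (Ioi 0)

/-- `- s ∫_0^∞ f(t) e^(-st) dt` -/
noncomputable def ld (f : ℝ → ℂ) (s : ℂ) : ℂ := -s * lap f s

/-- `σ + iy` -/
noncomputable def pt (σ y : ℝ) : ℂ := (σ : ℂ) + (y : ℂ) * I

/-- HV-PL.  Write `g = lap f`, `s = σ + iy`, `|s|² = σ² + y²`.  Plancherel for `f(t) e^(-σt)`:
`∫_0^∞ |f|² e^(-2σt) dt = (1/2π) ∫ |g(s)|² dy` and `|g|² = |ℓ|²/|s|²`, `|ℓ|² = 2 (Re ℓ)² - Re ℓ²`.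
It remains to see `(1/2π) ∫ ℓ(s)²/|s|² dy = ℓ(2σ)²/(2σ)`: here `ℓ(s)²/|s|² = g(s)² s/(2σ - s)` (as `conj s = 2σ - s`)
and `s/(2σ - s) = -1 + 2σ/(2σ - s)`.  `(1/2π) ∫ g(s)² dy = ∫ u(t) u(-t) dt = 0` with `u = f(t) e^(-σt)` on `t > 0`
and `u = 0` on `t < 0` (Plancherel for `u` and `conj u(-t)`), and
`(1/2π) ∫ g(s)² conj (1/s) dy = ∫_0^∞ (u*u)(t) e^(-σt) dt = g(2σ)²` (Plancherel for `u*u` and `e^(-σt)`, then Fubini;
`u` is in `L¹` and `L²`).  (Or shift the line of integration to the right: the function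
`ℓ(s)²/(s(2σ-s))` has a simple pole at `s = 2σ`, and its integrals over vertical lines tend to zero.) -/
def S_PL : Prop := ∀ f : ℝ → ℂ, Adm f → ∀ σ : ℝ, 1 / 2 < σ →
  Integrable (fun y : ℝ => (ld f (pt σ y)).re ^ 2 / (σ ^ 2 + y ^ 2)) ∧
  ∫ t in Ioi (0 : ℝ), ‖f t‖ ^ 2 * Real.exp (-(2 * σ * t)) =
    (1 / Real.pi) * (∫ y : ℝ, (ld f (pt σ y)).re ^ 2 / (σ ^ 2 + y ^ 2)) -
      (ld f ((2 * σ : ℝ) : ℂ) ^ 2).re / (2 * σ)

/-- HV-PO.  Poisson's formula `(1/π) ∫ ℓ(τ + iy)/(σ² + y²) dy = ℓ(σ + τ)/σ` for `σ > 0`, `τ > 1/2`.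
Proof: `s = τ + iy`, `σ² + y² = (σ + iy)(σ - iy)`, `ℓ(s) = -s g(s)`,
`s/((σ+iy)(σ-iy)) = (1/2)(τ+σ)/σ · 1/(σ-iy) + (1/2)(τ-σ)/σ · 1/(σ+iy)`
and `(1/2π) ∫ g(s) conj(1/(σ+iy)) dy = ∫_0^∞ f(t) e^(-τt) e^(-σt) dt`, `(1/2π) ∫ g(s)/(σ+iy) dy = 0`
(Plancherel; `1/(σ+iy)` is the transform of `e^(-σt)` on `t > 0`, and `1/(σ+iy)` is the conjugate of the transform of
`e^(σt)` on `t < 0`). -/
def S_PO : Prop := ∀ f : ℝ → ℂ, Adm f → ∀ σ τ : ℝ, 0 < σ → 1 / 2 < τ →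
  Integrable (fun y : ℝ => (ld f (pt τ y)).re / (σ ^ 2 + y ^ 2)) ∧
  (1 / Real.pi) * (∫ y : ℝ, (ld f (pt τ y)).re / (σ ^ 2 + y ^ 2)) = (ld f ((σ + τ : ℝ) : ℂ)).re / σ

/-- the three properties of `Z(δ, y) = ∑_γ δ/(δ² + (y-γ)²)` which are used: nonnegative, `Z(δ')  ≤ (δ/δ') Z(δ)` for
`δ' ≤ δ`, and `Z(δ)² ≥ ∑ P² ≥ (2h+h²)⁻¹ (Z(δ)/δ - Z((1+h)δ)/((1+h)δ))` -/
structure Zfun (Z : ℝ → ℝ → ℝ) : Prop where
  cont : ∀ δ, 0 < δ → Continuous (Z δ)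
  nonneg : ∀ δ y, 0 < δ → 0 ≤ Z δ y
  harn : ∀ δ' δ y, 0 < δ' → δ' ≤ δ → Z δ' y ≤ δ / δ' * Z δ y
  sq : ∀ δ h y, 0 < δ → 0 < h →
    (Z δ y / δ - Z ((1 + h) * δ) y / ((1 + h) * δ)) / (2 * h + h ^ 2) ≤ Z δ y ^ 2

/-- HV-ZG.  `X` entire of order less than two, symmetric with respect to the imaginary axis, all zeros on the
imaginary axis.  Proof: `Pool.Agent.Y275.GL.had_real` (and the proof of `had1` in the same file,
`Pool/Agent/Y275/GL/Had1.lean`) gives polynomials `Q_N → X`, locally uniformly, all of whose roots are on the imaginary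
axis; for such a polynomial `Re Q'/Q (δ+iy) = ∑ P_δ(y-γ)`, `P_δ(v) = δ/(δ²+v²)`, and
`P_δ/δ - P_((1+h)δ)/((1+h)δ) = (2h+h²) δ²/((δ²+v²)((1+h)²δ²+v²)) ≤ (2h+h²) P_δ²`, `∑ P² ≤ (∑ P)²`,
`P_δ' ≤ (δ/δ') P_δ`.  Pass to the limit (`Complex.logDeriv_tendsto`, as in `Pool/Agent/Q241/SN/Gdef.lean`, `re_XX`). -/
def S_ZG : Prop := ∀ X : ℂ → ℂ, Differentiable ℂ X →
  (∀ z : ℂ, X (-((starRingEnd ℂ) z)) = (starRingEnd ℂ) (X z)) → (∃ z, X z ≠ 0) →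
  (∃ K : ℝ, 0 < K ∧ ∀ z : ℂ, ‖X z‖ ≤ Real.exp (K * (1 + ‖z‖) ^ (3 / 2 : ℝ))) →
  (∀ s : ℂ, X s = 0 → s.re = 0) → Zfun (fun δ y => (logDeriv X (pt δ y)).re)

/-- `∑_{p | q} log p / (√p - 1)` -/
noncomputable def eq (q : ℕ) : ℝ := ∑ p ∈ q.primeFactors, Real.log p / (Real.sqrt p - 1)

/-- HV-ZD.  Let `χ*` (conductor `N`) induce `χ`, `X(z) = c N^(z/2) Λ(1/2+z, χ*)` with Mathlib's completed L-function
`Λ` (Gamma factor times `L`) and a constant `c`, `|c| = 1`, for which the functional equation and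
`conj Λ(conj s, χ*) = Λ(s, conj χ*)` give the symmetry of `S_ZG`.  A zero of `X` with `Re > 0` is a zero of
`L(s, χ*)` with `Re s > 1/2`, hence of `L(s, χ) = L(s, χ*) ∏_{p | q} (1 - χ*(p) p^(-s))`, excluded; `Re < 0` by symmetry.
Growth: in the library for primitive characters (for instance `Pool/Agent/H370R2/DirGood.lean`, or the instances in
`Pool/Agent/Q240/CG`, `Pool/Agent/Q240/GS`, `Pool/Agent/Q177/CG`).  `Re L'/L(s, χ*) = Re X'/X - (1/2) log N - Re (Gamma factor)'/(Gamma factor)`,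
the last term is `O(log (2+|y|))`, and the Euler factors at `p | q` contribute at most `eq q`. -/
def S_ZD : Prop := ∃ C : ℝ, 0 < C ∧ ∀ (q : ℕ) [NeZero q] (χ : DirichletCharacter ℂ q), χ ≠ 1 →
  (∀ s : ℂ, 1 / 2 < s.re → DirichletCharacter.LFunction χ s ≠ 0) →
  ∃ Z : ℝ → ℝ → ℝ, Zfun Z ∧ ∀ δ y : ℝ, 0 < δ → δ ≤ 1 →
    |(logDeriv (DirichletCharacter.LFunction χ) (pt (1 / 2 + δ) y)).re -
      (Z δ y - (1 / 2) * Real.log (χ.conductor : ℝ))| ≤ C * Real.log (2 + |y|) + eq q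

/-- HV-GR.  GRH from the mean square.  `L'/L(s, χ) = - s ∫_0^∞ ψ(e^t, χ) e^(-st) dt` for `Re s > 1`; the right side is
analytic for `Re s > 1/2`; the same argument for zeta is `Pool/Agent/Q213/GM/Lap.lean` (to be adapted). -/
def S_GR : Prop := ∀ (q : ℕ) [NeZero q] (χ : DirichletCharacter ℂ q), χ ≠ 1 →
  Adm (fun t => psiC χ (Real.exp t)) → ∀ s : ℂ, 1 / 2 < s.re →
    DirichletCharacter.LFunction χ s ≠ 0 ∧
    logDeriv (DirichletCharacter.LFunction χ) s = ld (fun t => psiC χ (Real.exp t)) s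

/-- HV-BG.  The converse: GRH for `χ` implies the mean square bound (for zeta: `Pool.Agent.Q296.GM.L2_of_rh` in
`Pool/Agent/Q296/GM/Rh.lean`, to be adapted). -/
def S_BG : Prop := ∀ (q : ℕ) [NeZero q] (χ : DirichletCharacter ℂ q), χ ≠ 1 →
  (∀ s : ℂ, 1 / 2 < s.re → DirichletCharacter.LFunction χ s ≠ 0) →
    Adm (fun t => psiC χ (Real.exp t))

/-- HV-SY.  If `L(s, χ)` has no zeros with `Re s > 1/2` then its zeros with `0 < Re s < 1` are on the line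
`Re s = 1/2`: functional equation of the inducing primitive character and complex conjugation (the Euler factors at
`p | q` have no zeros in `Re s > 0`). For `χ = 1` the same with zeta (only `1/2 < Re s < 1` is assumed). -/
def S_SY : Prop := ∀ (q : ℕ) [NeZero q] (χ : DirichletCharacter ℂ q),
  (∀ s : ℂ, 1 / 2 < s.re → s.re < 1 → DirichletCharacter.LFunction χ s ≠ 0) →
    ∀ s : ℂ, 0 < s.re → s.re < 1 → DirichletCharacter.LFunction χ s = 0 → s.re = 1 / 2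

/-- HV-OD.  Orthogonality of the characters: with `b_a = ψ(x;q,a) - x/φ(q)`,
`∑_a b_a² = φ(q)⁻¹ ∑_χ |∑_a b_a χ(a)|²` and `∑_a b_a χ(a) = ψ(x,χ) - x [χ = 1]`. -/
def S_OD : Prop := ∀ (q : ℕ) [NeZero q] (x : ℝ), 0 ≤ x →
  G x q = (1 / (Nat.totient q : ℝ)) * ∑ χ : DirichletCharacter ℂ q,
    ‖psiC χ x - (if χ = 1 then (x : ℂ) else 0)‖ ^ 2

/-- HV-CO.  The conductor is large for almost all characters modulo `q`.  (At most `∑_{d | q, d ≤ D} φ(d) ≤ D τ(q)`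
characters have conductor `≤ D`; or exactly: the average of `log q - log cond χ` is `∑_{p | q} log p/(p-1)`.) -/
def S_CO : Prop := ∀ ε : ℝ, 0 < ε → ∃ q0 : ℕ, ∀ (q : ℕ) [NeZero q], q0 ≤ q →
  ∑ χ : DirichletCharacter ℂ q, (Real.log q - Real.log (χ.conductor : ℝ)) ≤
    ε * (Nat.totient q : ℝ) * Real.log q

/-- HV-EQ.  `eq q = o(log q)`: the primes `p ≤ y` contribute a constant, the others at most `log q/(√y - 1)`. -/
def S_EQ : Prop := ∀ ε : ℝ, 0 < ε → ∃ q0 : ℕ, ∀ q : ℕ, q0 ≤ q → eq q ≤ ε * Real.log q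

/-- HV-OS.  Orthogonality: `- ∑_χ L'/L(s,χ) = φ(q) ∑_{n ≡ 1 (q)} Λ(n) n^(-s)`, `n = qk + 1`, `k ≥ 1`, and
`∑_χ (L'/L(s,χ))² = φ(q) ∑_{n ≡ 1 (q)} (Λ*Λ)(n) n^(-s)`, `(Λ*Λ)(n) ≤ log² n`; the term of the principal character is at
most `-ζ'/ζ(s) ≤ C/(s-1)` in absolute value.  Here `1 < s ≤ 2` is real. -/
def S_OS : Prop := ∃ C : ℝ, 0 < C ∧ ∀ (q : ℕ) [NeZero q], 2 ≤ q → ∀ s : ℝ, 1 < s → s ≤ 2 →
  ‖∑ χ ∈ (Finset.univ : Finset (DirichletCharacter ℂ q)).erase 1,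
    logDeriv (DirichletCharacter.LFunction χ) (s : ℂ)‖ ≤ C * (1 + Real.log q) / (s - 1) ^ 2 ∧
  ‖∑ χ ∈ (Finset.univ : Finset (DirichletCharacter ℂ q)).erase 1,
    (logDeriv (DirichletCharacter.LFunction χ) (s : ℂ)) ^ 2‖ ≤ C * (1 + Real.log q) ^ 2 / (s - 1) ^ 3

/-- HV-TR.  The range `x ≤ q`: then every class contains at most one `n ≤ x`, hence
`G(x,q) ≤ ∑_{n ≤ x} Λ(n)² + x²/φ(q) ≤ ψ(x) log x + x²/φ(q)`; `ψ(x) ≤ (1+ε) x` for `x` large (prime number theorem, in the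
library) and `q/φ(q) ≤ 1 + log q / log 2`.  `t = log x = α log q`. -/
def S_TR : Prop := ∀ ε : ℝ, 0 < ε → ∃ q0 : ℕ, ∀ q : ℕ, q0 ≤ q → ∀ c : ℝ, 0 ≤ c →
  ∫ t in (0 : ℝ)..Real.log q, G (Real.exp t) q * Real.exp (-t) * Real.exp (-(2 * c * t / Real.log q)) ≤
    ((∫ α in (0 : ℝ)..1, α * Real.exp (-(2 * c * α))) + ε) * Real.log q ^ 2

/-- HV-PR.  The term of the principal character under RH: `|ψ(x,χ₀) - ψ(x)| ≤ ∑_{p | q} log x ≤ 2 log q log x` and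
`∫_1^∞ (ψ(x)-x)² x^(-2-2δ) dx ≤ C δ^(-K)` for `0 < δ ≤ 1` under RH (for example from `|ψ(x)-x| ≤ C √x log² x`); the
factor `1/φ(q)` makes the term tend to zero. -/
def S_PR : Prop := RiemannHypothesis → ∀ c : ℝ, 0 < c → ∃ q0 : ℕ, ∀ (q : ℕ) [NeZero q], q0 ≤ q →
  IntegrableOn (fun t => ‖psiC (1 : DirichletCharacter ℂ q) (Real.exp t) - (Real.exp t : ℂ)‖ ^ 2 *
    Real.exp (-(2 * (1 / 2 + c / Real.log q) * t))) (Ioi 0) ∧
  (1 / (Nat.totient q : ℝ)) * (∫ t in Ioi (0 : ℝ),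
    ‖psiC (1 : DirichletCharacter ℂ q) (Real.exp t) - (Real.exp t : ℂ)‖ ^ 2 *
      Real.exp (-(2 * (1 / 2 + c / Real.log q) * t))) ≤ 1

/-- HV-FI.  The deduction of the lower bound in one window `[aL, bL]` from (near) the range `t ≤ L`, (lower) the
total mass with the weight `e^(-2ct/L)`, (tail) a bound with the weight `e^(-ct/L)` and (upper) upper bounds in
finitely many windows.  Proof: let `F(α) = H(αL)/L`.  If the integral of `F` over `[a,b]` is less than `b - a - ε`,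
then for a fine partition `1 = x_0 < ... < x_m` containing `a` and `b`, the integral of `F(α) e^(-2cα)` over
`[1, x_m]` is at most `∑_i e^(-2c x_i) (x_{i+1} - x_i + ε0) - e^(-2cb)(ε - m ε0)`, which is at most
`∫_1^∞ e^(-2cα) dα - (ε/2) e^(-2cb)`, say; the rest `α > x_m` is at most `e^(-c x_m) C0/c²`.  Together with
(near) and (lower): `1/(2c) - 1/2 - ε0 ≤ ∫_0^∞ min(α,1) e^(-2cα) dα - (ε/4) e^(-2cb)`, and
`∫_0^∞ min(α,1) e^(-2cα) dα = (1 - e^(-2c))/(4c²) ≤ 1/(2c) - 1/2 + c/3`.  So choose `c` with `c/3 < (ε/8) e^(-2cb)`,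
then `x_m`, then the mesh, then `ε0`. -/
def S_FI : Prop := ∀ a b ε C0 : ℝ, 1 ≤ a → a < b → 0 < ε → 0 < C0 →
  ∃ c ε0 : ℝ, 0 < c ∧ c ≤ 1 ∧ 0 < ε0 ∧ ∃ (m : ℕ) (x : ℕ → ℝ), (∀ i, 1 ≤ x i) ∧ (∀ i, i < m → x i < x (i + 1)) ∧
  ∀ (L : ℝ) (H : ℝ → ℝ), 0 < L → (∀ t, 0 ≤ H t) →
    IntegrableOn (fun t => H t * Real.exp (-(c * t / L))) (Ioi 0) →
    ∫ t in (0 : ℝ)..L, H t * Real.exp (-(2 * c * t / L)) ≤
      ((∫ α in (0 : ℝ)..1, α * Real.exp (-(2 * c * α))) + ε0) * L ^ 2 →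
    (1 / (2 * c) - 1 / 2 - ε0) * L ^ 2 ≤ ∫ t in Ioi (0 : ℝ), H t * Real.exp (-(2 * c * t / L)) →
    ∫ t in Ioi (0 : ℝ), H t * Real.exp (-(c * t / L)) ≤ C0 / c ^ 2 * L ^ 2 →
    (∀ i, i < m → ∫ t in (x i * L)..(x (i + 1) * L), H t ≤ (x (i + 1) - x i + ε0) * L ^ 2) →
    (b - a - ε) * L ^ 2 ≤ ∫ t in (a * L)..(b * L), H t

/-- the average over the nonprincipal characters modulo `q` (divided by `φ(q)`) of
`∫_0^∞ |ψ(e^t, χ)|² e^(-(1+2δ)t) dt` -/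
noncomputable def J (q : ℕ) [NeZero q] (δ : ℝ) : ℝ :=
  (1 / (Nat.totient q : ℝ)) * ∑ χ ∈ (Finset.univ : Finset (DirichletCharacter ℂ q)).erase 1,
    ∫ t in Ioi (0 : ℝ), ‖psiC χ (Real.exp t)‖ ^ 2 * Real.exp (-(2 * (1 / 2 + δ) * t))

/-- all the nonprincipal characters modulo `q` satisfy the mean square bound -/
def AdmAll (q : ℕ) : Prop := ∀ χ : DirichletCharacter ℂ q, χ ≠ 1 → Adm (fun t => psiC χ (Real.exp t))

/-- HV-LB (helper253): the lower bound. -/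
def S_LB : Prop := ∀ c ε : ℝ, 0 < c → c ≤ 1 → 0 < ε → ∃ q0 : ℕ, ∀ (q : ℕ) [NeZero q], q0 ≤ q → AdmAll q →
  (1 / (2 * c) - 1 / 2 - ε) * Real.log q ^ 2 ≤ J q (c / Real.log q)

/-- HV-TB (helper253): the upper bound. -/
def S_TB : Prop := ∃ C0 : ℝ, 0 < C0 ∧ ∀ c : ℝ, 0 < c → c ≤ 1 → ∃ q0 : ℕ, ∀ (q : ℕ) [NeZero q], q0 ≤ q →
  AdmAll q → J q (c / Real.log q) ≤ C0 / c ^ 2 * Real.log q ^ 2

end Pool.Agent.Q253.HV
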