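import Pool.Agent.Q253.HV.TBf
import Pool.Agent.Q162.HV.GR
import Pool.Agent.Q162.HV.SY
import Pool.Agent.Q195.HV.CO
import Pool.Agent.Q195.HV.EQ
import Pool.Agent.Q195.HV.OD
import Pool.Agent.Q195.HV.TR
import Pool.Agent.Q68.HV.OS
import Pool.Agent.Q68.HV.ZG
import Pool.Agent.Q98.HV.BG
import Pool.Agent.Q119.HV.Zd
import Pool.Agent.Q237.HV.PL
import Pool.Agent.Q237.HV.PO
import Pool.Agent.Q237.HV.FI

set_option autoImplicit false

/-! # Project HV: the jobs together -/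

namespace Pool.Agent.Q253.HV

theorem a_PL : S_PL := Pool.Agent.Q237.HV.t_PL
theorem a_PO : S_PO := Pool.Agent.Q237.HV.t_PO
theorem a_FI : S_FI := Pool.Agent.Q237.HV.t_FI
theorem a_ZG : S_ZG := Pool.Agent.Q68.HV.t_ZG
theorem a_ZD : S_ZD := Pool.Agent.Q119.HV.t_ZD a_ZG
theorem a_GR : S_GR := Pool.Agent.Q162.HV.t_GR
theorem a_BG : S_BG := Pool.Agent.Q98.HV.t_BG
theorem a_SY : S_SY := Pool.Agent.Q162.HV.t_SY
theorem a_OD : S_OD := Pool.Agent.Q195.HV.t_OD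
theorem a_CO : S_CO := Pool.Agent.Q195.HV.t_CO
theorem a_EQ : S_EQ := Pool.Agent.Q195.HV.t_EQ
theorem a_OS : S_OS := Pool.Agent.Q68.HV.t_OS
theorem a_TR : S_TR := Pool.Agent.Q195.HV.t_TR
theorem a_LB : S_LB := t_LB a_PL a_PO a_ZD a_GR a_CO a_EQ a_OS
theorem a_TB : S_TB := t_TB a_PL a_ZD a_GR a_CO a_EQ a_OS a_OD a_TR

end Pool.Agent.Q253.HV
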