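import Pool.Agent.Q253.HV.Stm2
import Pool.Agent.Q24.HV.Nr

set_option autoImplicit false

/-! # The change of level -/

namespace Pool.Agent.Q253.HV

open Finset Pool.Agent.Q24.HV

theorem t_CL : S_CL := by
  intro r q _ _ h χ x hx
  have hq1 : 1 ≤ q := Nat.pos_of_ne_zero (NeZero.ne q)
  have hx0 : 0 < x := by linarith
  have h1 : ‖psiC (DirichletCharacter.changeLevel h χ) x - psiC χ x‖ ≤ Pool.Agent.Q24.HV.EE q x := by
    unfold psiC Pool.Agent.Q24.HV.EE
    rw [← sum_sub_distrib, sum_filter]
    refine (norm_sum_le _ _).trans (sum_le_sum fun n _ => ?_)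
    have hL : (0 : ℝ) ≤ ArithmeticFunction.vonMangoldt n := ArithmeticFunction.vonMangoldt_nonneg
    by_cases hc : n.Coprime q
    · rw [if_neg (not_not.2 hc)]
      have h2 : DirichletCharacter.changeLevel h χ (n : ZMod q) = χ (n : ZMod r) := by
        have h3 := DirichletCharacter.changeLevel_eq_cast_of_dvd' (χ := χ) h (a := (n : ℤ))
          (Nat.isCoprime_iff_coprime.2 hc)
        simpa using h3
      rw [h2, sub_self, norm_zero]
    · rw [if_pos hc, MulChar.map_nonunit (DirichletCharacter.changeLevel h χ)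
        (fun hh => hc ((ZMod.isUnit_iff_coprime n q).1 hh)), mul_zero, zero_sub, norm_neg, norm_mul,
        Complex.norm_real, Real.norm_of_nonneg hL]
      exact mul_le_of_le_one_right hL (DirichletCharacter.norm_le_one χ _)
  refine h1.trans ?_
  rcases hx.eq_or_lt with h2 | h2
  · rw [← h2]
    unfold Pool.Agent.Q24.HV.EE
    simp
    refine le_of_eq (sum_eq_zero fun n hn => ?_)
    have : n = 1 := by
      have := (mem_filter.1 hn).1
      simpa using this
    rw [this]
    simp
  · have h3 : 0 < Real.log x := Real.log_pos h2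
    have h4 := Pool.Agent.Q24.HV.EE_le q hq1 h3
    rwa [Real.exp_log hx0] at h4

end Pool.Agent.Q253.HV
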