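import Pool.Agent.Q253.HV.Stm

set_option autoImplicit false

/-! # Project HV: the sharp upper bound, jobs -/

namespace Pool.Agent.Q253.HV

open MeasureTheory Filter Topology Set Complex

/-- two more properties of `Z(δ, y) = ∑_γ δ/(δ² + (y-γ)²)` -/
structure Zfun2 (Z : ℝ → ℝ → ℝ) : Prop extends Zfun Z where
  avg : ∀ δ δ' y : ℝ, 0 < δ → δ ≤ δ' → ∫ u in (y - δ')..(y + δ'), Z δ u ≤ 16 * δ' * Z δ' y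
  hy : ∀ δ y u : ℝ, 0 < δ → |u - y| ≤ δ → Z δ y ≤ 3 * Z δ u

/-- HV-ZG2.  The same as `S_ZG` with the two more properties.  For the polynomials (`Pool/Agent/Q68/HV/ZG.lean`) and
`P_δ(v) = δ/(δ²+v²)`:
`∫_{y-δ'}^{y+δ'} P_δ(u-γ) du ≤ 16 δ' P_δ'(y-γ)`, because the left side is at most `π ≤ 16/5` (case `|y-γ| ≤ 2δ'`), and
`P_δ(u-γ) ≤ 4δ'/(y-γ)²` in the other case; `P_δ(v) ≤ 3 P_δ(v')` for `|v-v'| ≤ δ`.  Then the limit, for the integral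
by Fatou's lemma (or by dominated or uniform convergence on the interval). -/
def S_ZG2 : Prop := ∀ X : ℂ → ℂ, Differentiable ℂ X →
  (∀ z : ℂ, X (-((starRingEnd ℂ) z)) = (starRingEnd ℂ) (X z)) → (∃ z, X z ≠ 0) →
  (∃ K : ℝ, 0 < K ∧ ∀ z : ℂ, ‖X z‖ ≤ Real.exp (K * (1 + ‖z‖) ^ (3 / 2 : ℝ))) →
  (∀ s : ℂ, X s = 0 → s.re = 0) → Zfun2 (fun δ y => (logDeriv X (pt δ y)).re)

/-- HV-ZW.  Let `w(y) = 1/(σ²+y²)`, `Z' = Z(δ', ·)`.  By `harn`, `Z(δ,y)² ≤ (δ'/δ) Z(δ,y) Z'(y)`.  In a cell `I` of length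
`δ'`: for `y, u` in `I`, `Z'(y) ≤ 3 Z'(u)` (`hy`) and `w(y) ≤ 3 w(u)` (as `δ' ≤ 1/2 ≤ σ`), hence
`∫_I Z(δ,y) Z'(y) w(y) dy ≤ 9 Z'(u) w(u) ∫_I Z(δ,y) dy ≤ 9 Z'(u) w(u) 16 δ' Z'(y_I) ≤ 432 δ' Z'(u)² w(u)` (`avg` at the left
end `y_I` of `I`); take the mean over `u` in `I`: at most `432 ∫_I Z'² w`.  Sum over the cells
`[kδ', (k+1)δ']`, `-n ≤ k < n` (induction, or `intervalIntegral.sum_integral_adjacent_intervals`), and let `n → ∞`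
(`MeasureTheory.intervalIntegral_tendsto_integral`). -/
def S_ZW : Prop := ∀ Z : ℝ → ℝ → ℝ, Zfun2 Z → ∀ σ δ δ' : ℝ, 1 / 2 ≤ σ → 0 < δ → δ ≤ δ' → δ' ≤ 1 / 2 →
  Integrable (fun y => Z δ y ^ 2 / (σ ^ 2 + y ^ 2)) → Integrable (fun y => Z δ' y ^ 2 / (σ ^ 2 + y ^ 2)) →
  ∫ y, Z δ y ^ 2 / (σ ^ 2 + y ^ 2) ≤ 432 * (δ' / δ) * ∫ y, Z δ' y ^ 2 / (σ ^ 2 + y ^ 2)

/-- as `S_ZD`, with `Zfun2` -/
def S_ZD2 : Prop := ∃ C : ℝ, 0 < C ∧ ∀ (q : ℕ) [NeZero q] (χ : DirichletCharacter ℂ q), χ ≠ 1 →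
  (∀ s : ℂ, 1 / 2 < s.re → DirichletCharacter.LFunction χ s ≠ 0) →
  ∃ Z : ℝ → ℝ → ℝ, Zfun2 Z ∧ ∀ δ y : ℝ, 0 < δ → δ ≤ 1 →
    |(logDeriv (DirichletCharacter.LFunction χ) (pt (1 / 2 + δ) y)).re -
      (Z δ y - (1 / 2) * Real.log (χ.conductor : ℝ))| ≤ C * Real.log (2 + |y|) + eq q

/-- the sharp upper bound -/
def S_TB2 : Prop := ∃ C0 : ℝ, 0 < C0 ∧ ∀ c : ℝ, 0 < c → c ≤ 1 → ∃ q0 : ℕ, ∀ (q : ℕ) [NeZero q], q0 ≤ q →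
  AdmAll q → J q (c / Real.log q) ≤ C0 / c * Real.log q ^ 2

end Pool.Agent.Q253.HV
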