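import Pool.Agent.Q253.HV.Fin
import Pool.Agent.Q253.HV.Stm3

set_option autoImplicit false

/-! # Order of magnitude, lower half, pointwise bounds, examples -/

namespace Pool.Agent.Q253.HV

open MeasureTheory Filter Topology Set Complex

lemma log_ge_one {q : ℕ} (hq : 3 ≤ q) : 1 ≤ Real.log q := by
  rw [Real.le_log_iff_exp_le (by positivity)]
  have := Real.exp_one_lt_d9
  have h3' : (3 : ℝ) ≤ q := by exact_mod_cast hq
  linarith

/-- GRH implies bounds -/
lemma bdd_of_grh2 (F : Facts) (hTB2 : S_TB2) : ∃ C : ℝ, ∀ Q : Set ℕ, GRHon Q → ∀ b : ℝ, 1 < b →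
    ∃ q0 : ℕ, ∀ q ∈ Q, q0 ≤ q → V q 1 b ≤ C * b := by
  obtain ⟨C0, hC0, hTB⟩ := hTB2
  refine ⟨Real.exp 2 * (C0 + 1), fun Q hG b hb => ?_⟩
  have hb0 : 0 < b := by linarith
  have hc : 0 < 1 / b := by positivity
  obtain ⟨q1, h1⟩ := whole F hc
  obtain ⟨q4, h4⟩ := hTB (1 / b) hc (by rw [div_le_one hb0]; exact hb.le)
  refine ⟨q1 + q4 + 3, fun q hqQ hq => ?_⟩
  have hq3 : 3 ≤ q := by omega
  have : NeZero q := ⟨by omega⟩
  have hL1 : 1 ≤ Real.log q := log_ge_one hq3
  have hL : 0 < Real.log q := by linarith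
  have hGq : GRHmod q := hG q hqQ
  have hA : AdmAll q := adm_of_grh F.BG hGq
  obtain ⟨i1, j1, k1⟩ := h1 q (by omega) hGq
  have l4 := h4 q (by omega) hA
  rw [V_eq (by omega) hb.le, div_le_iff₀ (by positivity), one_mul]
  have hbL : Real.log q ≤ b * Real.log q := by nlinarith
  have s1 : ∫ t in (Real.log q)..(b * Real.log q), HH q t ≤
      ∫ t in (Real.log q)..(b * Real.log q), Real.exp 2 * (HH q t * Real.exp (-(2 * (1 / b) * t / Real.log q))) := by
    have hint : IntervalIntegrable (fun t => Real.exp 2 * (HH q t * Real.exp (-(2 * (1 / b) * t / Real.log q))))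
        volume (Real.log q) (b * Real.log q) := by
      rw [intervalIntegrable_iff_integrableOn_Ioc_of_le hbL]
      exact (i1.mono_set (fun t ht => hL.trans ht.1)).const_mul _
    apply intervalIntegral.integral_mono_on hbL (HH_intv q _ _) hint
    intro t ht
    have h5 : 1 ≤ Real.exp 2 * Real.exp (-(2 * (1 / b) * t / Real.log q)) := by
      rw [← Real.exp_add]
      apply Real.one_le_exp
      have : t / (b * Real.log q) ≤ 1 := by
        rw [div_le_one (by positivity)]
        exact ht.2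
      have e : 2 * (1 / b) * t / Real.log q = 2 * (t / (b * Real.log q)) := by
        field_simp
      rw [e]
      linarith
    nlinarith [HH_nonneg q t]
  rw [intervalIntegral.integral_const_mul] at s1
  have s2 : ∫ t in Ioc (Real.log q) (b * Real.log q), HH q t * Real.exp (-(2 * (1 / b) * t / Real.log q)) ≤
      ∫ t in Ioi (0 : ℝ), HH q t * Real.exp (-(2 * (1 / b) * t / Real.log q)) := by
    apply setIntegral_mono_set i1
    · exact Eventually.of_forall fun t => mul_nonneg (HH_nonneg q t) (Real.exp_pos _).le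
    · have hsub : Ioc (Real.log q) (b * Real.log q) ⊆ Ioi 0 := fun t ht => hL.trans ht.1
      exact hsub.eventuallyLE
  have s3 : J q (1 / b / Real.log q) + 1 ≤ (C0 + 1) * b * Real.log q ^ 2 := by
    have e : C0 / (1 / b) * Real.log q ^ 2 = C0 * b * Real.log q ^ 2 := by
      field_simp
    rw [e] at l4
    have : 1 ≤ b * Real.log q ^ 2 := by
      have : 1 ≤ Real.log q ^ 2 := by nlinarith
      nlinarith
    linarith
  have h2pos : 0 < Real.exp 2 := Real.exp_pos 2
  calc ∫ t in (Real.log q)..(b * Real.log q), HH q t ≤ Real.exp 2 *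
        ∫ t in Ioc (Real.log q) (b * Real.log q), HH q t * Real.exp (-(2 * (1 / b) * t / Real.log q)) := by
        rw [← intervalIntegral.integral_of_le hbL]
        exact s1
    _ ≤ Real.exp 2 * ((C0 + 1) * b * Real.log q ^ 2) :=
        mul_le_mul_of_nonneg_left (s2.trans (k1.trans s3)) h2pos.le
    _ = _ := by ring

/-- the near range is at most `1/2 + ε` -/
lemma near_half {c : ℝ} (hc : 0 ≤ c) : ∫ α in (0 : ℝ)..1, α * Real.exp (-(2 * c * α)) ≤ 1 / 2 := by
  have h1 : ∫ α in (0 : ℝ)..1, α * Real.exp (-(2 * c * α)) ≤ ∫ α in (0 : ℝ)..1, α := by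
    apply intervalIntegral.integral_mono_on zero_le_one
    · exact Continuous.intervalIntegrable (by fun_prop) _ _
    · exact Continuous.intervalIntegrable (by fun_prop) _ _
    · intro α hα
      have : Real.exp (-(2 * c * α)) ≤ 1 := Real.exp_le_one_iff.2 (by
        have := mul_nonneg hc hα.1
        linarith)
      nlinarith [hα.1]
  rw [integral_id] at h1
  linarith

/-- the weighted mass beyond `L` -/
lemma far (F : Facts) {c ε : ℝ} (hc : 0 < c) (hc1 : c ≤ 1) (hε : 0 < ε) : ∃ q0 : ℕ, ∀ (q : ℕ) [NeZero q], q0 ≤ q →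
    GRHmod q → IntegrableOn (fun t => HH q t * Real.exp (-(2 * c * t / Real.log q))) (Ioi 0) ∧
    (1 / (2 * c) - 1 - ε) * Real.log q ^ 2 ≤
      ∫ t in Ioi (Real.log q), HH q t * Real.exp (-(2 * c * t / Real.log q)) := by
  obtain ⟨q1, h1⟩ := whole F hc
  obtain ⟨q3, h3⟩ := F.LB c (ε / 2) hc hc1 (half_pos hε)
  obtain ⟨q5, h5⟩ := F.TR (ε / 2) (half_pos hε)
  refine ⟨q1 + q3 + q5 + 3, fun q _ hq hG => ?_⟩
  have hA : AdmAll q := adm_of_grh F.BG hG
  obtain ⟨i1, j1, -⟩ := h1 q (by omega) hG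
  have l3 := h3 q (by omega) hA
  have l5 := h5 q (by omega) c hc.le
  have hL1 : 1 ≤ Real.log q := log_ge_one (by omega)
  have hL : 0 ≤ Real.log q := by linarith
  refine ⟨i1, ?_⟩
  have e : (∫ t in Ioi (0 : ℝ), HH q t * Real.exp (-(2 * c * t / Real.log q))) =
      (∫ t in (0 : ℝ)..Real.log q, HH q t * Real.exp (-(2 * c * t / Real.log q))) +
      ∫ t in Ioi (Real.log q), HH q t * Real.exp (-(2 * c * t / Real.log q)) := by
    rw [intervalIntegral.integral_of_le hL, ← setIntegral_union (Ioc_disjoint_Ioi le_rfl) measurableSet_Ioi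
      (i1.mono_set Ioc_subset_Ioi_self) (i1.mono_set (Ioi_subset_Ioi hL)), Ioc_union_Ioi_eq_Ioi hL]
  have l6 : ∫ t in (0 : ℝ)..Real.log q, HH q t * Real.exp (-(2 * c * t / Real.log q)) ≤
      (1 / 2 + ε / 2) * Real.log q ^ 2 := by
    refine l5.trans ?_
    apply mul_le_mul_of_nonneg_right _ (by positivity)
    linarith [near_half hc.le]
  have l7 := l3.trans j1
  rw [e] at l7
  nlinarith

/-- GRH implies lower bounds of the right order -/
lemma low_of_grh (F : Facts) (hTB2 : S_TB2) : ∃ κ b0 : ℝ, 0 < κ ∧ ∀ Q : Set ℕ, GRHon Q → ∀ b : ℝ, b0 ≤ b →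
    ∃ q0 : ℕ, ∀ q ∈ Q, q0 ≤ q → κ * b ≤ V q 1 b := by
  obtain ⟨C0, hC0, hTB⟩ := hTB2
  -- the constant `K`
  obtain ⟨K, hK1, hK⟩ : ∃ K : ℝ, 1 ≤ K ∧ Real.exp (-K) * (2 * C0 + 1) ≤ 1 / 8 := by
    refine ⟨16 * C0 + 8, by linarith, ?_⟩
    have h1 : 16 * C0 + 8 ≤ Real.exp (16 * C0 + 8) := by linarith [Real.add_one_le_exp (16 * C0 + 8)]
    rw [Real.exp_neg]
    have h2 : (Real.exp (16 * C0 + 8))⁻¹ ≤ (16 * C0 + 8)⁻¹ := inv_anti₀ (by linarith) h1
    calc (Real.exp (16 * C0 + 8))⁻¹ * (2 * C0 + 1) ≤ (16 * C0 + 8)⁻¹ * (2 * C0 + 1) :=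
          mul_le_mul_of_nonneg_right h2 (by linarith)
      _ = 1 / 8 := by
          have : (16 * C0 + 8) ≠ 0 := by linarith
          field_simp
          ring
  refine ⟨1 / (8 * K), 8 * K, by positivity, fun Q hG b hb => ?_⟩
  have hb0 : 0 < b := by linarith
  set c : ℝ := K / b with hc
  have hc0 : 0 < c := by positivity
  have hc1 : c ≤ 1 / 8 := by
    rw [hc, div_le_iff₀ hb0]
    linarith
  obtain ⟨q1, h1⟩ := far F hc0 (by linarith) (show (0 : ℝ) < 1 by norm_num)
  obtain ⟨q2, h2⟩ := whole F (half_pos hc0)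
  obtain ⟨q4, h4⟩ := hTB (c / 2) (half_pos hc0) (by linarith)
  refine ⟨q1 + q2 + q4 + 3, fun q hqQ hq => ?_⟩
  have hq3 : 3 ≤ q := by omega
  have : NeZero q := ⟨by omega⟩
  have hL1 : 1 ≤ Real.log q := log_ge_one hq3
  have hL : 0 < Real.log q := by linarith
  have hGq : GRHmod q := hG q hqQ
  have hA : AdmAll q := adm_of_grh F.BG hGq
  obtain ⟨i1, l1⟩ := h1 q (by omega) hGq
  obtain ⟨i2, -, k2⟩ := h2 q (by omega) hGq
  have l4 := h4 q (by omega) hA
  set L := Real.log q with hLd
  have hb1 : 1 ≤ b := by linarith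
  have hbL : L ≤ b * L := by nlinarith
  have hbL0 : 0 ≤ b * L := by positivity
  rw [V_eq (by omega) hb1, le_div_iff₀ (by positivity), ← hLd, one_mul]
  have e : (∫ t in Ioi L, HH q t * Real.exp (-(2 * c * t / L))) =
      (∫ t in L..(b * L), HH q t * Real.exp (-(2 * c * t / L))) +
      ∫ t in Ioi (b * L), HH q t * Real.exp (-(2 * c * t / L)) := by
    rw [intervalIntegral.integral_of_le hbL, ← setIntegral_union (Ioc_disjoint_Ioi le_rfl) measurableSet_Ioi
      (i1.mono_set (fun t ht => hL.trans ht.1)) (i1.mono_set (Ioi_subset_Ioi hbL0)), Ioc_union_Ioi_eq_Ioi hbL]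
  have s1 : ∫ t in L..(b * L), HH q t * Real.exp (-(2 * c * t / L)) ≤ ∫ t in L..(b * L), HH q t := by
    apply intervalIntegral.integral_mono_on hbL
    · rw [intervalIntegrable_iff_integrableOn_Ioc_of_le hbL]
      exact i1.mono_set (fun t ht => hL.trans ht.1)
    · exact HH_intv q _ _
    · intro t ht
      have ht0 : 0 ≤ t := hL.le.trans ht.1
      have : Real.exp (-(2 * c * t / L)) ≤ 1 := Real.exp_le_one_iff.2 (by
        have : 0 ≤ 2 * c * t / L := by positivity
        linarith)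
      nlinarith [HH_nonneg q t]
  have e2 : ∀ t : ℝ, 2 * (c / 2) * t / L = c * t / L := fun t => by ring
  simp only [e2] at i2 k2
  have s2 : ∫ t in Ioi (b * L), HH q t * Real.exp (-(2 * c * t / L)) ≤
      Real.exp (-K) * ∫ t in Ioi (0 : ℝ), HH q t * Real.exp (-(c * t / L)) := by
    calc ∫ t in Ioi (b * L), HH q t * Real.exp (-(2 * c * t / L)) ≤
          ∫ t in Ioi (b * L), Real.exp (-K) * (HH q t * Real.exp (-(c * t / L))) := by
          apply setIntegral_mono_on (i1.mono_set (Ioi_subset_Ioi hbL0))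
            ((i2.mono_set (Ioi_subset_Ioi hbL0)).const_mul _) measurableSet_Ioi
          intro t ht
          have ht' : b * L < t := ht
          have h5 : Real.exp (-(2 * c * t / L)) ≤ Real.exp (-K) * Real.exp (-(c * t / L)) := by
            rw [← Real.exp_add]
            apply Real.exp_le_exp.2
            have h6 : K ≤ c * t / L := by
              rw [le_div_iff₀ hL, hc]
              have : K / b * (b * L) = K * L := by field_simp
              nlinarith [mul_le_mul_of_nonneg_left ht'.le hc0.le]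
            have h7 : 2 * c * t / L = c * t / L + c * t / L := by ring
            rw [h7]
            linarith
          have := mul_le_mul_of_nonneg_left h5 (HH_nonneg q t)
          linarith
      _ = Real.exp (-K) * ∫ t in Ioi (b * L), HH q t * Real.exp (-(c * t / L)) := integral_const_mul _ _
      _ ≤ _ := by
          apply mul_le_mul_of_nonneg_left _ (Real.exp_pos _).le
          apply setIntegral_mono_set i2
          · exact Eventually.of_forall fun t => mul_nonneg (HH_nonneg q t) (Real.exp_pos _).le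
          · exact (Ioi_subset_Ioi hbL0).eventuallyLE
  have s3 : Real.exp (-K) * (∫ t in Ioi (0 : ℝ), HH q t * Real.exp (-(c * t / L))) ≤ 1 / 8 / c * L ^ 2 := by
    have h5 : J q (c / 2 / L) + 1 ≤ (2 * C0 + 1) / c * L ^ 2 := by
      have e3 : C0 / (c / 2) * L ^ 2 = 2 * C0 / c * L ^ 2 := by
        field_simp
      rw [e3] at l4
      have h6 : 1 ≤ 1 / c * L ^ 2 := by
        have h7 : 1 ≤ 1 / c := by
          rw [le_div_iff₀ hc0]
          linarith
        have h8 : 1 ≤ L ^ 2 := by nlinarith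
        nlinarith
      have e4 : (2 * C0 + 1) / c * L ^ 2 = 2 * C0 / c * L ^ 2 + 1 / c * L ^ 2 := by ring
      rw [e4]
      linarith
    calc Real.exp (-K) * (∫ t in Ioi (0 : ℝ), HH q t * Real.exp (-(c * t / L))) ≤
          Real.exp (-K) * ((2 * C0 + 1) / c * L ^ 2) :=
          mul_le_mul_of_nonneg_left (k2.trans h5) (Real.exp_pos _).le
      _ = (Real.exp (-K) * (2 * C0 + 1)) / c * L ^ 2 := by ring
      _ ≤ 1 / 8 / c * L ^ 2 := by
          apply mul_le_mul_of_nonneg_right _ (by positivity)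
          exact div_le_div_of_nonneg_right hK hc0.le
  have s4 : (1 / (2 * c) - 1 - 1) * L ^ 2 - 1 / 8 / c * L ^ 2 ≤ ∫ t in L..(b * L), HH q t := by
    rw [e] at l1
    linarith
  refine le_trans ?_ s4
  have e5 : (1 / (2 * c) - 1 - 1) * L ^ 2 - 1 / 8 / c * L ^ 2 = (3 / 8 / c - 2) * L ^ 2 := by
    field_simp
    ring
  rw [e5]
  apply mul_le_mul_of_nonneg_right _ (by positivity)
  have h9 : 1 / (8 * K) * b = 1 / 8 / c := by
    rw [hc]
    field_simp
  rw [h9]
  have h10 : 2 ≤ 1 / 4 / c := by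
    rw [le_div_iff₀ hc0]
    linarith
  have e6 : 3 / 8 / c - 1 / 4 / c = 1 / 8 / c := by ring
  linarith

/-- substitution in the improper integral -/
lemma far_subst (q : ℕ) (hq : 2 ≤ q) (c : ℝ) :
    ∫ x in Ioi (q : ℝ), G x q / x ^ 2 * x ^ (-(2 * c / Real.log q)) =
      ∫ t in Ioi (Real.log q), HH q t * Real.exp (-(2 * c * t / Real.log q)) := by
  have hq0 : (0 : ℝ) < q := by positivity
  have him : Real.exp '' (Ioi (Real.log q)) = Ioi (q : ℝ) := by
    ext x
    constructor
    · rintro ⟨t, ht, rfl⟩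
      have := Real.exp_lt_exp.2 ht
      rwa [Real.exp_log hq0] at this
    · intro hx
      have hx0 : 0 < x := hq0.trans hx
      exact ⟨Real.log x, Real.log_lt_log hq0 hx, Real.exp_log hx0⟩
  rw [← him, integral_image_eq_integral_abs_deriv_smul measurableSet_Ioi
    (fun x _ => (Real.hasDerivAt_exp x).hasDerivWithinAt) Real.exp_injective.injOn]
  refine setIntegral_congr_fun measurableSet_Ioi fun t _ => ?_
  simp only [smul_eq_mul]
  rw [abs_of_pos (Real.exp_pos t), ← Real.exp_mul]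
  unfold HH
  have e : t * -(2 * c / Real.log q) = -(2 * c * t / Real.log q) := by ring
  rw [e, Real.exp_neg t]
  have := (Real.exp_pos t).ne'
  field_simp

/-- the lower half of the asymptotic formula in the sense of Abel means -/
lemma abel (F : Facts) {Q : Set ℕ} (hG : GRHon Q) {c : ℝ} (hc : 0 < c) (hc1 : c ≤ 1) :
    ∃ q0 : ℕ, ∀ q ∈ Q, q0 ≤ q → IntegrableOn (fun x => G x q / x ^ 2 * x ^ (-(2 * c / Real.log q))) (Ioi (q : ℝ)) ∧
      1 - 3 * c ≤ 2 * c / Real.log q ^ 2 *
      ∫ x in Ioi (q : ℝ), G x q / x ^ 2 * x ^ (-(2 * c / Real.log q)) := by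
  obtain ⟨q1, h1⟩ := far F hc hc1 (show (0 : ℝ) < 1 / 2 by norm_num)
  refine ⟨q1 + 3, fun q hqQ hq => ?_⟩
  have : NeZero q := ⟨by omega⟩
  obtain ⟨i1, l1⟩ := h1 q (by omega) (hG q hqQ)
  have hL1 : 1 ≤ Real.log q := log_ge_one (by omega)
  have hL : 0 < Real.log q := by linarith
  have hq0 : (0 : ℝ) < q := by
    have : 0 < q := by omega
    exact_mod_cast this
  constructor
  · have him : Real.exp '' (Ioi (Real.log q)) = Ioi (q : ℝ) := by
      ext x
      constructor
      · rintro ⟨t, ht, rfl⟩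
        have := Real.exp_lt_exp.2 ht
        rwa [Real.exp_log hq0] at this
      · intro hx
        have hx0 : 0 < x := hq0.trans hx
        exact ⟨Real.log x, Real.log_lt_log hq0 hx, Real.exp_log hx0⟩
    rw [← him, integrableOn_image_iff_integrableOn_abs_deriv_smul measurableSet_Ioi
      (fun x _ => (Real.hasDerivAt_exp x).hasDerivWithinAt) Real.exp_injective.injOn]
    refine (i1.mono_set (Ioi_subset_Ioi hL.le)).congr_fun (fun t _ => ?_) measurableSet_Ioi
    simp only [smul_eq_mul]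
    rw [abs_of_pos (Real.exp_pos t), ← Real.exp_mul]
    unfold HH
    have e : t * -(2 * c / Real.log q) = -(2 * c * t / Real.log q) := by ring
    rw [e, Real.exp_neg t]
    have := (Real.exp_pos t).ne'
    field_simp
  · rw [far_subst q (by omega) c]
    have h2 := mul_le_mul_of_nonneg_left l1 (show 0 ≤ 2 * c / Real.log q ^ 2 by positivity)
    refine le_trans ?_ h2
    have e : 2 * c / Real.log q ^ 2 * ((1 / (2 * c) - 1 - 1 / 2) * Real.log q ^ 2) = 1 - 3 * c := by
      field_simp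
      ring
    rw [e]

/-- the pointwise upper bound -/
def Pointwise (Q : Set ℕ) : Prop := ∀ b ε : ℝ, 1 < b → 0 < ε → ∃ q0 : ℕ, ∀ q ∈ Q, q0 ≤ q →
  ∀ x : ℝ, (q : ℝ) ≤ x → x ≤ (q : ℝ) ^ b → G x q ≤ (1 + ε) * (x * Real.log q)

lemma pw_HH {q : ℕ} (hq : 3 ≤ q) {b ε : ℝ} (h : ∀ x : ℝ, (q : ℝ) ≤ x → x ≤ (q : ℝ) ^ b → G x q ≤ (1 + ε) * (x * Real.log q))
    {t : ℝ} (ht : Real.log q ≤ t) (ht2 : t ≤ b * Real.log q) : HH q t ≤ (1 + ε) * Real.log q := by
  have hq0 : (0 : ℝ) < q := by positivity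
  have h1 := h (Real.exp t) (by rwa [← Real.log_le_iff_le_exp hq0]) (by
    rw [Real.rpow_def_of_pos hq0]
    apply Real.exp_le_exp.2
    linarith)
  unfold HH
  rw [Real.exp_neg, ← div_eq_mul_inv, div_le_iff₀ (Real.exp_pos t)]
  linarith

lemma upper_of_pw {Q : Set ℕ} (h : Pointwise Q) : Upper Q := by
  intro a b ε ha hab hε
  have hb : 1 < b := by linarith
  obtain ⟨q0, h0⟩ := h b (ε / (b - a)) hb (div_pos hε (by linarith))
  refine ⟨q0 + 3, fun q hqQ hq => ?_⟩
  have hL1 : 1 ≤ Real.log q := log_ge_one (by omega)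
  have hL : 0 < Real.log q := by linarith
  rw [V_eq (by omega) hab.le, div_le_iff₀ (by positivity)]
  have hle : a * Real.log q ≤ b * Real.log q := mul_le_mul_of_nonneg_right hab.le hL.le
  have h1 : ∫ t in (a * Real.log q)..(b * Real.log q), HH q t ≤
      ∫ _ in (a * Real.log q)..(b * Real.log q), (1 + ε / (b - a)) * Real.log q := by
    apply intervalIntegral.integral_mono_on hle (HH_intv q _ _) intervalIntegrable_const
    intro t ht
    exact pw_HH (by omega) (h0 q hqQ (by omega)) (by nlinarith [ht.1]) ht.2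
  rw [intervalIntegral.integral_const, smul_eq_mul] at h1
  refine h1.trans (le_of_eq ?_)
  have : b - a ≠ 0 := by linarith
  field_simp

/-- almost all `x`, in the logarithmic sense -/
lemma almost_all {Q : Set ℕ} (h : Pointwise Q) (hA : Asymp Q) {b ε : ℝ} (hb : 1 < b) (hε : 0 < ε) :
    ∃ q0 : ℕ, ∀ q ∈ Q, q0 ≤ q →
      volume {α : ℝ | 1 ≤ α ∧ α ≤ b ∧ ε * ((q : ℝ) ^ α * Real.log q) <
        |G ((q : ℝ) ^ α) q - (q : ℝ) ^ α * Real.log q|} ≤ ENNReal.ofReal ε := by
  have hb0 : 0 < b := by linarith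
  set δ : ℝ := min (ε / 2) (ε ^ 2 / (2 * b)) with hδ
  have hδ0 : 0 < δ := by positivity
  have hδε : δ < ε := (min_le_left _ _).trans_lt (by linarith)
  have hδb : δ * b ≤ ε ^ 2 / 2 := by
    have : δ ≤ ε ^ 2 / (2 * b) := min_le_right _ _
    rw [le_div_iff₀ (by positivity)] at this
    linarith
  obtain ⟨q1, h1⟩ := h b δ hb hδ0
  obtain ⟨q2, h2⟩ := hA 1 b δ le_rfl hb hδ0
  refine ⟨q1 + q2 + 3, fun q hqQ hq => ?_⟩
  have hL1 : 1 ≤ Real.log q := log_ge_one (by omega)
  have hL : 0 < Real.log q := by linarith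
  have hq0 : (0 : ℝ) < q := by
    have : 0 < q := by omega
    exact_mod_cast this
  have hV := (abs_le.1 (h2 q hqQ (by omega))).1
  rw [V_eq (by omega) hb.le, one_mul] at hV
  have hpw := fun t => pw_HH (q := q) (by omega) (h1 q hqQ (by omega)) (t := t)
  set L := Real.log q with hLd
  -- the deficit
  have hD : ∀ α ∈ Icc (1 : ℝ) b, 0 ≤ (1 + δ) - HH q (α * L) / L := by
    intro α hα
    have := hpw (α * L) (by nlinarith [hα.1]) (mul_le_mul_of_nonneg_right hα.2 hL.le)
    rw [sub_nonneg, div_le_iff₀ hL]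
    exact this
  have hcov : ∫ α in (1 : ℝ)..b, HH q (α * L) = L⁻¹ * ∫ t in L..(b * L), HH q t := by
    rw [intervalIntegral.integral_comp_mul_right (fun t => HH q t) hL.ne', one_mul, smul_eq_mul]
  have hint : IntervalIntegrable (fun α => (1 + δ) - HH q (α * L) / L) volume 1 b := by
    have h5 : IntervalIntegrable (fun α => HH q (α * L)) volume 1 b := by
      have := (HH_intv q L (b * L)).comp_mul_right (c := L)
      simpa [hL.ne'] using this
    exact intervalIntegrable_const.sub (h5.div_const L)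
  have hI : ∫ α in (1 : ℝ)..b, ((1 + δ) - HH q (α * L) / L) ≤ δ * b := by
    have h5 : IntervalIntegrable (fun α => HH q (α * L)) volume 1 b := by
      have := (HH_intv q L (b * L)).comp_mul_right (c := L)
      simpa [hL.ne'] using this
    rw [intervalIntegral.integral_sub intervalIntegrable_const (h5.div_const L), intervalIntegral.integral_const,
      intervalIntegral.integral_div, hcov, smul_eq_mul]
    have e : L⁻¹ * (∫ t in L..(b * L), HH q t) / L = (∫ t in L..(b * L), HH q t) / L ^ 2 := by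
      field_simp
    rw [e]
    nlinarith
  -- the exceptional set
  set B : Set ℝ := {α : ℝ | 1 ≤ α ∧ α ≤ b ∧ ε * ((q : ℝ) ^ α * L) < |G ((q : ℝ) ^ α) q - (q : ℝ) ^ α * L|} with hB
  have hBs : B ⊆ {α : ℝ | α ∈ Icc 1 b ∧ ε ≤ (1 + δ) - HH q (α * L) / L} := by
    intro α hα
    obtain ⟨ha1, ha2, ha3⟩ := hα
    refine ⟨⟨ha1, ha2⟩, ?_⟩
    have hx : (q : ℝ) ^ α = Real.exp (α * L) := by
      rw [Real.rpow_def_of_pos hq0, mul_comm]
    rw [hx] at ha3
    have hHH : G (Real.exp (α * L)) q = HH q (α * L) * Real.exp (α * L) := by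
      unfold HH
      rw [mul_assoc, ← Real.exp_add]
      simp
    have hup := hpw (α * L) (by nlinarith) (mul_le_mul_of_nonneg_right ha2 hL.le)
    rw [hHH] at ha3
    have hE := Real.exp_pos (α * L)
    have e : HH q (α * L) * Real.exp (α * L) - Real.exp (α * L) * L = Real.exp (α * L) * (HH q (α * L) - L) := by ring
    rw [e, abs_mul, abs_of_pos hE] at ha3
    have h6 : ε * L < |HH q (α * L) - L| := by
      have : Real.exp (α * L) * (ε * L) < Real.exp (α * L) * |HH q (α * L) - L| := by linarith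
      exact lt_of_mul_lt_mul_left this hE.le
    rcases le_total 0 (HH q (α * L) - L) with h7 | h7
    · rw [abs_of_nonneg h7] at h6
      nlinarith
    · rw [abs_of_nonpos h7] at h6
      have h8 : HH q (α * L) / L ≤ 1 - ε := by
        rw [div_le_iff₀ hL]
        nlinarith
      linarith
  refine (measure_mono hBs).trans ?_
  -- Markov's inequality
  have hm := mul_meas_ge_le_integral_of_nonneg (μ := volume.restrict (Icc (1 : ℝ) b))
    (f := fun α => (1 + δ) - HH q (α * L) / L) (by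
      refine (ae_restrict_iff' measurableSet_Icc).2 (Eventually.of_forall fun α hα => ?_)
      exact hD α hα) (by
      have := (intervalIntegrable_iff_integrableOn_Icc_of_le hb.le).1 hint
      exact this) ε
  rw [integral_Icc_eq_integral_Ioc, ← intervalIntegral.integral_of_le hb.le] at hm
  have hmeas : MeasurableSet {α : ℝ | ε ≤ (1 + δ) - HH q (α * L) / L} := by
    apply measurableSet_le measurable_const
    exact measurable_const.sub (((HH_meas q).comp (measurable_id.mul_const L)).div_const L)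
  rw [measureReal_restrict_apply hmeas] at hm
  have hset : {α : ℝ | ε ≤ (1 + δ) - HH q (α * L) / L} ∩ Icc 1 b =
      {α : ℝ | α ∈ Icc 1 b ∧ ε ≤ (1 + δ) - HH q (α * L) / L} := by
    ext α
    simp only [mem_inter_iff, mem_setOf_eq]
    exact and_comm
  rw [hset] at hm
  have hfin : volume {α : ℝ | α ∈ Icc 1 b ∧ ε ≤ (1 + δ) - HH q (α * L) / L} ≠ ⊤ := by
    apply ne_top_of_le_ne_top (b := volume (Icc (1 : ℝ) b))
    · simp
    · exact measure_mono fun α hα => hα.1
  have h9 : volume.real {α : ℝ | α ∈ Icc 1 b ∧ ε ≤ (1 + δ) - HH q (α * L) / L} ≤ ε := by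
    have h10 : ε * volume.real {α : ℝ | α ∈ Icc 1 b ∧ ε ≤ (1 + δ) - HH q (α * L) / L} ≤ ε * ε := by
      refine (hm.trans hI).trans (hδb.trans ?_)
      nlinarith
    exact le_of_mul_le_mul_left h10 hε
  rw [← ENNReal.ofReal_toReal hfin]
  exact ENNReal.ofReal_le_ofReal h9

lemma rich_univ : Rich univ := by
  intro r _ hr
  refine ⟨2, max (r : ℝ) 2, fun y hy => ?_⟩
  have hr' : (r : ℝ) ≤ y := (le_max_left _ _).trans hy
  have h2 : (2 : ℝ) ≤ y := (le_max_right _ _).trans hy
  have hr0 : (0 : ℝ) < r := by exact_mod_cast hr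
  refine ⟨r * ⌈y / r⌉₊, mem_univ _, dvd_mul_right _ _, ?_, ?_⟩
  · push_cast
    have := Nat.le_ceil (y / r)
    rw [div_le_iff₀ hr0] at this
    linarith
  · push_cast
    have h3 := Nat.ceil_lt_add_one (show 0 ≤ y / r by positivity)
    have h4 : (r : ℝ) * ⌈y / r⌉₊ ≤ y + r := by
      have : (r : ℝ) * ⌈y / r⌉₊ ≤ r * (y / r + 1) := mul_le_mul_of_nonneg_left h3.le hr0.le
      have e : (r : ℝ) * (y / r + 1) = y + r := by field_simp
      linarith
    have h5 : y ^ (2 : ℝ) = y * y := by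
      rw [Real.rpow_two]
      ring
    rw [h5]
    nlinarith

lemma rich_pow (p : ℕ) (hp : 2 ≤ p) : Rich (range (fun k : ℕ => p ^ k)) := by
  rintro _ ⟨j, rfl⟩ _
  have hp0 : (0 : ℝ) < p := by positivity
  refine ⟨2, max ((p : ℝ) ^ j) p, fun y hy => ?_⟩
  have hr' : (p : ℝ) ^ j ≤ y := (le_max_left _ _).trans hy
  have h2 : (p : ℝ) ≤ y := (le_max_right _ _).trans hy
  have hy1 : 1 ≤ y := by
    have : (2 : ℝ) ≤ p := by exact_mod_cast hp
    linarith
  -- the least power which is at least `y`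
  have hex : ∃ k : ℕ, y ≤ (p : ℝ) ^ k := by
    obtain ⟨k, hk⟩ := pow_unbounded_of_one_lt y (show (1 : ℝ) < p by exact_mod_cast hp)
    exact ⟨k, hk.le⟩
  classical
  set k := Nat.find hex with hk
  have hk1 : y ≤ (p : ℝ) ^ k := Nat.find_spec hex
  refine ⟨p ^ k, ⟨k, rfl⟩, ?_, ?_, ?_⟩
  · apply pow_dvd_pow
    by_contra hlt
    push Not at hlt
    have : (p : ℝ) ^ k < (p : ℝ) ^ j := pow_lt_pow_right₀ (by exact_mod_cast hp) hlt
    linarith
  · push_cast
    exact hk1
  · push_cast
    have h5 : y ^ (2 : ℝ) = y * y := by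
      rw [Real.rpow_two]
      ring
    rw [h5]
    rcases Nat.eq_zero_or_pos k with h0 | h0
    · rw [h0, pow_zero]
      nlinarith
    · have h6 : (p : ℝ) ^ (k - 1) < y := by
        have := Nat.find_min hex (show k - 1 < Nat.find hex by omega)
        push Not at this
        exact this
      have h7 : (p : ℝ) ^ k = (p : ℝ) ^ (k - 1) * p := by
        rw [← pow_succ]
        congr 1
        omega
      rw [h7]
      exact mul_le_mul h6.le h2 hp0.le (by linarith)

end Pool.Agent.Q253.HV
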