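import Pool.Agent.Q253.HV.Stm2

set_option autoImplicit false

/-! # From dyadic mean squares to square integrability -/

namespace Pool.Agent.Q253.HV

open MeasureTheory Filter Topology Set

theorem t_MS : S_MS := by
  intro g hg hg0 hb hd σ hσ
  set η : ℝ := σ - 1 / 2 with hη
  have hη0 : 0 < η := by rw [hη]; linarith
  obtain ⟨C, T0, hT0, hC⟩ := hd η hη0
  set C' : ℝ := max C 0 with hC'
  have hC'0 : 0 ≤ C' := le_max_right _ _
  set f : ℝ → ℝ := fun t => g t * Real.exp (-(2 * σ * t)) with hf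
  have hf0 : ∀ t, 0 ≤ f t := fun t => mul_nonneg (hg0 t) (Real.exp_pos _).le
  have hfm : Measurable f := hg.mul (by fun_prop)
  -- local integrability
  have hloc : ∀ b : ℝ, IntegrableOn f (Ioc 0 b) := by
    intro b
    obtain ⟨K, hK⟩ := hb b
    have h1 : IntegrableOn (fun _ : ℝ => K * 1) (Ioc 0 b) := integrableOn_const (by simp)
    refine Integrable.mono' h1 hfm.aestronglyMeasurable ?_
    refine (ae_restrict_iff' measurableSet_Ioc).2 (Eventually.of_forall fun t ht => ?_)
    rw [Real.norm_of_nonneg (hf0 t)]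
    have h2 := hK t ht.1.le ht.2
    have h3 : Real.exp (-(2 * σ * t)) ≤ 1 := Real.exp_le_one_iff.2 (by
      have : 0 ≤ 2 * σ * t := mul_nonneg (by linarith) ht.1.le
      linarith)
    exact mul_le_mul h2 h3 (Real.exp_pos _).le ((hg0 t).trans h2)
  -- a dyadic piece
  have hpiece : ∀ T : ℝ, T0 ≤ T → ∫ t in Ioc T (2 * T), f t ≤ C' * Real.exp (-(η * T)) := by
    intro T hT
    have hT' : 0 < T := hT0.trans_le hT
    have h1 := hC T hT
    have hle : T ≤ 2 * T := by linarith
    rw [intervalIntegral.integral_of_le hle] at h1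
    have hgi : IntegrableOn (fun t => g t * Real.exp (-t)) (Ioc T (2 * T)) := by
      obtain ⟨K, hK⟩ := hb (2 * T)
      have h1 : IntegrableOn (fun _ : ℝ => K * 1) (Ioc T (2 * T)) := integrableOn_const (by simp)
      refine Integrable.mono' h1 (hg.mul (by fun_prop)).aestronglyMeasurable ?_
      refine (ae_restrict_iff' measurableSet_Ioc).2 (Eventually.of_forall fun t ht => ?_)
      rw [Real.norm_of_nonneg (mul_nonneg (hg0 t) (Real.exp_pos _).le)]
      have h2 := hK t (by linarith [ht.1]) ht.2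
      have h3 : Real.exp (-t) ≤ 1 := Real.exp_le_one_iff.2 (by linarith [ht.1])
      exact mul_le_mul h2 h3 (Real.exp_pos _).le ((hg0 t).trans h2)
    have h2 : ∫ t in Ioc T (2 * T), f t ≤
        ∫ t in Ioc T (2 * T), Real.exp (-(2 * η * T)) * (g t * Real.exp (-t)) := by
      apply setIntegral_mono_on ((hloc (2 * T)).mono_set (Ioc_subset_Ioc_left hT'.le)) (hgi.const_mul _)
        measurableSet_Ioc
      intro t ht
      have h3 : Real.exp (-(2 * σ * t)) ≤ Real.exp (-(2 * η * T)) * Real.exp (-t) := by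
        rw [← Real.exp_add]
        apply Real.exp_le_exp.2
        have h4 : 2 * σ * t = 2 * η * t + t := by rw [hη]; ring
        rw [h4]
        nlinarith [ht.1]
      have := mul_le_mul_of_nonneg_left h3 (hg0 t)
      simp only [hf]
      linarith
    rw [integral_const_mul] at h2
    refine h2.trans ?_
    have h5 : Real.exp (-(2 * η * T)) * (∫ t in Ioc T (2 * T), g t * Real.exp (-t)) ≤
        Real.exp (-(2 * η * T)) * (C' * Real.exp (η * T)) := by
      apply mul_le_mul_of_nonneg_left _ (Real.exp_pos _).le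
      exact h1.trans (mul_le_mul_of_nonneg_right (le_max_left _ _) (Real.exp_pos _).le)
    refine h5.trans (le_of_eq ?_)
    have : Real.exp (-(2 * η * T)) * (C' * Real.exp (η * T)) =
        C' * (Real.exp (-(2 * η * T)) * Real.exp (η * T)) := by ring
    rw [this, ← Real.exp_add]
    congr 2
    ring
  -- the sums
  have hnn : ∀ n : ℕ, ∫ t in Ioc 0 (2 ^ n * T0), f t ≤
      (∫ t in Ioc 0 T0, f t) + C' * ∑ k ∈ Finset.range n, Real.exp (-(η * (2 ^ k * T0))) := by
    intro n
    induction n with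
    | zero => simp
    | succ n ih =>
      have h1 : (0 : ℝ) ≤ 2 ^ n * T0 := by positivity
      have h2 : (2 : ℝ) ^ n * T0 ≤ 2 ^ (n + 1) * T0 := by
        rw [pow_succ]
        nlinarith
      have e : Ioc (0 : ℝ) (2 ^ (n + 1) * T0) = Ioc 0 (2 ^ n * T0) ∪ Ioc (2 ^ n * T0) (2 ^ (n + 1) * T0) :=
        (Ioc_union_Ioc_eq_Ioc h1 h2).symm
      rw [e, setIntegral_union (Ioc_disjoint_Ioc_of_le le_rfl) measurableSet_Ioc (hloc _)
        ((hloc _).mono_set (Ioc_subset_Ioc_left h1)), Finset.sum_range_succ, mul_add, ← add_assoc]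
      apply add_le_add ih
      have h3 : T0 ≤ 2 ^ n * T0 := by
        have : (1 : ℝ) ≤ 2 ^ n := one_le_pow₀ (by norm_num)
        nlinarith
      have h4 := hpiece (2 ^ n * T0) h3
      have e2 : (2 : ℝ) * (2 ^ n * T0) = 2 ^ (n + 1) * T0 := by rw [pow_succ]; ring
      rw [e2] at h4
      exact h4
  -- the series converges
  have hsum : ∀ n : ℕ, ∑ k ∈ Finset.range n, Real.exp (-(η * (2 ^ k * T0))) ≤ 2 / (η * T0) := by
    intro n
    have h1 : ∀ k : ℕ, Real.exp (-(η * (2 ^ k * T0))) ≤ (1 / (η * T0)) * (1 / 2) ^ k := by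
      intro k
      have hp : 0 < η * (2 ^ k * T0) := by positivity
      rw [Real.exp_neg]
      have h2 : η * (2 ^ k * T0) ≤ Real.exp (η * (2 ^ k * T0)) := by
        linarith [Real.add_one_le_exp (η * (2 ^ k * T0))]
      refine (inv_anti₀ hp h2).trans (le_of_eq ?_)
      rw [one_div_pow]
      field_simp
    calc ∑ k ∈ Finset.range n, Real.exp (-(η * (2 ^ k * T0))) ≤
          ∑ k ∈ Finset.range n, (1 / (η * T0)) * (1 / 2) ^ k := Finset.sum_le_sum fun k _ => h1 k
      _ = (1 / (η * T0)) * ∑ k ∈ Finset.range n, (1 / 2 : ℝ) ^ k := by rw [Finset.mul_sum]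
      _ ≤ (1 / (η * T0)) * 2 := by
          apply mul_le_mul_of_nonneg_left _ (by positivity)
          have := sum_geometric_two_le n
          simpa using this
      _ = _ := by ring
  set I : ℝ := (∫ t in Ioc 0 T0, f t) + C' * (2 / (η * T0)) with hI
  have hlim : Tendsto (fun n : ℕ => (2 : ℝ) ^ n * T0) atTop atTop :=
    (tendsto_pow_atTop_atTop_of_one_lt (by norm_num)).atTop_mul_const hT0
  refine integrableOn_Ioi_of_intervalIntegral_norm_bounded I 0 (fun n => ?_) hlim
    (Eventually.of_forall fun n => ?_)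
  · exact hloc _
  · have h1 : (0 : ℝ) ≤ 2 ^ n * T0 := by positivity
    rw [intervalIntegral.integral_of_le h1]
    have h2 : ∫ t in Ioc 0 (2 ^ n * T0), ‖f t‖ = ∫ t in Ioc 0 (2 ^ n * T0), f t := by
      congr 1
      funext t
      exact Real.norm_of_nonneg (hf0 t)
    rw [h2]
    refine (hnn n).trans ?_
    rw [hI]
    have := mul_le_mul_of_nonneg_left (hsum n) hC'0
    linarith

end Pool.Agent.Q253.HV
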