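import Pool.Agent.Q253.HV.TBf
import Pool.Agent.Q253.HV.Stm3

set_option autoImplicit false

/-! # The sharp upper bound -/

namespace Pool.Agent.Q253.HV

open MeasureTheory Filter Topology Set Complex

/-- the function `Z` attached to `χ` -/
lemma zdat2 (hZD : S_ZD2) (hGR : S_GR) : ∃ C : ℝ, 0 < C ∧ ∀ (q : ℕ) [NeZero q] (χ : DirichletCharacter ℂ q),
    χ ≠ 1 → Adm (ff χ) → ∃ Z : ℝ → ℝ → ℝ, Zfun2 Z ∧ ∀ δ y : ℝ, 0 < δ → δ ≤ 1 →
      |(ld (ff χ) (pt (1 / 2 + δ) y)).re - (Z δ y - Real.log (χ.conductor : ℝ) / 2)| ≤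
        (1 + eq q) * EE C y := by
  obtain ⟨C, hC, h⟩ := hZD
  refine ⟨C, hC, ?_⟩
  intro q _ χ hχ hA
  obtain ⟨Z, hZ, hb⟩ := h q χ hχ (fun s hs => (hGR q χ hχ hA s hs).1)
  refine ⟨Z, hZ, ?_⟩
  intro δ y hδ hδ1
  have h1 := hb δ y hδ hδ1
  have hre : 1 / 2 < (pt (1 / 2 + δ) y).re := by
    unfold pt
    simp
    linarith
  rw [(hGR q χ hχ hA _ hre).2] at h1
  have h2 : (1 : ℝ) / 2 * Real.log (χ.conductor : ℝ) = Real.log (χ.conductor : ℝ) / 2 := by ring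
  rw [h2] at h1
  refine le_trans h1 ?_
  have h3 : 0 ≤ Real.log (2 + |y|) := Real.log_nonneg (by linarith [abs_nonneg y])
  have h4 := eq_nonneg q
  unfold EE
  have h5 : 0 ≤ eq q * (C * Real.log (2 + |y|)) := by positivity
  nlinarith

lemma sq3 {r Z l e : ℝ} (h : |r - (Z - l)| ≤ e) : r ^ 2 ≤ 3 * Z ^ 2 + 3 * l ^ 2 + 3 * e ^ 2 ∧
    Z ^ 2 ≤ 3 * r ^ 2 + 3 * l ^ 2 + 3 * e ^ 2 := by
  have h1 : (r - (Z - l)) ^ 2 ≤ e ^ 2 := by
    rw [← sq_abs]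
    exact pow_le_pow_left₀ (abs_nonneg _) h 2
  set d := r - (Z - l) with hd
  have hr : r = Z - l + d := by rw [hd]; ring
  have hZ : Z = r + l - d := by rw [hd]; ring
  constructor
  · rw [hr]
    nlinarith [sq_nonneg (Z + l), sq_nonneg (Z - d), sq_nonneg (l + d)]
  · rw [hZ]
    nlinarith [sq_nonneg (r - l), sq_nonneg (r + d), sq_nonneg (l + d)]

lemma wt_ev (σ : ℝ) (f : ℝ → ℝ) : (fun y => f y ^ 2 / (σ ^ 2 + y ^ 2)) = fun y => f y ^ 2 * wt σ y := by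
  funext y
  unfold wt
  ring

/-- the mean square nearer to the line, sharp in the ratio -/
lemma W_le2 (hPL : S_PL) (hZD : S_ZD2) (hGR : S_GR) (hZW : S_ZW) : ∃ C1 : ℝ, 0 ≤ C1 ∧
    ∀ (q : ℕ) [NeZero q] (χ : DirichletCharacter ℂ q), χ ≠ 1 → Adm (ff χ) → ∀ δ' δ : ℝ, 0 < δ' → δ' ≤ δ →
    δ ≤ 1 / 4 → WW χ (1 / 2 + δ') ≤ 20000 * (δ / δ') * (WW χ (1 / 2 + δ) + Real.log q ^ 2 +
      C1 * (1 + eq q) ^ 2) := by
  obtain ⟨C, hC, hz⟩ := zdat2 hZD hGR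
  refine ⟨CE C, CE_nonneg C, ?_⟩
  intro q _ χ hχ hA δ' δ hδ' hδδ hδ1
  obtain ⟨Z, hZ, hb⟩ := hz q χ hχ hA
  have hδ : 0 < δ := by linarith
  have he := eq_nonneg q
  have hR : 1 ≤ δ / δ' := by
    rw [le_div_iff₀ hδ']
    linarith
  obtain ⟨i1, -⟩ := pl hPL hA (σ := 1 / 2 + δ') (by linarith)
  obtain ⟨i2, -⟩ := pl hPL hA (σ := 1 / 2 + δ) (by linarith)
  obtain ⟨iE, cE⟩ := EE_int' hC (σ := 1 / 2 + δ') (by linarith)
  obtain ⟨iW, cW⟩ := wt_integral (show 0 < 1 / 2 + δ' by linarith)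
  set lN := Real.log (χ.conductor : ℝ) with hlN
  have h6 : lN ≤ Real.log q := by
    have := DN_nonneg χ
    unfold DN at this
    linarith
  have h7 : 0 ≤ lN := by
    have h2 := cond_pos χ
    exact Real.log_nonneg (by exact_mod_cast h2)
  have hlN2 : lN ^ 2 ≤ Real.log q ^ 2 := pow_le_pow_left₀ h7 h6 2
  -- pointwise inequalities
  have p1 : ∀ y, (ld (ff χ) (pt (1 / 2 + δ') y)).re ^ 2 ≤ 3 * Z δ' y ^ 2 + 3 * (lN / 2) ^ 2 +
      3 * ((1 + eq q) * EE C y) ^ 2 := fun y => (sq3 (hb δ' y hδ' (by linarith))).1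
  have p1' : ∀ y, Z δ' y ^ 2 ≤ 3 * (ld (ff χ) (pt (1 / 2 + δ') y)).re ^ 2 + 3 * (lN / 2) ^ 2 +
      3 * ((1 + eq q) * EE C y) ^ 2 := fun y => (sq3 (hb δ' y hδ' (by linarith))).2
  have p2 : ∀ y, Z δ y ^ 2 ≤ 3 * (ld (ff χ) (pt (1 / 2 + δ) y)).re ^ 2 + 3 * (lN / 2) ^ 2 +
      3 * ((1 + eq q) * EE C y) ^ 2 := fun y => (sq3 (hb δ y hδ (by linarith))).2
  -- integrability of the squares of `Z`
  obtain ⟨j1, hj1⟩ := lin3 i1 iW iE 3 (3 * (lN / 2) ^ 2) (3 * (1 + eq q) ^ 2)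
  obtain ⟨j2, hj2⟩ := lin3 i2 iW iE 12 (3 * (lN / 2) ^ 2) (3 * (1 + eq q) ^ 2)
  have z1 : Integrable (fun y => Z δ' y ^ 2 * wt (1 / 2 + δ') y) := by
    refine j1.mono' ?_ (Eventually.of_forall fun y => ?_)
    · exact (((hZ.cont δ' hδ').pow 2).mul (wt_cont (by linarith))).aestronglyMeasurable
    · rw [Real.norm_of_nonneg (mul_nonneg (sq_nonneg _) (wt_nonneg _ _))]
      have := mul_le_mul_of_nonneg_right (p1' y) (wt_nonneg (1 / 2 + δ') y)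
      refine this.trans (le_of_eq ?_)
      ring
  have key2 : ∀ y, Z δ y ^ 2 * wt (1 / 2 + δ') y ≤
      12 * ((ld (ff χ) (pt (1 / 2 + δ) y)).re ^ 2 * wt (1 / 2 + δ) y) + 3 * (lN / 2) ^ 2 * wt (1 / 2 + δ') y +
      3 * (1 + eq q) ^ 2 * (EE C y ^ 2 * wt (1 / 2 + δ') y) := by
    intro y
    have h3 := mul_le_mul_of_nonneg_right (p2 y) (wt_nonneg (1 / 2 + δ') y)
    have h4 := mul_le_mul_of_nonneg_left
      (wt_le4 (σ' := 1 / 2 + δ') (σ := 1 / 2 + δ) (by linarith) (by linarith) (by linarith) y)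
      (show 0 ≤ 3 * (ld (ff χ) (pt (1 / 2 + δ) y)).re ^ 2 by positivity)
    refine h3.trans ?_
    have e : (3 * (ld (ff χ) (pt (1 / 2 + δ) y)).re ^ 2 + 3 * (lN / 2) ^ 2 + 3 * ((1 + eq q) * EE C y) ^ 2) *
        wt (1 / 2 + δ') y = 3 * (ld (ff χ) (pt (1 / 2 + δ) y)).re ^ 2 * wt (1 / 2 + δ') y +
        3 * (lN / 2) ^ 2 * wt (1 / 2 + δ') y + 3 * (1 + eq q) ^ 2 * (EE C y ^ 2 * wt (1 / 2 + δ') y) := by ring
    rw [e]
    linarith
  have z2 : Integrable (fun y => Z δ y ^ 2 * wt (1 / 2 + δ') y) := by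
    refine j2.mono' ?_ (Eventually.of_forall fun y => ?_)
    · exact (((hZ.cont δ hδ).pow 2).mul (wt_cont (by linarith))).aestronglyMeasurable
    · rw [Real.norm_of_nonneg (mul_nonneg (sq_nonneg _) (wt_nonneg _ _))]
      exact key2 y
  have hzw := hZW Z hZ (1 / 2 + δ') δ' δ (by linarith) hδ' hδδ (by linarith)
    (by rw [wt_ev (1 / 2 + δ') (Z δ')]; exact z1) (by rw [wt_ev (1 / 2 + δ') (Z δ)]; exact z2)
  rw [wt_ev (1 / 2 + δ') (Z δ'), wt_ev (1 / 2 + δ') (Z δ)] at hzw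
  obtain ⟨j3, hj3⟩ := lin3 z1 iW iE 3 (3 * (lN / 2) ^ 2) (3 * (1 + eq q) ^ 2)
  have m1 : ∫ y, (ld (ff χ) (pt (1 / 2 + δ') y)).re ^ 2 * wt (1 / 2 + δ') y ≤
      3 * (∫ y, Z δ' y ^ 2 * wt (1 / 2 + δ') y) + 3 * (lN / 2) ^ 2 * (Real.pi / (1 / 2 + δ')) +
      3 * (1 + eq q) ^ 2 * (∫ y, EE C y ^ 2 * wt (1 / 2 + δ') y) := by
    rw [← cW, ← hj3]
    refine integral_mono i1 j3 fun y => ?_
    have := mul_le_mul_of_nonneg_right (p1 y) (wt_nonneg (1 / 2 + δ') y)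
    refine this.trans (le_of_eq ?_)
    ring
  have m2 : ∫ y, Z δ y ^ 2 * wt (1 / 2 + δ') y ≤
      12 * (∫ y, (ld (ff χ) (pt (1 / 2 + δ) y)).re ^ 2 * wt (1 / 2 + δ) y) +
      3 * (lN / 2) ^ 2 * (Real.pi / (1 / 2 + δ')) +
      3 * (1 + eq q) ^ 2 * (∫ y, EE C y ^ 2 * wt (1 / 2 + δ') y) := by
    rw [← cW, ← hj2]
    exact integral_mono z2 j2 key2
  have hpi := Real.pi_pos
  have e1 : WW χ (1 / 2 + δ') = 1 / Real.pi * ∫ y, (ld (ff χ) (pt (1 / 2 + δ') y)).re ^ 2 * wt (1 / 2 + δ') y := rfl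
  have e2 : WW χ (1 / 2 + δ) = 1 / Real.pi * ∫ y, (ld (ff χ) (pt (1 / 2 + δ) y)).re ^ 2 * wt (1 / 2 + δ) y := rfl
  rw [e1, e2]
  set A1 := ∫ y, (ld (ff χ) (pt (1 / 2 + δ') y)).re ^ 2 * wt (1 / 2 + δ') y
  set A2 := ∫ y, (ld (ff χ) (pt (1 / 2 + δ) y)).re ^ 2 * wt (1 / 2 + δ) y with hA2
  set B1 := ∫ y, Z δ' y ^ 2 * wt (1 / 2 + δ') y
  set B2 := ∫ y, Z δ y ^ 2 * wt (1 / 2 + δ') y
  set E := ∫ y, EE C y ^ 2 * wt (1 / 2 + δ') y
  set R := δ / δ'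
  have hA2n : 0 ≤ A2 := integral_nonneg fun y => mul_nonneg (sq_nonneg _) (wt_nonneg _ _)
  -- the extra term
  obtain ⟨X, hX⟩ : ∃ X : ℝ, X = 3 * (lN / 2) ^ 2 * (Real.pi / (1 / 2 + δ')) + 3 * (1 + eq q) ^ 2 * E := ⟨_, rfl⟩
  have hEn : 0 ≤ E := integral_nonneg fun y => mul_nonneg (sq_nonneg _) (wt_nonneg _ _)
  have hX0 : 0 ≤ X := by
    rw [hX]
    have : 0 < 1 / 2 + δ' := by linarith
    positivity
  have hX1 : 1 / Real.pi * X ≤ 3 / 2 * Real.log q ^ 2 + 3 * (CE C * (1 + eq q) ^ 2) := by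
    have e3 : 1 / Real.pi * X = 3 * (lN / 2) ^ 2 / (1 / 2 + δ') + 3 * (1 + eq q) ^ 2 * (1 / Real.pi * E) := by
      rw [hX]
      have : (0 : ℝ) < 1 / 2 + δ' := by linarith
      field_simp
    rw [e3]
    have h8 : 3 * (lN / 2) ^ 2 / (1 / 2 + δ') ≤ 3 / 2 * Real.log q ^ 2 := by
      rw [div_le_iff₀ (by linarith)]
      nlinarith [sq_nonneg (Real.log q)]
    have h9 : 3 * (1 + eq q) ^ 2 * (1 / Real.pi * E) ≤ 3 * (1 + eq q) ^ 2 * CE C :=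
      mul_le_mul_of_nonneg_left cE (by positivity)
    linarith
  have hB2 : B2 ≤ 12 * A2 + X := by rw [hX]; linarith
  have hA1 : A1 ≤ 3 * B1 + X := by rw [hX]; linarith
  have hB1 : B1 ≤ 432 * R * (12 * A2 + X) :=
    hzw.trans (mul_le_mul_of_nonneg_left hB2 (by positivity))
  have h10 : A1 ≤ R * (15552 * A2 + 1297 * X) := by
    have : X ≤ R * X := by nlinarith
    nlinarith
  calc 1 / Real.pi * A1 ≤ 1 / Real.pi * (R * (15552 * A2 + 1297 * X)) :=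
        mul_le_mul_of_nonneg_left h10 (by positivity)
    _ = R * (15552 * (1 / Real.pi * A2) + 1297 * (1 / Real.pi * X)) := by ring
    _ ≤ R * (15552 * (1 / Real.pi * A2) + 1297 * (3 / 2 * Real.log q ^ 2 + 3 * (CE C * (1 + eq q) ^ 2))) := by
        apply mul_le_mul_of_nonneg_left _ (by linarith)
        linarith
    _ ≤ R * (20000 * (1 / Real.pi * A2 + Real.log q ^ 2 + CE C * (1 + eq q) ^ 2)) := by
        apply mul_le_mul_of_nonneg_left _ (by linarith)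
        have h11 : 0 ≤ 1 / Real.pi * A2 := by positivity
        have h12 : 0 ≤ CE C * (1 + eq q) ^ 2 := mul_nonneg (CE_nonneg C) (sq_nonneg _)
        nlinarith [sq_nonneg (Real.log q)]
    _ = _ := by ring

/-- **the sharp upper bound** -/
theorem t_TB2 (hPL : S_PL) (hZD : S_ZD2) (hGR : S_GR) (hZW : S_ZW) (hCO : S_CO) (hEQ : S_EQ) (hOS : S_OS)
    (hTB : S_TB) : S_TB2 := by
  obtain ⟨C1, hC1, hW⟩ := W_le2 hPL hZD hGR hZW
  obtain ⟨C0, hC0, hTB'⟩ := hTB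
  refine ⟨20000 * (C0 + 3 + 4 * C1), by positivity, ?_⟩
  intro c hc hc1
  obtain ⟨q1, h1⟩ := small hCO hEQ hOS (show (0 : ℝ) < 1 by norm_num) one_pos
  obtain ⟨q3, h3⟩ := small hCO hEQ hOS hc one_pos
  obtain ⟨q4, h4⟩ := log_big 24
  obtain ⟨q5, h5⟩ := hTB' 1 one_pos le_rfl
  refine ⟨q1 + q3 + q4 + q5, ?_⟩
  intro q _ hq hA
  have s1 := h1 q (by omega)
  have sc := h3 q (by omega)
  have hL24 := h4 q (by omega)
  have hJ1 := h5 q (by omega) hA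
  have hF : (0 : ℝ) < Nat.totient q := by
    exact_mod_cast Nat.totient_pos.2 (Nat.pos_of_ne_zero (NeZero.ne q))
  have hcard := card_NP q
  set F : ℝ := (Nat.totient q : ℝ) with hFd
  set L := Real.log q with hLd
  have hL0 : 0 < L := by linarith
  have he0 := eq_nonneg q
  have heL : eq q ≤ L := by
    have := s1.e
    rw [one_mul] at this
    exact this
  have hS : ∀ c' : ℝ, 0 < c' → Small q c' 1 →
      ∑ χ ∈ NP q, WW χ (1 / 2 + c' / L) ≤ F * (J q (c' / L) + 1) ∧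
      F * J q (c' / L) ≤ ∑ χ ∈ NP q, WW χ (1 / 2 + c' / L) + F := by
    intro c' hc' hs
    have hδ : 0 < c' / L := by positivity
    have h6 : |∑ χ ∈ NP q, (ld (ff χ) ((1 + 2 * (c' / L) : ℝ) : ℂ) ^ 2).re| ≤ 1 * F :=
      (sum_sq hGR hA (by linarith)).trans hs.s2
    rw [one_mul] at h6
    rw [J_eq hPL hA hδ]
    set S3 := ∑ χ ∈ NP q, (ld (ff χ) ((1 + 2 * (c' / L) : ℝ) : ℂ) ^ 2).re
    set SW := ∑ χ ∈ NP q, WW χ (1 / 2 + c' / L)
    have h7 : |S3 / (1 + 2 * (c' / L))| ≤ F := by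
      rw [abs_div, abs_of_pos (show 0 < 1 + 2 * (c' / L) by positivity), div_le_iff₀ (by positivity)]
      nlinarith
    obtain ⟨h8, h9⟩ := abs_le.1 h7
    have e1 : F * (1 / F * (SW - S3 / (1 + 2 * (c' / L)))) = SW - S3 / (1 + 2 * (c' / L)) := by
      field_simp
    constructor
    · rw [mul_add, e1]
      linarith
    · rw [e1]
      linarith
  obtain ⟨a1, -⟩ := hS 1 one_pos s1
  obtain ⟨-, bc⟩ := hS c hc sc
  have h1L : 1 / L ≤ 1 / 4 := by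
    rw [div_le_iff₀ hL0]
    linarith
  have he2 : (1 + eq q) ^ 2 ≤ 4 * L ^ 2 := by
    have : 1 + eq q ≤ 2 * L := by linarith
    calc (1 + eq q) ^ 2 ≤ (2 * L) ^ 2 := pow_le_pow_left₀ (by linarith) this 2
      _ = _ := by ring
  have hW' : ∑ χ ∈ NP q, WW χ (1 / 2 + c / L) ≤
      20000 * (1 / c) * (∑ χ ∈ NP q, WW χ (1 / 2 + 1 / L) + F * (L ^ 2 + 4 * C1 * L ^ 2)) := by
    have hr : 1 / L / (c / L) = 1 / c := by field_simp
    calc ∑ χ ∈ NP q, WW χ (1 / 2 + c / L) ≤ ∑ χ ∈ NP q, 20000 * (1 / c) * (WW χ (1 / 2 + 1 / L) +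
          (L ^ 2 + 4 * C1 * L ^ 2)) := by
          refine Finset.sum_le_sum fun χ hχ => ?_
          have hχ1 : χ ≠ 1 := Finset.ne_of_mem_erase hχ
          have h7 := hW q χ hχ1 (hA χ hχ1) (c / L) (1 / L) (by positivity)
            (div_le_div_of_nonneg_right hc1 hL0.le) h1L
          rw [hr] at h7
          refine h7.trans ?_
          apply mul_le_mul_of_nonneg_left _ (by positivity)
          have h8 : C1 * (1 + eq q) ^ 2 ≤ C1 * (4 * L ^ 2) :=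
            mul_le_mul_of_nonneg_left he2 (by positivity)
          linarith
      _ = 20000 * (1 / c) * (∑ χ ∈ NP q, WW χ (1 / 2 + 1 / L) + (F - 1) * (L ^ 2 + 4 * C1 * L ^ 2)) := by
          rw [← Finset.mul_sum, Finset.sum_add_distrib, Finset.sum_const, nsmul_eq_mul, hcard]
      _ ≤ _ := by
          apply mul_le_mul_of_nonneg_left _ (by positivity)
          have : 0 ≤ L ^ 2 + 4 * C1 * L ^ 2 := by positivity
          nlinarith
  have hL2 : 1 ≤ L ^ 2 := by nlinarith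
  rw [one_pow, div_one] at hJ1
  have h10 : F * J q (c / L) ≤ F * (20000 * (C0 + 3 + 4 * C1) / c * L ^ 2) := by
    have h12 : ∑ χ ∈ NP q, WW χ (1 / 2 + 1 / L) + F * (L ^ 2 + 4 * C1 * L ^ 2) ≤
        F * ((C0 + 2 + 4 * C1) * L ^ 2) := by
      have h13 := mul_le_mul_of_nonneg_left hJ1 hF.le
      nlinarith
    have h14 : 20000 * (1 / c) * (∑ χ ∈ NP q, WW χ (1 / 2 + 1 / L) + F * (L ^ 2 + 4 * C1 * L ^ 2)) ≤
        20000 * (1 / c) * (F * ((C0 + 2 + 4 * C1) * L ^ 2)) := mul_le_mul_of_nonneg_left h12 (by positivity)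
    have h15 : F ≤ 20000 * (1 / c) * (F * L ^ 2) := by
      have h16 : 1 ≤ 20000 * (1 / c) := by
        rw [mul_one_div, le_div_iff₀ hc]
        linarith
      have h17 : F ≤ F * L ^ 2 := by nlinarith
      calc F ≤ F * L ^ 2 := h17
        _ = 1 * (F * L ^ 2) := by ring
        _ ≤ _ := mul_le_mul_of_nonneg_right h16 (by positivity)
    calc F * J q (c / L) ≤ ∑ χ ∈ NP q, WW χ (1 / 2 + c / L) + F := bc
      _ ≤ 20000 * (1 / c) * (F * ((C0 + 2 + 4 * C1) * L ^ 2)) + 20000 * (1 / c) * (F * L ^ 2) := by linarith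
      _ = _ := by ring
  exact le_of_mul_le_mul_left h10 hF

end Pool.Agent.Q253.HV
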