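import Pool.Agent.Q253.HV.Stm3
import Pool.Agent.Q68.HV.ZG

set_option autoImplicit false

/-! # Two more properties of the zero sum -/

namespace Pool.Agent.Q253.HV

open Complex Filter Topology Polynomial Metric MeasureTheory Pool.Agent.Q68.HV

lemma Pk_cont {δ : ℝ} (hδ : 0 < δ) : Continuous (Pk δ) := by
  unfold Pk
  refine continuous_const.div (by fun_prop) fun v => ?_
  positivity

lemma Pk_int {δ : ℝ} (hδ : 0 < δ) (a b γ : ℝ) : ∫ u in a..b, Pk δ (u - γ) ≤ Real.pi := by
  have h1 : ∫ u in a..b, Pk δ (u - γ) = Real.arctan ((b - γ) / δ) - Real.arctan ((a - γ) / δ) := by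
    apply intervalIntegral.integral_eq_sub_of_hasDerivAt
    · intro x _
      have h2 : HasDerivAt (fun u : ℝ => (u - γ) / δ) (1 / δ) x := by
        exact ((hasDerivAt_id x).sub_const γ).div_const δ
      have h3 := (Real.hasDerivAt_arctan ((x - γ) / δ)).comp x h2
      refine h3.congr_deriv ?_
      unfold Pk
      field_simp
    · exact (Continuous.comp (Pk_cont hδ) (by fun_prop)).intervalIntegrable _ _
  rw [h1]
  have h2 := Real.arctan_lt_pi_div_two ((b - γ) / δ)
  have h3 := Real.neg_pi_div_two_lt_arctan ((a - γ) / δ)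
  linarith

lemma Pk_avg {δ δ' : ℝ} (hδ : 0 < δ) (h : δ ≤ δ') (y γ : ℝ) :
    ∫ u in (y - δ')..(y + δ'), Pk δ (u - γ) ≤ 16 * δ' * Pk δ' (y - γ) := by
  have hδ' : 0 < δ' := hδ.trans_le h
  rcases le_or_gt (|y - γ|) (2 * δ') with h1 | h1
  · refine (Pk_int hδ _ _ γ).trans ?_
    have h2 : (y - γ) ^ 2 ≤ 4 * δ' ^ 2 := by
      rw [← sq_abs]
      calc |y - γ| ^ 2 ≤ (2 * δ') ^ 2 := pow_le_pow_left₀ (abs_nonneg _) h1 2
        _ = _ := by ring
    have h3 : Real.pi ≤ 16 / 5 := by linarith [Real.pi_lt_d2]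
    refine h3.trans ?_
    unfold Pk
    rw [mul_div_assoc', le_div_iff₀ (by positivity)]
    nlinarith
  · have hv : 0 < |y - γ| := by linarith
    have hv2 : 0 < (y - γ) ^ 2 := by
      rw [← sq_abs]
      positivity
    have h4 : ∀ u ∈ Set.Icc (y - δ') (y + δ'), Pk δ (u - γ) ≤ 4 * δ' / (y - γ) ^ 2 := by
      intro u hu
      have h5 : |u - y| ≤ δ' := by
        rw [abs_le]
        constructor <;> linarith [hu.1, hu.2]
      have h6 : |y - γ| ≤ 2 * |u - γ| := by
        have h7 : |y - γ| ≤ |u - y| + |u - γ| := by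
          have : y - γ = -(u - y) + (u - γ) := by ring
          rw [this]
          refine (abs_add_le _ _).trans ?_
          rw [abs_neg]
        linarith
      have h8 : (y - γ) ^ 2 ≤ 4 * (u - γ) ^ 2 := by
        rw [← sq_abs, ← sq_abs (u - γ)]
        calc |y - γ| ^ 2 ≤ (2 * |u - γ|) ^ 2 := pow_le_pow_left₀ (abs_nonneg _) h6 2
          _ = _ := by ring
      unfold Pk
      rw [div_le_div_iff₀ (by positivity) hv2]
      have h9 : 0 ≤ δ' * δ ^ 2 := by positivity
      calc δ * (y - γ) ^ 2 ≤ δ' * (4 * (u - γ) ^ 2) := mul_le_mul h h8 hv2.le hδ'.le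
        _ ≤ 4 * δ' * (δ ^ 2 + (u - γ) ^ 2) := by nlinarith
    have h10 : ∫ u in (y - δ')..(y + δ'), Pk δ (u - γ) ≤ ∫ _ in (y - δ')..(y + δ'), 4 * δ' / (y - γ) ^ 2 :=
      intervalIntegral.integral_mono_on (by linarith)
        ((Continuous.comp (Pk_cont hδ) (by fun_prop)).intervalIntegrable _ _) intervalIntegrable_const h4
    rw [intervalIntegral.integral_const, smul_eq_mul] at h10
    refine h10.trans ?_
    have h11 : 4 * δ' ^ 2 ≤ (y - γ) ^ 2 := by
      rw [← sq_abs (y - γ)]
      calc 4 * δ' ^ 2 = (2 * δ') ^ 2 := by ring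
        _ ≤ _ := pow_le_pow_left₀ (by positivity) h1.le 2
    unfold Pk
    rw [mul_div_assoc', mul_div_assoc', div_le_div_iff₀ hv2 (by positivity)]
    have h12 : 0 < δ' ^ 2 := by positivity
    nlinarith

lemma Pk_hy {δ : ℝ} (hδ : 0 < δ) {v w : ℝ} (h : |w - v| ≤ δ) : Pk δ v ≤ 3 * Pk δ w := by
  unfold Pk
  rw [mul_div_assoc', div_le_div_iff₀ (by positivity) (by positivity)]
  have h1 : (w - v) ^ 2 ≤ δ ^ 2 := by
    rw [← sq_abs]
    exact pow_le_pow_left₀ (abs_nonneg _) h 2
  have h2 : w ^ 2 ≤ 2 * v ^ 2 + 2 * δ ^ 2 := by nlinarith [sq_nonneg (w - 2 * v)]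
  nlinarith [sq_nonneg v]

lemma Sp_cont (p : ℂ[X]) {δ : ℝ} (hδ : 0 < δ) : Continuous (Sp p δ) := by
  unfold Sp
  induction p.roots using Multiset.induction with
  | empty => simpa using continuous_const
  | cons a s ih =>
    simp only [Multiset.map_cons, Multiset.sum_cons]
    exact (Continuous.comp (Pk_cont hδ) (by fun_prop)).add ih

lemma Sp_avg (p : ℂ[X]) {δ δ' : ℝ} (hδ : 0 < δ) (h : δ ≤ δ') (y : ℝ) :
    ∫ u in (y - δ')..(y + δ'), Sp p δ u ≤ 16 * δ' * Sp p δ' y := by
  unfold Sp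
  induction p.roots using Multiset.induction with
  | empty => simp
  | cons a s ih =>
    simp only [Multiset.map_cons, Multiset.sum_cons]
    have hc : Continuous (fun u : ℝ => (s.map (fun r => Pk δ (u - r.im))).sum) := by
      clear ih
      induction s using Multiset.induction with
      | empty => simpa using continuous_const
      | cons a s ih =>
        simp only [Multiset.map_cons, Multiset.sum_cons]
        exact (Continuous.comp (Pk_cont hδ) (by fun_prop)).add ih
    have hca : Continuous (fun u : ℝ => Pk δ (u - a.im)) := (Pk_cont hδ).comp (continuous_id.sub continuous_const)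
    rw [intervalIntegral.integral_add (hca.intervalIntegrable _ _) (hc.intervalIntegrable _ _), mul_add]
    exact add_le_add (Pk_avg hδ h y a.im) ih

lemma Sp_hy (p : ℂ[X]) {δ : ℝ} (hδ : 0 < δ) {y u : ℝ} (h : |u - y| ≤ δ) : Sp p δ y ≤ 3 * Sp p δ u := by
  unfold Sp
  rw [← Multiset.sum_map_mul_left]
  refine Multiset.sum_map_le_sum_map _ _ fun r _ => Pk_hy hδ ?_
  have : u - r.im - (y - r.im) = u - y := by ring
  rw [this]
  exact h

theorem t_ZG2 : S_ZG2 := by
  intro X hX hsym hne hgr hz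
  obtain ⟨Q, hQ, hlim⟩ := had_im hX hsym hne hgr hz
  have hX0 : ∀ δ y : ℝ, 0 < δ → X (pt δ y) ≠ 0 := fun δ y hδ h => by
    have := hz _ h
    rw [pt_re] at this
    linarith
  have lim : ∀ δ y : ℝ, 0 < δ → Tendsto (fun n => Sp (Q n) δ y) atTop
      (𝓝 (logDeriv X (pt δ y)).re) := by
    intro δ y hδ
    have h1 := Complex.logDeriv_tendsto isOpen_univ (Set.mem_univ (pt δ y))
      (hlim.tendstoLocallyUniformlyOn (s := Set.univ))
      (Eventually.of_forall fun n => (Q n).differentiable.differentiableOn) (hX0 δ y hδ)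
    have h2 : Tendsto (fun n => (logDeriv (fun z => (Q n).eval z) (pt δ y)).re) atTop
        (𝓝 (logDeriv X (pt δ y)).re) := (Complex.continuous_re.tendsto _).comp h1
    refine h2.congr fun n => re_poly (Q n) (hQ n) hδ y
  have hZ : Zfun (fun δ y => (logDeriv X (pt δ y)).re) := Pool.Agent.Q68.HV.t_ZG X hX hsym hne hgr hz
  refine ⟨hZ, ?_, ?_⟩
  · intro δ δ' y hδ hδδ
    have hδ' : 0 < δ' := hδ.trans_le hδδ
    have hyle : y - δ' ≤ y + δ' := by linarith
    rw [intervalIntegral.integral_of_le hyle]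
    have hZc := hZ.cont δ hδ
    have hZn := hZ.nonneg
    have hint : IntegrableOn (fun u => (logDeriv X (pt δ u)).re) (Set.Ioc (y - δ') (y + δ')) :=
      ((hZc.intervalIntegrable (y - δ') (y + δ')).1)
    rw [← ENNReal.ofReal_le_ofReal_iff (mul_nonneg (by positivity) (hZn δ' y hδ')),
      ofReal_integral_eq_lintegral_ofReal hint (Eventually.of_forall fun u => hZn δ u hδ)]
    have hF : ∫⁻ u in Set.Ioc (y - δ') (y + δ'), ENNReal.ofReal (logDeriv X (pt δ u)).re ≤
        liminf (fun n => ∫⁻ u in Set.Ioc (y - δ') (y + δ'), ENNReal.ofReal (Sp (Q n) δ u)) atTop := by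
      refine le_trans (le_of_eq ?_) (lintegral_liminf_le fun n =>
        (ENNReal.measurable_ofReal.comp (Sp_cont (Q n) hδ).measurable))
      refine lintegral_congr fun u => ?_
      have h1 := (ENNReal.continuous_ofReal.tendsto _).comp (lim δ u hδ)
      exact h1.liminf_eq.symm
    refine hF.trans ?_
    have hlim2 : Tendsto (fun n => ENNReal.ofReal (16 * δ' * Sp (Q n) δ' y)) atTop
        (𝓝 (ENNReal.ofReal (16 * δ' * (logDeriv X (pt δ' y)).re))) :=
      (ENNReal.continuous_ofReal.tendsto _).comp ((lim δ' y hδ').const_mul _)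
    rw [← hlim2.liminf_eq]
    refine liminf_le_liminf (Eventually.of_forall fun n => ?_)
    have hin : IntegrableOn (Sp (Q n) δ) (Set.Ioc (y - δ') (y + δ')) :=
      (((Sp_cont (Q n) hδ).intervalIntegrable (y - δ') (y + δ')).1)
    rw [← ofReal_integral_eq_lintegral_ofReal hin (Eventually.of_forall fun u => Sp_nonneg (Q n) hδ u)]
    apply ENNReal.ofReal_le_ofReal
    have := Sp_avg (Q n) hδ hδδ y
    rw [intervalIntegral.integral_of_le hyle] at this
    exact this
  · intro δ y u hδ h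
    exact le_of_tendsto_of_tendsto' (lim δ y hδ) ((lim δ u hδ).const_mul _) fun n => Sp_hy _ hδ h

end Pool.Agent.Q253.HV
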