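import Pool.Agent.Q253.HV.All
import Pool.Agent.Q253.HV.Fin2
import Pool.Agent.Q253.HV.TBs
import Pool.Agent.Q253.HV.Zd2
import Pool.Agent.Q253.HV.ZG2
import Pool.Agent.Q253.HV.ZW
import Pool.Agent.Q24.HV.PR
import Pool.Agent.Q253.HV.CL
import Pool.Agent.Q253.HV.MS

set_option autoImplicit false

/-! # Project HV: all the facts -/

namespace Pool.Agent.Q253.HV

theorem a_PR : S_PR := Pool.Agent.Q24.HV.t_PR
theorem a_CL : S_CL := t_CL
theorem a_MS : S_MS := t_MS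
theorem a_TB2 : S_TB2 := t_TB2 a_PL (t_ZD2 t_ZG2) a_GR t_ZW a_CO a_EQ a_OS a_TB

theorem facts : Facts where
  OD := a_OD
  CL := a_CL
  MS := a_MS
  PR := a_PR
  TR := a_TR
  LB := a_LB
  TB := a_TB
  FI := a_FI
  BG := a_BG
  GR := a_GR
  SY := a_SY

lemma V_mono {q : ℕ} (hq : 2 ≤ q) {b b' : ℝ} (hb : 1 ≤ b) (h : b ≤ b') : V q 1 b ≤ V q 1 b' := by
  rw [V_eq hq hb, V_eq hq (hb.trans h)]
  have hL : 0 ≤ Real.log q := Real.log_natCast_nonneg q
  apply div_le_div_of_nonneg_right _ (by positivity)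
  exact intervalIntegral.integral_mono_interval le_rfl (mul_le_mul_of_nonneg_right hb hL)
    (mul_le_mul_of_nonneg_right h hL) (Filter.Eventually.of_forall fun t => HH_nonneg q t) (HH_intv q _ _)

end Pool.Agent.Q253.HV
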