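import Pool.Agent.Q253.HV.W

set_option autoImplicit false

/-! # The one-sided bound decides -/

namespace Pool.Agent.Q253.HV

open MeasureTheory Filter Topology Set Complex

/-- GRH for all the Dirichlet `L`-functions modulo the elements of the set `Q` -/
def GRHon (Q : Set ℕ) : Prop := ∀ (q : ℕ) [NeZero q], q ∈ Q → ∀ χ : DirichletCharacter ℂ q, ∀ s : ℂ,
  DirichletCharacter.LFunction χ s = 0 → 0 < s.re → s.re < 1 → s.re = 1 / 2

/-- the upper half -/
def Upper (Q : Set ℕ) : Prop := ∀ a b ε : ℝ, 1 ≤ a → a < b → 0 < ε →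
  ∃ q0 : ℕ, ∀ q ∈ Q, q0 ≤ q → V q a b ≤ b - a + ε

/-- the asymptotic formula -/
def Asymp (Q : Set ℕ) : Prop := ∀ a b ε : ℝ, 1 ≤ a → a < b → 0 < ε →
  ∃ q0 : ℕ, ∀ q ∈ Q, q0 ≤ q → |V q a b - (b - a)| ≤ ε

/-- the four analytic facts -/
structure Facts : Prop where
  OD : S_OD
  CL : S_CL
  MS : S_MS
  PR : S_PR
  TR : S_TR
  LB : S_LB
  TB : S_TB
  FI : S_FI
  BG : S_BG
  GR : S_GR
  SY : S_SY

lemma HH_gg (hOD : S_OD) {q : ℕ} [NeZero q] (c L t : ℝ) :
    HH q t * Real.exp (-(2 * c * t / L)) =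
      (1 / (Nat.totient q : ℝ)) * ∑ χ : DirichletCharacter ℂ q, gg χ t * Real.exp (-(2 * (1 / 2 + c / L) * t)) := by
  unfold HH
  rw [hOD q (Real.exp t) (Real.exp_pos t).le, ← Finset.sum_mul]
  have h1 : Real.exp (-(2 * (1 / 2 + c / L) * t)) = Real.exp (-t) * Real.exp (-(2 * c * t / L)) := by
    rw [← Real.exp_add]
    congr 1
    ring
  rw [h1]
  unfold gg
  ring

/-- the whole mass of `G` and `J` -/
lemma whole (F : Facts) {c : ℝ} (hc : 0 < c) : ∃ q0 : ℕ, ∀ (q : ℕ) [NeZero q], q0 ≤ q → GRHmod q →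
    IntegrableOn (fun t => HH q t * Real.exp (-(2 * c * t / Real.log q))) (Ioi 0) ∧
    J q (c / Real.log q) ≤ (∫ t in Ioi (0 : ℝ), HH q t * Real.exp (-(2 * c * t / Real.log q))) ∧
    (∫ t in Ioi (0 : ℝ), HH q t * Real.exp (-(2 * c * t / Real.log q))) ≤ J q (c / Real.log q) + 1 := by
  -- choose `q0` after we know RH; if no modulus satisfies GRH there is nothing to prove
  by_cases hRH : RiemannHypothesis
  · obtain ⟨q0, h0⟩ := F.PR hRH c hc
    refine ⟨max q0 3, fun q _ hq hG => ?_⟩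
    have hq3 : 3 ≤ q := (le_max_right _ _).trans hq
    have hL : 0 < Real.log q := Real.log_pos (by exact_mod_cast (by omega : 1 < q))
    obtain ⟨hp1, hp2⟩ := h0 q ((le_max_left _ _).trans hq)
    have hA := adm_of_grh F.BG hG
    set δ := c / Real.log q with hδ
    have hδ0 : 0 < δ := div_pos hc hL
    have hi : ∀ χ : DirichletCharacter ℂ q,
        IntegrableOn (fun t => gg χ t * Real.exp (-(2 * (1 / 2 + δ) * t))) (Ioi 0) := by
      intro χ
      by_cases hχ : χ = 1
      · subst hχ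
        unfold gg
        simp only [if_true]
        exact hp1
      · have h1 := (hA χ hχ).2 (1 / 2 + δ) (by linarith)
        unfold gg
        simp only [if_neg hχ, sub_zero]
        exact h1
    have e1 : (fun t => HH q t * Real.exp (-(2 * c * t / Real.log q))) =
        fun t => (1 / (Nat.totient q : ℝ)) * ∑ χ : DirichletCharacter ℂ q,
          gg χ t * Real.exp (-(2 * (1 / 2 + δ) * t)) := by
      funext t
      exact HH_gg F.OD c (Real.log q) t
    have hI : IntegrableOn (fun t => ∑ χ : DirichletCharacter ℂ q,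
        gg χ t * Real.exp (-(2 * (1 / 2 + δ) * t))) (Ioi 0) :=
      integrable_finsetSum _ fun χ _ => hi χ
    have e2 : (∫ t in Ioi (0 : ℝ), HH q t * Real.exp (-(2 * c * t / Real.log q))) =
        J q δ + (1 / (Nat.totient q : ℝ)) * (∫ t in Ioi (0 : ℝ),
          ‖psiC (1 : DirichletCharacter ℂ q) (Real.exp t) - (Real.exp t : ℂ)‖ ^ 2 *
            Real.exp (-(2 * (1 / 2 + δ) * t))) := by
      rw [e1, integral_const_mul, integral_finsetSum _ fun χ _ => hi χ]
      unfold J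
      rw [← mul_add]
      congr 1
      rw [← Finset.sum_erase_add _ _ (Finset.mem_univ (1 : DirichletCharacter ℂ q))]
      congr 1
      · refine Finset.sum_congr rfl fun χ hχ => ?_
        have hχ1 : χ ≠ 1 := Finset.ne_of_mem_erase hχ
        unfold gg
        simp only [if_neg hχ1, sub_zero]
      · unfold gg
        simp only [if_true]
    have e3 : 0 ≤ (1 / (Nat.totient q : ℝ)) * (∫ t in Ioi (0 : ℝ),
          ‖psiC (1 : DirichletCharacter ℂ q) (Real.exp t) - (Real.exp t : ℂ)‖ ^ 2 *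
            Real.exp (-(2 * (1 / 2 + δ) * t))) :=
      mul_nonneg (by positivity) (setIntegral_nonneg measurableSet_Ioi fun _ _ => by positivity)
    refine ⟨?_, ?_, ?_⟩
    · rw [e1]
      exact hI.const_mul _
    · rw [e2]
      linarith
    · rw [e2]
      linarith
  · exact ⟨0, fun q _ _ hG => absurd (rh_of_grh hG) hRH⟩

/-- the deduction of the asymptotic formula -/
lemma lower_window (F : Facts) {Q : Set ℕ} (hG : GRHon Q) (hU : Upper Q) {a b ε : ℝ} (ha : 1 ≤ a) (hab : a < b)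
    (hε : 0 < ε) : ∃ q0 : ℕ, ∀ q ∈ Q, q0 ≤ q → b - a - ε ≤ V q a b := by
  obtain ⟨C0, hC0, hTB⟩ := F.TB
  obtain ⟨c, ε0, hc, hc1, hε0, m, x, hx1, hxx, hmain⟩ := F.FI a b ε (4 * C0 + 1) ha hab hε (by linarith)
  obtain ⟨q1, h1⟩ := whole F hc
  obtain ⟨q2, h2⟩ := whole F (half_pos hc)
  obtain ⟨q3, h3⟩ := F.LB c ε0 hc hc1 hε0
  obtain ⟨q4, h4⟩ := hTB (c / 2) (half_pos hc) (by linarith)
  obtain ⟨q5, h5⟩ := F.TR ε0 hε0
  have hwin : ∀ i : ℕ, ∃ q0 : ℕ, i < m → ∀ q ∈ Q, q0 ≤ q → V q (x i) (x (i + 1)) ≤ x (i + 1) - x i + ε0 := by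
    intro i
    by_cases hi : i < m
    · obtain ⟨q0, h⟩ := hU (x i) (x (i + 1)) ε0 (hx1 i) (hxx i hi) hε0
      exact ⟨q0, fun _ => h⟩
    · exact ⟨0, fun h => absurd h hi⟩
  choose w hw using hwin
  refine ⟨q1 + q2 + q3 + q4 + q5 + 3 + ∑ i ∈ Finset.range m, w i, fun q hqQ hq => ?_⟩
  have hq3 : 3 ≤ q := by omega
  have : NeZero q := ⟨by omega⟩
  have hL1 : 1 ≤ Real.log q := by
    rw [Real.le_log_iff_exp_le (by positivity)]
    have := Real.exp_one_lt_d9
    have h3' : (3 : ℝ) ≤ q := by exact_mod_cast hq3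
    linarith
  have hL : 0 < Real.log q := by linarith
  have hGq : GRHmod q := hG q hqQ
  have hA : AdmAll q := adm_of_grh F.BG hGq
  obtain ⟨i1, j1, k1⟩ := h1 q (by omega) hGq
  obtain ⟨i2, j2, k2⟩ := h2 q (by omega) hGq
  have l3 := h3 q (by omega) hA
  have l4 := h4 q (by omega) hA
  have l5 := h5 q (by omega) c hc.le
  have e2 : ∀ t : ℝ, 2 * (c / 2) * t / Real.log q = c * t / Real.log q := fun t => by ring
  simp only [e2] at i2 j2 k2
  have := hmain (Real.log q) (HH q) hL (HH_nonneg q) i2 l5 (l3.trans j1) (by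
    refine k2.trans ((add_le_add_left l4 1).trans ?_)
    have : 1 ≤ 1 / c ^ 2 * Real.log q ^ 2 := by
      rw [one_div, ← div_eq_inv_mul, one_le_div (by positivity)]
      nlinarith
    have e : C0 / (c / 2) ^ 2 * Real.log q ^ 2 = 4 * C0 / c ^ 2 * Real.log q ^ 2 := by
      field_simp
      ring
    rw [e]
    have e' : (4 * C0 + 1) / c ^ 2 * Real.log q ^ 2 = 4 * C0 / c ^ 2 * Real.log q ^ 2 + 1 / c ^ 2 * Real.log q ^ 2 := by
      ring
    rw [e']
    linarith) (by
    intro i hi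
    have hwi : w i ≤ ∑ i ∈ Finset.range m, w i :=
      Finset.single_le_sum (fun _ _ => Nat.zero_le _) (Finset.mem_range.2 hi)
    have h := hw i hi q hqQ (by omega)
    rw [V_eq (by omega) (hxx i hi).le, div_le_iff₀ (by positivity)] at h
    exact h)
  rw [V_eq (by omega) hab.le, le_div_iff₀ (by positivity)]
  exact this

lemma asymp_of_upper (F : Facts) {Q : Set ℕ} (hG : GRHon Q) (hU : Upper Q) : Asymp Q := by
  intro a b ε ha hab hε
  obtain ⟨q0, h0⟩ := lower_window F hG hU ha hab hε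
  obtain ⟨q1, h1⟩ := hU a b ε ha hab hε
  refine ⟨max q0 q1, fun q hq hq0 => ?_⟩
  rw [abs_le]
  have := h0 q hq ((le_max_left _ _).trans hq0)
  have := h1 q hq ((le_max_right _ _).trans hq0)
  constructor <;> linarith

lemma upper_of_asymp {Q : Set ℕ} (h : Asymp Q) : Upper Q := by
  intro a b ε ha hab hε
  obtain ⟨q0, h0⟩ := h a b ε ha hab hε
  refine ⟨q0, fun q hq hq0 => ?_⟩
  have := (abs_le.1 (h0 q hq hq0)).2
  linarith

lemma bdd_of_upper {Q : Set ℕ} (h : Upper Q) : Bdd Q := by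
  intro b hb
  obtain ⟨q0, h0⟩ := h 1 b 1 le_rfl hb one_pos
  exact ⟨b - 1 + 1, q0, h0⟩

lemma grh_of_bdd (F : Facts) {Q : Set ℕ} (hR : Rich Q) (hB : Bdd Q) : GRHon Q := by
  intro q _ hq
  exact grh_of F.GR F.SY (adm_of F.OD F.CL F.MS hB hR hq) (rh_of F.OD F.CL F.MS hB hR hq)

/-- GRH implies bounds -/
lemma bdd_of_grh (F : Facts) : ∃ C : ℝ, ∀ Q : Set ℕ, GRHon Q → ∀ b : ℝ, 1 < b →
    ∃ q0 : ℕ, ∀ q ∈ Q, q0 ≤ q → V q 1 b ≤ C * b ^ 2 := by
  obtain ⟨C0, hC0, hTB⟩ := F.TB
  refine ⟨Real.exp 2 * (C0 + 1), fun Q hG b hb => ?_⟩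
  have hb0 : 0 < b := by linarith
  have hc : 0 < 1 / b := by positivity
  obtain ⟨q1, h1⟩ := whole F hc
  obtain ⟨q4, h4⟩ := hTB (1 / b) hc (by rw [div_le_one hb0]; exact hb.le)
  refine ⟨q1 + q4 + 3, fun q hqQ hq => ?_⟩
  have hq3 : 3 ≤ q := by omega
  have : NeZero q := ⟨by omega⟩
  have hL1 : 1 ≤ Real.log q := by
    rw [Real.le_log_iff_exp_le (by positivity)]
    have := Real.exp_one_lt_d9
    have h3' : (3 : ℝ) ≤ q := by exact_mod_cast hq3
    linarith
  have hL : 0 < Real.log q := by linarith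
  have hGq : GRHmod q := hG q hqQ
  have hA : AdmAll q := adm_of_grh F.BG hGq
  obtain ⟨i1, j1, k1⟩ := h1 q (by omega) hGq
  have l4 := h4 q (by omega) hA
  rw [V_eq (by omega) hb.le, div_le_iff₀ (by positivity), one_mul]
  have hbL : Real.log q ≤ b * Real.log q := by nlinarith
  have s1 : ∫ t in (Real.log q)..(b * Real.log q), HH q t ≤
      ∫ t in (Real.log q)..(b * Real.log q), Real.exp 2 * (HH q t * Real.exp (-(2 * (1 / b) * t / Real.log q))) := by
    have hint : IntervalIntegrable (fun t => Real.exp 2 * (HH q t * Real.exp (-(2 * (1 / b) * t / Real.log q))))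
        volume (Real.log q) (b * Real.log q) := by
      rw [intervalIntegrable_iff_integrableOn_Ioc_of_le hbL]
      exact (i1.mono_set (fun t ht => hL.trans ht.1)).const_mul _
    apply intervalIntegral.integral_mono_on hbL (HH_intv q _ _) hint
    intro t ht
    have h5 : 1 ≤ Real.exp 2 * Real.exp (-(2 * (1 / b) * t / Real.log q)) := by
      rw [← Real.exp_add]
      apply Real.one_le_exp
      have : t / (b * Real.log q) ≤ 1 := by
        rw [div_le_one (by positivity)]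
        exact ht.2
      have e : 2 * (1 / b) * t / Real.log q = 2 * (t / (b * Real.log q)) := by
        field_simp
      rw [e]
      linarith
    nlinarith [HH_nonneg q t]
  rw [intervalIntegral.integral_const_mul] at s1
  have s2 : ∫ t in Ioc (Real.log q) (b * Real.log q), HH q t * Real.exp (-(2 * (1 / b) * t / Real.log q)) ≤
      ∫ t in Ioi (0 : ℝ), HH q t * Real.exp (-(2 * (1 / b) * t / Real.log q)) := by
    apply setIntegral_mono_set i1
    · exact Eventually.of_forall fun t => mul_nonneg (HH_nonneg q t) (Real.exp_pos _).le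
    · have hsub : Ioc (Real.log q) (b * Real.log q) ⊆ Ioi 0 := fun t ht => hL.trans ht.1
      exact hsub.eventuallyLE
  have s3 : J q (1 / b / Real.log q) + 1 ≤ (C0 + 1) * b ^ 2 * Real.log q ^ 2 := by
    have e : C0 / (1 / b) ^ 2 * Real.log q ^ 2 = C0 * b ^ 2 * Real.log q ^ 2 := by
      field_simp
    rw [e] at l4
    have : 1 ≤ b ^ 2 * Real.log q ^ 2 := by
      have : 1 ≤ b * Real.log q := by nlinarith
      nlinarith
    linarith
  have h2pos : 0 < Real.exp 2 := Real.exp_pos 2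
  calc ∫ t in (Real.log q)..(b * Real.log q), HH q t ≤ Real.exp 2 *
        ∫ t in Ioc (Real.log q) (b * Real.log q), HH q t * Real.exp (-(2 * (1 / b) * t / Real.log q)) := by
        rw [← intervalIntegral.integral_of_le hbL]
        exact s1
    _ ≤ Real.exp 2 * ((C0 + 1) * b ^ 2 * Real.log q ^ 2) :=
        mul_le_mul_of_nonneg_left (s2.trans (k1.trans s3)) h2pos.le
    _ = _ := by ring

end Pool.Agent.Q253.HV
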