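import Pool.Agent.Q253.HV.LBp
import Pool.Agent.TH212.EH.A0

set_option autoImplicit false

/-! # The lower bound, averaged over the characters -/

namespace Pool.Agent.Q253.HV

open MeasureTheory Filter Topology Set Complex

/-- powers of `log q` are small against `φ(q)` -/
lemma tot_big (K : ℕ) {ε : ℝ} (hε : 0 < ε) : ∃ q0 : ℕ, ∀ q : ℕ, q0 ≤ q →
    Real.log q ^ K ≤ ε * (Nat.totient q : ℝ) := by
  have h1 : Tendsto (fun x : ℝ => Real.log x ^ (K + 1) / x) atTop (𝓝 0) := by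
    have := Real.isLittleO_pow_log_id_atTop (n := K + 1)
    exact this.tendsto_div_nhds_zero
  have h2 := (h1.comp tendsto_natCast_atTop_atTop).eventually (gt_mem_nhds (show (0 : ℝ) < ε / 3 by positivity))
  obtain ⟨q1, hq1⟩ := eventually_atTop.1 h2
  refine ⟨max q1 3, fun q hq => ?_⟩
  have h3 : 3 ≤ q := (le_max_right _ _).trans hq
  have h4 := hq1 q ((le_max_left _ _).trans hq)
  simp only [Function.comp] at h4
  have hq0 : (0 : ℝ) < q := by positivity
  rw [div_lt_iff₀ hq0] at h4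
  have h5 := Pool.Agent.TH212.EH.phi_low q (by omega)
  have h6 : 1 ≤ Real.log q := by
    rw [Real.le_log_iff_exp_le hq0]
    have h7 : (3 : ℝ) ≤ q := by exact_mod_cast h3
    linarith [Real.exp_one_lt_d9]
  have h8 : (0 : ℝ) ≤ (Nat.totient q : ℝ) := Nat.cast_nonneg _
  have h9 : (q : ℝ) ≤ 3 * Real.log q * Nat.totient q := by
    refine h5.trans ?_
    apply mul_le_mul_of_nonneg_right _ h8
    linarith
  have h10 : Real.log q ^ (K + 1) < ε * Nat.totient q * Real.log q := by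
    calc Real.log q ^ (K + 1) < ε / 3 * q := h4
      _ ≤ ε / 3 * (3 * Real.log q * Nat.totient q) := by
          apply mul_le_mul_of_nonneg_left h9 (by positivity)
      _ = _ := by ring
  rw [pow_succ] at h10
  exact (lt_of_mul_lt_mul_right h10 (by linarith)).le

lemma log_big (M : ℝ) : ∃ q0 : ℕ, ∀ q : ℕ, q0 ≤ q → M ≤ Real.log q := by
  have h1 := Real.tendsto_log_atTop.comp (tendsto_natCast_atTop_atTop (R := ℝ))
  obtain ⟨q0, h⟩ := eventually_atTop.1 (h1.eventually (eventually_ge_atTop M))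
  exact ⟨q0, fun q hq => h q hq⟩

/-- the nonprincipal characters -/
noncomputable def NP (q : ℕ) [NeZero q] : Finset (DirichletCharacter ℂ q) :=
  (Finset.univ : Finset (DirichletCharacter ℂ q)).erase 1

lemma card_NP (q : ℕ) [NeZero q] : ((NP q).card : ℝ) = (Nat.totient q : ℝ) - 1 := by
  unfold NP
  rw [Finset.card_erase_of_mem (Finset.mem_univ _), Finset.card_univ]
  have h1 : Fintype.card (DirichletCharacter ℂ q) = Nat.totient q := by
    rw [← Nat.card_eq_fintype_card]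
    exact DirichletCharacter.card_eq_totient_of_hasEnoughRootsOfUnity ℂ q
  rw [h1]
  have h2 : 1 ≤ Nat.totient q := Nat.totient_pos.2 (Nat.pos_of_ne_zero (NeZero.ne q))
  push_cast [Nat.cast_sub h2]
  rfl

/-- the deficiency of the conductor -/
noncomputable def DN {q : ℕ} (χ : DirichletCharacter ℂ q) : ℝ := Real.log q - Real.log (χ.conductor : ℝ)

lemma cond_pos {q : ℕ} [NeZero q] (χ : DirichletCharacter ℂ q) : 1 ≤ χ.conductor := by
  exact Nat.pos_of_dvd_of_pos χ.conductor_dvd_level (Nat.pos_of_ne_zero (NeZero.ne q))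

lemma DN_nonneg {q : ℕ} [NeZero q] (χ : DirichletCharacter ℂ q) : 0 ≤ DN χ := by
  unfold DN
  have h1 : χ.conductor ≤ q := Nat.le_of_dvd (Nat.pos_of_ne_zero (NeZero.ne q)) χ.conductor_dvd_level
  have h2 := cond_pos χ
  have := Real.log_le_log (show (0 : ℝ) < (χ.conductor : ℝ) by exact_mod_cast h2)
    (show (χ.conductor : ℝ) ≤ q by exact_mod_cast h1)
  linarith

lemma DN_le {q : ℕ} [NeZero q] (χ : DirichletCharacter ℂ q) : DN χ ≤ Real.log q := by
  unfold DN
  have h2 := cond_pos χ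
  have := Real.log_nonneg (show (1 : ℝ) ≤ (χ.conductor : ℝ) by exact_mod_cast h2)
  linarith

/-- smallness of the error terms -/
structure Small (q : ℕ) [NeZero q] (c ε : ℝ) : Prop where
  e : eq q ≤ ε * Real.log q
  D : ∑ χ ∈ NP q, DN χ ≤ ε * (Nat.totient q : ℝ) * Real.log q
  L : 1 ≤ ε * Real.log q
  F : 1 ≤ ε * (Nat.totient q : ℝ)
  s1 : ∀ h : ℝ, 0 ≤ h → h ≤ 1 →
    ‖∑ χ ∈ NP q, logDeriv (DirichletCharacter.LFunction χ) ((1 + (2 + h) * (c / Real.log q) : ℝ) : ℂ)‖ ≤
      ε * (Nat.totient q : ℝ)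
  s2 : ‖∑ χ ∈ NP q, (logDeriv (DirichletCharacter.LFunction χ) ((1 + 2 * (c / Real.log q) : ℝ) : ℂ)) ^ 2‖ ≤
      ε * (Nat.totient q : ℝ)

lemma small (hCO : S_CO) (hEQ : S_EQ) (hOS : S_OS) {c ε : ℝ} (hc : 0 < c) (hε : 0 < ε) :
    ∃ q0 : ℕ, ∀ (q : ℕ) [NeZero q], q0 ≤ q → Small q c ε := by
  obtain ⟨C, hC, hos⟩ := hOS
  obtain ⟨q1, h1⟩ := hCO ε hε
  obtain ⟨q2, h2⟩ := hEQ ε hε
  obtain ⟨q3, h3⟩ := log_big (max (1 / ε) (3 * c + 3))
  obtain ⟨q4, h4⟩ := tot_big 0 hε
  obtain ⟨q5, h5⟩ := tot_big 3 (show 0 < ε * c ^ 2 / (2 * C) by positivity)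
  obtain ⟨q6, h6⟩ := tot_big 5 (show 0 < ε * c ^ 3 / (4 * C) by positivity)
  refine ⟨q1 + q2 + q3 + q4 + q5 + q6 + 2, ?_⟩
  intro q _ hq
  have hL := h3 q (by omega)
  have hL3' : 3 * c + 3 ≤ Real.log q := (le_max_right _ _).trans hL
  have hL3 : 3 ≤ Real.log q := by linarith
  have hLe : 1 / ε ≤ Real.log q := (le_max_left _ _).trans hL
  have hL0 : 0 < Real.log q := by linarith
  set L := Real.log q with hLdef
  have hcL : 0 < c / L := by positivity
  have hcL1 : 3 * (c / L) ≤ 1 := by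
    rw [← mul_div_assoc, div_le_one hL0]
    linarith
  have hF : (0 : ℝ) < Nat.totient q := by
    exact_mod_cast Nat.totient_pos.2 (Nat.pos_of_ne_zero (NeZero.ne q))
  refine ⟨h2 q (by omega), ?_, ?_, ?_, ?_, ?_⟩
  · refine le_trans ?_ (h1 q (by omega))
    unfold NP DN
    apply Finset.sum_le_sum_of_subset_of_nonneg (Finset.erase_subset _ _)
    intro χ _ _
    exact DN_nonneg χ
  · rw [div_le_iff₀ hε] at hLe
    linarith
  · simpa using h4 q (by omega)
  · intro h hh hh1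
    have hs1 : (1 : ℝ) < 1 + (2 + h) * (c / L) := by
      have : 0 < (2 + h) * (c / L) := by positivity
      linarith
    have hs2 : 1 + (2 + h) * (c / L) ≤ 2 := by nlinarith
    have h7 := (hos q (by omega) _ hs1 hs2).1
    refine le_trans h7 ?_
    have h8 : 1 + (2 + h) * (c / L) - 1 = (2 + h) * (c / L) := by ring
    rw [h8]
    have h9 : (2 * (c / L)) ^ 2 ≤ ((2 + h) * (c / L)) ^ 2 := by
      apply pow_le_pow_left₀ (by positivity)
      nlinarith
    have h10 : C * (1 + L) / ((2 + h) * (c / L)) ^ 2 ≤ C * (2 * L) / (2 * (c / L)) ^ 2 := by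
      apply div_le_div₀ (by positivity) _ (by positivity) h9
      apply mul_le_mul_of_nonneg_left _ hC.le
      linarith
    refine le_trans h10 ?_
    have h11 := h5 q (by omega)
    have h12 : C * (2 * L) / (2 * (c / L)) ^ 2 = C / (2 * c ^ 2) * L ^ 3 := by
      field_simp
    rw [h12]
    calc C / (2 * c ^ 2) * L ^ 3 ≤ C / (2 * c ^ 2) * (ε * c ^ 2 / (2 * C) * Nat.totient q) := by
          apply mul_le_mul_of_nonneg_left h11 (by positivity)
      _ = (1 / 4) * (ε * Nat.totient q) := by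
          field_simp
          ring
      _ ≤ ε * Nat.totient q := by
          have : 0 ≤ ε * (Nat.totient q : ℝ) := by positivity
          linarith
  · have hs1 : (1 : ℝ) < 1 + 2 * (c / L) := by linarith
    have hs2 : 1 + 2 * (c / L) ≤ 2 := by linarith
    have h7 := (hos q (by omega) _ hs1 hs2).2
    refine le_trans h7 ?_
    have h8 : 1 + 2 * (c / L) - 1 = 2 * (c / L) := by ring
    rw [h8]
    have h10 : C * (1 + L) ^ 2 / (2 * (c / L)) ^ 3 ≤ C * (2 * L) ^ 2 / (2 * (c / L)) ^ 3 := by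
      apply div_le_div_of_nonneg_right _ (by positivity)
      apply mul_le_mul_of_nonneg_left _ hC.le
      apply pow_le_pow_left₀ (by positivity)
      linarith
    refine le_trans h10 ?_
    have h11 := h6 q (by omega)
    have h12 : C * (2 * L) ^ 2 / (2 * (c / L)) ^ 3 = C / (2 * c ^ 3) * L ^ 5 := by
      field_simp
    rw [h12]
    calc C / (2 * c ^ 3) * L ^ 5 ≤ C / (2 * c ^ 3) * (ε * c ^ 3 / (4 * C) * Nat.totient q) := by
          apply mul_le_mul_of_nonneg_left h11 (by positivity)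
      _ = (1 / 8) * (ε * Nat.totient q) := by
          field_simp
          ring
      _ ≤ ε * Nat.totient q := by
          have : 0 ≤ ε * (Nat.totient q : ℝ) := by positivity
          linarith

/-- the sums over the characters of the values at real points -/
lemma sum_lr (hGR : S_GR) {q : ℕ} [NeZero q] (hA : AdmAll q) {s : ℝ} (hs : 1 / 2 < s) :
    |∑ χ ∈ NP q, lr χ s| ≤ ‖∑ χ ∈ NP q, logDeriv (DirichletCharacter.LFunction χ) (s : ℂ)‖ := by
  have h1 : ∑ χ ∈ NP q, lr χ s = (∑ χ ∈ NP q, logDeriv (DirichletCharacter.LFunction χ) (s : ℂ)).re := by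
    rw [Complex.re_sum]
    refine Finset.sum_congr rfl fun χ hχ => ?_
    unfold NP at hχ
    rw [(hGR q χ (Finset.ne_of_mem_erase hχ) (hA χ (Finset.ne_of_mem_erase hχ)) (s : ℂ) (by simpa using hs)).2]
    rfl
  rw [h1]
  exact Complex.abs_re_le_norm _

lemma sum_sq (hGR : S_GR) {q : ℕ} [NeZero q] (hA : AdmAll q) {s : ℝ} (hs : 1 / 2 < s) :
    |∑ χ ∈ NP q, (ld (ff χ) ((s : ℝ) : ℂ) ^ 2).re| ≤
      ‖∑ χ ∈ NP q, logDeriv (DirichletCharacter.LFunction χ) (s : ℂ) ^ 2‖ := by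
  have h1 : ∑ χ ∈ NP q, (ld (ff χ) ((s : ℝ) : ℂ) ^ 2).re =
      (∑ χ ∈ NP q, logDeriv (DirichletCharacter.LFunction χ) (s : ℂ) ^ 2).re := by
    rw [Complex.re_sum]
    refine Finset.sum_congr rfl fun χ hχ => ?_
    unfold NP at hχ
    rw [(hGR q χ (Finset.ne_of_mem_erase hχ) (hA χ (Finset.ne_of_mem_erase hχ)) (s : ℂ) (by simpa using hs)).2]
    rfl
  rw [h1]
  exact Complex.abs_re_le_norm _

end Pool.Agent.Q253.HV
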