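import Pool.Agent.Q253.HV.LBa

set_option autoImplicit false

/-! # The lower bound -/

namespace Pool.Agent.Q253.HV

open MeasureTheory Filter Topology Set Complex

/-- the constant of the error term -/
noncomputable def MC (h η c C1 : ℝ) : ℝ :=
  4 / ((2 + h) * (1 + h) * c) + 1 / (2 * h + h ^ 2) * ((4 + 4 * C1) / c) + (1 + η) * (2 + 1 / (2 * η)) +
    (1 + 1 / η) * C1

lemma arith {h η c L F P S1 S2 SN SNN SD2 SW e C1 ε : ℝ} (hh : 0 < h) (hη : 0 < η) (hc : 0 < c)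
    (hL : 1 ≤ ε * L) (hε : 0 < ε) (hε1 : ε ≤ 1 / 4) (hcε : c / L ≤ ε) (hF : 0 < F) (_hP0 : 0 ≤ P) (hPF : P ≤ F)
    (h1 : |S1| ≤ ε * F) (h2 : |S2| ≤ ε * F) (hSN : F * L * (1 - 2 * ε) ≤ SN) (hSNN : SNN ≤ F * L ^ 2)
    (hSD : SD2 ≤ ε * F * L ^ 2) (he0 : 0 ≤ e) (he : e ≤ ε * L) (hC1 : 0 ≤ C1)
    (key : 1 / (2 * h + h ^ 2) * (((S1 + SN / 2) / (c / L) - (S2 + SN / 2) / ((1 + h) * (c / L))) /
      (1 / 2 + c / L) - P * (2 * (C1 * (1 + e)) / (c / L))) ≤
      (1 + η) * ((1 + η) * SW + (L * S1 + SNN / 4 + SD2 / (4 * η)) / (1 / 2 + c / L)) +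
        P * ((1 + 1 / η) * (C1 * (1 + e) ^ 2))) :
    F * L ^ 2 * (1 / ((2 + h) * (1 + h) * c) - (1 + η) / 2 - ε * MC h η c C1) ≤ (1 + η) ^ 2 * SW := by
  have hL4 : 4 ≤ L := by nlinarith
  have hL0 : 0 < L := by linarith
  set δ := c / L with hδ
  have hδ0 : 0 < δ := by positivity
  set σ := 1 / 2 + δ with hσ
  have hσ0 : 0 < σ := by positivity
  set i := 1 / σ with hi
  have hi0 : 0 < i := by positivity
  have hi2 : i ≤ 2 := by
    rw [hi, div_le_iff₀ hσ0]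
    rw [hσ]
    linarith
  have hi1 : 2 * (1 - 2 * ε) ≤ i := by
    rw [hi, le_div_iff₀ hσ0, hσ]
    nlinarith
  obtain ⟨h1a, h1b⟩ := abs_le.1 h1
  obtain ⟨h2a, h2b⟩ := abs_le.1 h2
  have hδi : 1 / δ = L / c := by rw [hδ]; field_simp
  set k := 1 / (2 * h + h ^ 2) with hk
  have hk0 : 0 < k := by positivity
  have hFL : 0 < F * L ^ 2 := by positivity
  -- the left side
  have e1 : ((S1 + SN / 2) / δ - (S2 + SN / 2) / ((1 + h) * δ)) / σ - P * (2 * (C1 * (1 + e)) / δ) =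
      i * (1 / δ) * (S1 - S2 / (1 + h)) + i * (1 / δ) * (SN / 2) * (h / (1 + h)) - P * (2 * C1 * (1 + e)) * (1 / δ) := by
    rw [hi]
    field_simp
    ring
  rw [e1, hδi] at key
  have a1 : -(4 * ε * F * L / c) ≤ i * (L / c) * (S1 - S2 / (1 + h)) := by
    have h3 : -(2 * ε * F) ≤ S1 - S2 / (1 + h) := by
      have : S2 / (1 + h) ≤ ε * F := by
        rw [div_le_iff₀ (by positivity)]
        nlinarith [mul_pos hε hF]
      linarith
    have h4 : 0 ≤ i * (L / c) := by positivity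
    have h5 : i * (L / c) ≤ 2 * (L / c) := mul_le_mul_of_nonneg_right hi2 (by positivity)
    have h6 : 0 < 2 * ε * F := by positivity
    calc -(4 * ε * F * L / c) = 2 * (L / c) * -(2 * ε * F) := by ring
      _ ≤ i * (L / c) * -(2 * ε * F) := by nlinarith
      _ ≤ _ := mul_le_mul_of_nonneg_left h3 h4
  have a2 : F * L ^ 2 * (1 - 4 * ε) * (h / (1 + h)) / c ≤ i * (L / c) * (SN / 2) * (h / (1 + h)) := by
    have h3 : 2 * (1 - 2 * ε) * (L / c) ≤ i * (L / c) := mul_le_mul_of_nonneg_right hi1 (by positivity)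
    have h4 : 0 ≤ F * L * (1 - 2 * ε) := by
      have : 0 ≤ 1 - 2 * ε := by linarith
      positivity
    have h5 : 2 * (1 - 2 * ε) * (L / c) * (F * L * (1 - 2 * ε) / 2) ≤ i * (L / c) * (SN / 2) :=
      mul_le_mul h3 (by linarith) (by positivity) (by positivity)
    have h6 : F * L ^ 2 * (1 - 4 * ε) / c ≤ 2 * (1 - 2 * ε) * (L / c) * (F * L * (1 - 2 * ε) / 2) := by
      have : 2 * (1 - 2 * ε) * (L / c) * (F * L * (1 - 2 * ε) / 2) = F * L ^ 2 / c * (1 - 2 * ε) ^ 2 := by ring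
      rw [this]
      have h7 : F * L ^ 2 * (1 - 4 * ε) / c = F * L ^ 2 / c * (1 - 4 * ε) := by ring
      rw [h7]
      apply mul_le_mul_of_nonneg_left _ (by positivity)
      nlinarith
    calc F * L ^ 2 * (1 - 4 * ε) * (h / (1 + h)) / c = F * L ^ 2 * (1 - 4 * ε) / c * (h / (1 + h)) := by ring
      _ ≤ _ := mul_le_mul_of_nonneg_right (h6.trans h5) (by positivity)
  have a3 : P * (2 * C1 * (1 + e)) * (L / c) ≤ 4 * C1 * ε * F * L ^ 2 / c := by
    have h3 : 1 + e ≤ 2 * (ε * L) := by linarith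
    have h4 : P * (2 * C1 * (1 + e)) ≤ F * (2 * C1 * (2 * (ε * L))) := by
      apply mul_le_mul hPF _ (by positivity) hF.le
      apply mul_le_mul_of_nonneg_left h3 (by positivity)
    calc P * (2 * C1 * (1 + e)) * (L / c) ≤ F * (2 * C1 * (2 * (ε * L))) * (L / c) :=
          mul_le_mul_of_nonneg_right h4 (by positivity)
      _ = _ := by ring
  have a4 : 4 * ε * F * L / c ≤ 4 * ε * F * L ^ 2 / c := by
    apply div_le_div_of_nonneg_right _ hc.le
    have : L ≤ L ^ 2 := by nlinarith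
    apply mul_le_mul_of_nonneg_left this (by positivity)
  have left : k * (F * L ^ 2 * (1 - 4 * ε) * (h / (1 + h)) / c - 4 * ε * F * L ^ 2 / c -
      4 * C1 * ε * F * L ^ 2 / c) ≤ (1 + η) * ((1 + η) * SW + (L * S1 + SNN / 4 + SD2 / (4 * η)) / σ) +
        P * ((1 + 1 / η) * (C1 * (1 + e) ^ 2)) := by
    refine le_trans ?_ key
    apply mul_le_mul_of_nonneg_left _ hk0.le
    linarith
  -- the right side
  have b1 : (L * S1 + SNN / 4 + SD2 / (4 * η)) / σ ≤ F * L ^ 2 * (2 * ε + 1 / 2 + ε / (2 * η)) := by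
    have h3 : L * S1 + SNN / 4 + SD2 / (4 * η) ≤ L * (ε * F) + F * L ^ 2 / 4 + ε * F * L ^ 2 / (4 * η) := by
      have h4 : L * S1 ≤ L * (ε * F) := mul_le_mul_of_nonneg_left h1b hL0.le
      have h5 : SD2 / (4 * η) ≤ ε * F * L ^ 2 / (4 * η) := div_le_div_of_nonneg_right hSD (by positivity)
      linarith
    have h4 : 0 ≤ L * (ε * F) + F * L ^ 2 / 4 + ε * F * L ^ 2 / (4 * η) := by positivity
    calc (L * S1 + SNN / 4 + SD2 / (4 * η)) / σ ≤
          (L * (ε * F) + F * L ^ 2 / 4 + ε * F * L ^ 2 / (4 * η)) / σ :=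
          div_le_div_of_nonneg_right h3 hσ0.le
      _ = (L * (ε * F) + F * L ^ 2 / 4 + ε * F * L ^ 2 / (4 * η)) * i := by rw [hi]; ring
      _ ≤ (L * (ε * F) + F * L ^ 2 / 4 + ε * F * L ^ 2 / (4 * η)) * 2 := mul_le_mul_of_nonneg_left hi2 h4
      _ = 2 * (L * (ε * F)) + F * L ^ 2 * (1 / 2 + ε / (2 * η)) := by field_simp; ring
      _ ≤ 2 * (L ^ 2 * (ε * F)) + F * L ^ 2 * (1 / 2 + ε / (2 * η)) := by
          have : L ≤ L ^ 2 := by nlinarith
          have h6 : L * (ε * F) ≤ L ^ 2 * (ε * F) := mul_le_mul_of_nonneg_right this (by positivity)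
          linarith
      _ = _ := by ring
  have b2 : P * ((1 + 1 / η) * (C1 * (1 + e) ^ 2)) ≤ F * L ^ 2 * (ε * ((1 + 1 / η) * C1)) := by
    have h3 : (1 + e) ^ 2 ≤ ε * L ^ 2 := by
      have h4 : 1 + e ≤ 2 * (ε * L) := by linarith
      calc (1 + e) ^ 2 ≤ (2 * (ε * L)) ^ 2 := pow_le_pow_left₀ (by linarith) h4 2
        _ = (4 * ε) * (ε * L ^ 2) := by ring
        _ ≤ 1 * (ε * L ^ 2) := mul_le_mul_of_nonneg_right (by linarith) (by positivity)
        _ = _ := one_mul _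
    calc P * ((1 + 1 / η) * (C1 * (1 + e) ^ 2)) ≤ F * ((1 + 1 / η) * (C1 * (ε * L ^ 2))) := by
          apply mul_le_mul hPF _ (by positivity) hF.le
          apply mul_le_mul_of_nonneg_left _ (by positivity)
          exact mul_le_mul_of_nonneg_left h3 hC1
      _ = _ := by ring
  have b3 : (1 + η) * ((1 + η) * SW + (L * S1 + SNN / 4 + SD2 / (4 * η)) / σ) ≤
      (1 + η) ^ 2 * SW + (1 + η) * (F * L ^ 2 * (2 * ε + 1 / 2 + ε / (2 * η))) := by
    have := mul_le_mul_of_nonneg_left b1 (show 0 ≤ 1 + η by linarith)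
    nlinarith
  have hfin := left.trans (add_le_add b3 b2)
  have c1 : k * (F * L ^ 2 * (1 - 4 * ε) * (h / (1 + h)) / c - 4 * ε * F * L ^ 2 / c -
      4 * C1 * ε * F * L ^ 2 / c) = F * L ^ 2 * (1 / ((2 + h) * (1 + h) * c) -
        ε * (4 / ((2 + h) * (1 + h) * c) + k * ((4 + 4 * C1) / c))) := by
    rw [hk]
    have : 2 * h + h ^ 2 = h * (2 + h) := by ring
    rw [this]
    field_simp
    ring
  rw [c1] at hfin
  unfold MC
  rw [← hk]
  have c2 : F * L ^ 2 * (1 / ((2 + h) * (1 + h) * c) - (1 + η) / 2 - ε * (4 / ((2 + h) * (1 + h) * c) +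
      k * ((4 + 4 * C1) / c) + (1 + η) * (2 + 1 / (2 * η)) + (1 + 1 / η) * C1)) =
      F * L ^ 2 * (1 / ((2 + h) * (1 + h) * c) - ε * (4 / ((2 + h) * (1 + h) * c) + k * ((4 + 4 * C1) / c))) -
      (1 + η) * (F * L ^ 2 * (2 * ε + 1 / 2 + ε / (2 * η))) - F * L ^ 2 * (ε * ((1 + 1 / η) * C1)) := by
    ring
  rw [c2]
  linarith

lemma sum_ind {ι : Type*} (S : Finset ι) (x1 x2 lN D W : ι → ℝ) (k δ h η L σ B A : ℝ)
    (hi : ∀ i ∈ S, k * (((x1 i + lN i / 2) / δ - (x2 i + lN i / 2) / ((1 + h) * δ)) / σ - B) ≤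
      (1 + η) * ((1 + η) * W i + (L * x1 i + lN i ^ 2 / 4 + D i ^ 2 / (4 * η)) / σ) + A) :
    k * (((∑ i ∈ S, x1 i + (∑ i ∈ S, lN i) / 2) / δ - (∑ i ∈ S, x2 i + (∑ i ∈ S, lN i) / 2) / ((1 + h) * δ)) /
      σ - (S.card : ℝ) * B) ≤
      (1 + η) * ((1 + η) * (∑ i ∈ S, W i) + (L * (∑ i ∈ S, x1 i) + (∑ i ∈ S, lN i ^ 2) / 4 +
        (∑ i ∈ S, D i ^ 2) / (4 * η)) / σ) + (S.card : ℝ) * A := by
  have h1 := Finset.sum_le_sum hi
  have e1 : ∑ i ∈ S, k * (((x1 i + lN i / 2) / δ - (x2 i + lN i / 2) / ((1 + h) * δ)) / σ - B) =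
      k * (((∑ i ∈ S, x1 i + (∑ i ∈ S, lN i) / 2) / δ - (∑ i ∈ S, x2 i + (∑ i ∈ S, lN i) / 2) / ((1 + h) * δ)) /
      σ - (S.card : ℝ) * B) := by
    rw [← Finset.mul_sum, Finset.sum_sub_distrib, Finset.sum_const, nsmul_eq_mul, ← Finset.sum_div,
      Finset.sum_sub_distrib, ← Finset.sum_div, ← Finset.sum_div, Finset.sum_add_distrib,
      Finset.sum_add_distrib, ← Finset.sum_div]
  have e2 : ∑ i ∈ S, ((1 + η) * ((1 + η) * W i + (L * x1 i + lN i ^ 2 / 4 + D i ^ 2 / (4 * η)) / σ) + A) =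
      (1 + η) * ((1 + η) * (∑ i ∈ S, W i) + (L * (∑ i ∈ S, x1 i) + (∑ i ∈ S, lN i ^ 2) / 4 +
        (∑ i ∈ S, D i ^ 2) / (4 * η)) / σ) + (S.card : ℝ) * A := by
    rw [Finset.sum_add_distrib, Finset.sum_const, nsmul_eq_mul, ← Finset.mul_sum, Finset.sum_add_distrib,
      ← Finset.mul_sum, ← Finset.sum_div, Finset.sum_add_distrib, Finset.sum_add_distrib, ← Finset.mul_sum,
      ← Finset.sum_div, ← Finset.sum_div]
  rw [e1, e2] at h1
  exact h1

/-- the bounds for the sums over the conductors -/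
lemma cond_sums {q : ℕ} [NeZero q] {c ε : ℝ} (hs : Small q c ε) (hL : 0 ≤ Real.log q) :
    (Nat.totient q : ℝ) * Real.log q * (1 - 2 * ε) ≤ ∑ χ ∈ NP q, (Real.log q - DN χ) ∧
    ∑ χ ∈ NP q, (Real.log q - DN χ) ^ 2 ≤ (Nat.totient q : ℝ) * Real.log q ^ 2 ∧
    ∑ χ ∈ NP q, DN χ ^ 2 ≤ ε * (Nat.totient q : ℝ) * Real.log q ^ 2 := by
  have hc := card_NP q
  refine ⟨?_, ?_, ?_⟩
  · rw [Finset.sum_sub_distrib, Finset.sum_const, nsmul_eq_mul, hc]
    have h1 := hs.D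
    have h2 := mul_le_mul_of_nonneg_right hs.F hL
    nlinarith
  · calc ∑ χ ∈ NP q, (Real.log q - DN χ) ^ 2 ≤ ∑ _χ ∈ NP q, Real.log q ^ 2 := by
          refine Finset.sum_le_sum fun χ _ => ?_
          apply pow_le_pow_left₀
          · linarith [DN_le χ]
          · linarith [DN_nonneg χ]
      _ = ((Nat.totient q : ℝ) - 1) * Real.log q ^ 2 := by
          rw [Finset.sum_const, nsmul_eq_mul, hc]
      _ ≤ _ := by
          apply mul_le_mul_of_nonneg_right _ (by positivity)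
          linarith
  · calc ∑ χ ∈ NP q, DN χ ^ 2 ≤ ∑ χ ∈ NP q, Real.log q * DN χ := by
          refine Finset.sum_le_sum fun χ _ => ?_
          rw [sq]
          exact mul_le_mul_of_nonneg_right (DN_le χ) (DN_nonneg χ)
      _ = Real.log q * ∑ χ ∈ NP q, DN χ := by rw [Finset.mul_sum]
      _ ≤ Real.log q * (ε * (Nat.totient q : ℝ) * Real.log q) := mul_le_mul_of_nonneg_left hs.D hL
      _ = _ := by ring

/-- the lower bound for the sum of the `WW` -/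
lemma lb_WW (hPL : S_PL) (hPO : S_PO) (hZD : S_ZD) (hGR : S_GR) : ∃ C1 : ℝ, 0 ≤ C1 ∧
    ∀ (q : ℕ) [NeZero q], AdmAll q → ∀ c ε h η : ℝ, 0 < c → c ≤ 1 → 0 < ε → ε ≤ 1 / 4 → Small q c ε →
    0 < h → h ≤ 1 → 0 < η →
    (Nat.totient q : ℝ) * Real.log q ^ 2 * (1 / ((2 + h) * (1 + h) * c) - (1 + η) / 2 - ε * MC h η c C1) ≤
      (1 + η) ^ 2 * ∑ χ ∈ NP q, WW χ (1 / 2 + c / Real.log q) := by
  obtain ⟨C1, hC1, hlb⟩ := lb_ind hPL hPO hZD hGR
  refine ⟨C1, hC1, ?_⟩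
  intro q _ hA c ε h η hc hc1 hε hε1 hs hh hh1 hη
  have hL1 := hs.L
  have hL0 : 0 < Real.log q := by
    by_contra hcon
    push Not at hcon
    nlinarith
  have hcε : c / Real.log q ≤ ε := by
    rw [div_le_iff₀ hL0]
    linarith
  have hcL : 0 < c / Real.log q := by positivity
  have hF : (0 : ℝ) < Nat.totient q := by
    exact_mod_cast Nat.totient_pos.2 (Nat.pos_of_ne_zero (NeZero.ne q))
  obtain ⟨k1, k2, k3⟩ := cond_sums hs hL0.le
  have hcard := card_NP q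
  have hF1 : (1 : ℝ) ≤ Nat.totient q := by
    exact_mod_cast Nat.totient_pos.2 (Nat.pos_of_ne_zero (NeZero.ne q))
  have t1 : |∑ χ ∈ NP q, lr χ (1 + 2 * (c / Real.log q))| ≤ ε * (Nat.totient q : ℝ) := by
    refine (sum_lr hGR hA (by linarith)).trans ?_
    have := hs.s1 0 le_rfl zero_le_one
    simpa using this
  have t2 : |∑ χ ∈ NP q, lr χ (1 + (2 + h) * (c / Real.log q))| ≤ ε * (Nat.totient q : ℝ) :=
    (sum_lr hGR hA (by nlinarith)).trans (hs.s1 h hh.le hh1)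
  refine arith (P := ((NP q).card : ℝ)) (e := eq q) hh hη hc hL1 hε hε1 hcε hF (by positivity)
    (by rw [hcard]; linarith) t1 t2 k1 k2 k3 (eq_nonneg q) hs.e hC1 ?_
  refine sum_ind (NP q) (fun χ => lr χ (1 + 2 * (c / Real.log q))) (fun χ => lr χ (1 + (2 + h) * (c / Real.log q)))
    (fun χ => Real.log q - DN χ) DN (fun χ => WW χ (1 / 2 + c / Real.log q)) (1 / (2 * h + h ^ 2)) (c / Real.log q)
    h η (Real.log q) (1 / 2 + c / Real.log q) (2 * (C1 * (1 + eq q)) / (c / Real.log q))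
    ((1 + 1 / η) * (C1 * (1 + eq q) ^ 2)) ?_
  intro χ hχ
  have hχ1 : χ ≠ 1 := Finset.ne_of_mem_erase hχ
  exact hlb q χ hχ1 (hA χ hχ1) (c / Real.log q) h η (Real.log q - DN χ) (DN χ) hcL (by linarith) hh hh1 hη
    (by unfold DN; ring) rfl

lemma WW_nonneg {q : ℕ} (χ : DirichletCharacter ℂ q) (σ : ℝ) : 0 ≤ WW χ σ := by
  unfold WW
  exact mul_nonneg (by positivity) (integral_nonneg fun y => mul_nonneg (sq_nonneg _) (wt_nonneg _ _))

/-- `J` in terms of the `WW` -/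
lemma J_eq (hPL : S_PL) {q : ℕ} [NeZero q] (hA : AdmAll q) {δ : ℝ} (hδ : 0 < δ) :
    J q δ = (1 / (Nat.totient q : ℝ)) * (∑ χ ∈ NP q, WW χ (1 / 2 + δ) -
      (∑ χ ∈ NP q, (ld (ff χ) ((1 + 2 * δ : ℝ) : ℂ) ^ 2).re) / (1 + 2 * δ)) := by
  unfold J
  congr 1
  rw [Finset.sum_div, ← Finset.sum_sub_distrib]
  refine Finset.sum_congr rfl fun χ hχ => ?_
  have hχ1 : χ ≠ 1 := Finset.ne_of_mem_erase hχ
  have h1 := (pl hPL (hA χ hχ1) (σ := 1 / 2 + δ) (by linarith)).2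
  have e1 : 2 * (1 / 2 + δ) = 1 + 2 * δ := by ring
  rw [e1] at h1
  rw [e1]
  exact h1

/-- **the lower bound** -/
theorem t_LB (hPL : S_PL) (hPO : S_PO) (hZD : S_ZD) (hGR : S_GR) (hCO : S_CO) (hEQ : S_EQ) (hOS : S_OS) :
    S_LB := by
  obtain ⟨C1, hC1, hlb⟩ := lb_WW hPL hPO hZD hGR
  intro c ε0 hc hc1 hε0
  -- the target constant
  obtain ⟨B, hB⟩ : ∃ B : ℝ, B = 1 / (2 * c) - 1 / 2 := ⟨_, rfl⟩
  have hB0 : 0 ≤ B := by
    rw [hB]
    have : 1 / 2 ≤ 1 / (2 * c) := by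
      apply one_div_le_one_div_of_le (by positivity)
      linarith
    linarith
  set ε := min ε0 1 with hεdef
  have hε : 0 < ε := by positivity
  -- parameters
  set η := ε / (8 * (B + 1)) with hη
  have hη0 : 0 < η := by positivity
  have hη1 : η * (B + 1) = ε / 8 := by
    rw [hη]
    field_simp
  have hη2 : η ≤ ε / 8 := by nlinarith
  set h := min 1 (ε * c / 8) with hh
  have hh0 : 0 < h := by positivity
  have hh1 : h ≤ 1 := min_le_left _ _
  have hh2 : h ≤ ε * c / 8 := min_le_right _ _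
  set M := MC h η c C1 with hM
  have hM0 : 0 < M := by
    rw [hM]
    unfold MC
    positivity
  set ε1 := min (1 / 4) (ε / (8 * M + 8)) with hε1
  have hε10 : 0 < ε1 := by positivity
  have hε14 : ε1 ≤ 1 / 4 := min_le_left _ _
  have hε1M : ε1 * (8 * M + 8) ≤ ε := by
    have : ε1 ≤ ε / (8 * M + 8) := min_le_right _ _
    rwa [le_div_iff₀ (by positivity)] at this
  obtain ⟨q0, hq0⟩ := small hCO hEQ hOS hc hε10
  refine ⟨q0, ?_⟩
  intro q _ hq hA
  have hs := hq0 q hq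
  have hL0 : 0 < Real.log q := by
    have := hs.L
    by_contra hcon
    push Not at hcon
    nlinarith
  have hL1 : 1 ≤ Real.log q := by
    have := hs.L
    nlinarith
  have hF : (0 : ℝ) < Nat.totient q := by
    exact_mod_cast Nat.totient_pos.2 (Nat.pos_of_ne_zero (NeZero.ne q))
  have h1 := hlb q hA c ε1 h η hc hc1 hε10 hε14 hs hh0 hh1 hη0
  have hδ : 0 < c / Real.log q := by positivity
  rw [J_eq hPL hA hδ]
  set F : ℝ := (Nat.totient q : ℝ) with hFd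
  set L := Real.log q with hLd
  set SW := ∑ χ ∈ NP q, WW χ (1 / 2 + c / L) with hSW
  have hSW0 : 0 ≤ SW := Finset.sum_nonneg fun χ _ => WW_nonneg χ _
  have h2 : |∑ χ ∈ NP q, (ld (ff χ) ((1 + 2 * (c / L) : ℝ) : ℂ) ^ 2).re| ≤ ε1 * F :=
    (sum_sq hGR hA (by linarith)).trans hs.s2
  set S3 := ∑ χ ∈ NP q, (ld (ff χ) ((1 + 2 * (c / L) : ℝ) : ℂ) ^ 2).re with hS3
  have h3 : S3 / (1 + 2 * (c / L)) ≤ ε1 * F := by
    rw [div_le_iff₀ (by positivity)]
    have := (abs_le.1 h2).2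
    nlinarith [mul_pos hε10 hF]
  -- the constant
  have h4 : 1 / (2 * c) - h / c ≤ 1 / ((2 + h) * (1 + h) * c) := by
    have e : 1 / (2 * c) - h / c = (1 / 2 - h) / c := by field_simp
    have e' : 1 / ((2 + h) * (1 + h) * c) = (1 / ((2 + h) * (1 + h))) / c := by field_simp
    rw [e, e']
    apply div_le_div_of_nonneg_right _ hc.le
    rw [le_div_iff₀ (by positivity)]
    nlinarith [mul_pos hh0 hh0, mul_pos (mul_pos hh0 hh0) hh0]
  have h5 : h / c ≤ ε / 8 := by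
    rw [div_le_iff₀ hc]
    linarith
  have h6 : B - 3 * (ε / 8) ≤ 1 / ((2 + h) * (1 + h) * c) - (1 + η) / 2 - ε1 * M := by
    rw [hB]
    nlinarith
  have h7 : F * L ^ 2 * (B - 3 * (ε / 8)) ≤ (1 + η) ^ 2 * SW :=
    (mul_le_mul_of_nonneg_left h6 (by positivity)).trans h1
  have h8 : F * L ^ 2 * (B - 6 * (ε / 8)) ≤ SW := by
    by_cases hneg : B - 3 * (ε / 8) ≤ 0
    · have : F * L ^ 2 * (B - 6 * (ε / 8)) ≤ 0 := by
        apply mul_nonpos_of_nonneg_of_nonpos (by positivity)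
        linarith
      linarith
    · push Not at hneg
      have h9 : (1 - 2 * η) * (1 + η) ^ 2 ≤ 1 := by nlinarith [mul_pos hη0 hη0, mul_pos (mul_pos hη0 hη0) hη0]
      have h10 : 0 ≤ 1 - 2 * η := by
        have : ε ≤ 1 := min_le_right _ _
        linarith
      have h11 := mul_le_mul_of_nonneg_left h7 h10
      have h12 : (1 - 2 * η) * ((1 + η) ^ 2 * SW) ≤ SW := by
        calc (1 - 2 * η) * ((1 + η) ^ 2 * SW) = ((1 - 2 * η) * (1 + η) ^ 2) * SW := by ring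
          _ ≤ 1 * SW := mul_le_mul_of_nonneg_right h9 hSW0
          _ = SW := one_mul _
      refine le_trans ?_ (h11.trans h12)
      have h13 : B - 6 * (ε / 8) ≤ (1 - 2 * η) * (B - 3 * (ε / 8)) := by nlinarith
      calc F * L ^ 2 * (B - 6 * (ε / 8)) ≤ F * L ^ 2 * ((1 - 2 * η) * (B - 3 * (ε / 8))) :=
            mul_le_mul_of_nonneg_left h13 (by positivity)
        _ = _ := by ring
  have h14 : ε ≤ ε0 := min_le_left _ _
  have h15 : ε1 ≤ ε / 8 := by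
    nlinarith [mul_pos hε10 hM0]
  have h16 : F * ((B - ε0) * L ^ 2) ≤ SW - S3 / (1 + 2 * (c / L)) := by
    have h17 : ε1 * F ≤ F * L ^ 2 * (ε / 8) := by
      have h18 : 1 ≤ L ^ 2 := by nlinarith
      calc ε1 * F ≤ (ε / 8) * F := mul_le_mul_of_nonneg_right h15 hF.le
        _ = F * 1 * (ε / 8) := by ring
        _ ≤ F * L ^ 2 * (ε / 8) := by
            apply mul_le_mul_of_nonneg_right _ (by positivity)
            exact mul_le_mul_of_nonneg_left h18 hF.le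
    have h19 : F * ((B - ε0) * L ^ 2) ≤ F * L ^ 2 * (B - 7 * (ε / 8)) := by
      have : F * ((B - ε0) * L ^ 2) = F * L ^ 2 * (B - ε0) := by ring
      rw [this]
      apply mul_le_mul_of_nonneg_left _ (by positivity)
      linarith
    linarith
  have h20 : (1 / F) * (F * ((B - ε0) * L ^ 2)) ≤ (1 / F) * (SW - S3 / (1 + 2 * (c / L))) :=
    mul_le_mul_of_nonneg_left h16 (by positivity)
  refine le_trans (le_of_eq ?_) h20
  rw [hB]
  field_simp

end Pool.Agent.Q253.HV
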