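import Pool.Agent.Q253.HV.Stm

set_option autoImplicit false

/-! # The lower bound for one character -/

namespace Pool.Agent.Q253.HV

open MeasureTheory Filter Topology Set Complex

lemma eq_nonneg (q : ℕ) : 0 ≤ eq q := by
  unfold eq
  refine Finset.sum_nonneg fun p hp => ?_
  have h2 : (2 : ℝ) ≤ p := by exact_mod_cast (Nat.prime_of_mem_primeFactors hp).two_le
  have h3 : 1 ≤ Real.sqrt p := Real.one_le_sqrt.2 (by linarith)
  exact div_nonneg (Real.log_nonneg (by linarith)) (by linarith)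

/-- the weight -/
noncomputable def wt (σ y : ℝ) : ℝ := 1 / (σ ^ 2 + y ^ 2)

lemma wt_nonneg (σ y : ℝ) : 0 ≤ wt σ y := by unfold wt; positivity

lemma wt_le {σ : ℝ} (hσ : 1 / 2 ≤ σ) (y : ℝ) : wt σ y ≤ wt (1 / 2) y := by
  unfold wt
  apply one_div_le_one_div_of_le
  · positivity
  · nlinarith

lemma wt_cont {σ : ℝ} (hσ : 0 < σ) : Continuous (wt σ) := by
  unfold wt
  refine continuous_const.div (by fun_prop) fun y => ?_
  positivity

lemma wt_integral {σ : ℝ} (hσ : 0 < σ) : Integrable (wt σ) ∧ ∫ y, wt σ y = Real.pi / σ := by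
  have h1 : ∀ y, wt σ y = (1 / σ ^ 2) * (1 + (y * (1 / σ)) ^ 2)⁻¹ := by
    intro y
    unfold wt
    field_simp
  constructor
  · have h2 : Integrable (fun y : ℝ => (1 + y ^ 2)⁻¹) := integrable_inv_one_add_sq
    have h3 := (h2.comp_mul_right' (R := (1 / σ)) (by positivity)).const_mul (1 / σ ^ 2)
    refine h3.congr (Eventually.of_forall fun y => ?_)
    simp only [h1 y]
  · simp_rw [h1]
    rw [integral_const_mul]
    have h2 := Measure.integral_comp_mul_right (fun y : ℝ => (1 + y ^ 2)⁻¹) (1 / σ)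
    rw [h2, integral_univ_inv_one_add_sq]
    simp only [smul_eq_mul]
    rw [abs_of_pos (by positivity)]
    field_simp

/-- the constant -/
noncomputable def EE (C y : ℝ) : ℝ := 1 + C * Real.log (2 + |y|)

lemma EE_cont (C : ℝ) : Continuous (EE C) := by
  unfold EE
  refine continuous_const.add (continuous_const.mul (Continuous.log (by fun_prop) fun y => ?_))
  positivity

lemma log_le (y : ℝ) : Real.log (2 + |y|) ≤ (3 * (1 + y ^ 2)) ^ (1 / 8 : ℝ) * 8 := by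
  have h0 : 0 ≤ |y| := abs_nonneg y
  have h1 : (2 + |y|) ≤ 3 * (1 + y ^ 2) := by
    have : |y| ≤ (1 + y ^ 2) / 2 := by
      have := sq_nonneg (|y| - 1)
      rw [← sq_abs y]
      nlinarith
    nlinarith [sq_nonneg y]
  have h2 := Real.log_le_rpow_div (x := 3 * (1 + y ^ 2)) (ε := 1 / 8) (by positivity) (by norm_num)
  calc Real.log (2 + |y|) ≤ Real.log (3 * (1 + y ^ 2)) := Real.log_le_log (by positivity) h1
    _ ≤ (3 * (1 + y ^ 2)) ^ (1 / 8 : ℝ) / (1 / 8) := h2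
    _ = _ := by ring

lemma EE_sq_le {C : ℝ} (hC : 0 < C) (y : ℝ) :
    EE C y ^ 2 ≤ (1 + 24 * C) ^ 2 * (1 + y ^ 2) ^ (1 / 4 : ℝ) := by
  have h1 := log_le y
  have h2 : (3 * (1 + y ^ 2)) ^ (1 / 8 : ℝ) ≤ 3 * (1 + y ^ 2) ^ (1 / 8 : ℝ) := by
    rw [Real.mul_rpow (by norm_num) (by positivity)]
    refine mul_le_mul_of_nonneg_right ?_ (by positivity)
    calc (3 : ℝ) ^ (1 / 8 : ℝ) ≤ 3 ^ (1 : ℝ) :=
          Real.rpow_le_rpow_of_exponent_le (by norm_num) (by norm_num)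
      _ = 3 := Real.rpow_one 3
  have h3 : (1 : ℝ) ≤ (1 + y ^ 2) ^ (1 / 8 : ℝ) :=
    Real.one_le_rpow (by nlinarith [sq_nonneg y]) (by norm_num)
  have h4 : 0 ≤ Real.log (2 + |y|) := Real.log_nonneg (by linarith [abs_nonneg y])
  have h5 : EE C y ≤ (1 + 24 * C) * (1 + y ^ 2) ^ (1 / 8 : ℝ) := by
    unfold EE
    nlinarith
  have h6 : 0 ≤ EE C y := by unfold EE; positivity
  have h7 : (1 + y ^ 2 : ℝ) ^ (1 / 4 : ℝ) = ((1 + y ^ 2) ^ (1 / 8 : ℝ)) ^ 2 := by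
    have h8 := Real.rpow_mul (show (0 : ℝ) ≤ 1 + y ^ 2 by positivity) (1 / 8) 2
    rw [show (1 / 8 : ℝ) * 2 = 1 / 4 by norm_num] at h8
    rw [h8]
    exact Real.rpow_two _
  rw [h7, ← mul_pow]
  exact pow_le_pow_left₀ h6 h5 2

lemma EE_int {C : ℝ} (hC : 0 < C) : Integrable (fun y => EE C y ^ 2 * wt (1 / 2) y) := by
  have h0 : Integrable (fun y : ℝ => (1 + ‖y‖ ^ 2) ^ (-(3 / 2 : ℝ) / 2)) :=
    integrable_rpow_neg_one_add_norm_sq (by simp; norm_num)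
  refine (h0.const_mul ((1 + 24 * C) ^ 2 * 4)).mono' ?_ (Eventually.of_forall fun y => ?_)
  · exact (((EE_cont C).pow 2).mul (wt_cont (by norm_num))).aestronglyMeasurable
  · have h1 := EE_sq_le hC y
    have h2 : wt (1 / 2) y ≤ 4 * (1 + y ^ 2) ^ (-1 : ℝ) := by
      unfold wt
      rw [Real.rpow_neg_one, ← div_eq_mul_inv]
      rw [div_le_div_iff₀ (by positivity) (by positivity)]
      nlinarith [sq_nonneg y]
    have h3 : (1 + y ^ 2 : ℝ) ^ (1 / 4 : ℝ) * (1 + y ^ 2) ^ (-1 : ℝ) = (1 + ‖y‖ ^ 2) ^ (-(3 / 2 : ℝ) / 2) := by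
      rw [← Real.rpow_add (by positivity), Real.norm_eq_abs, sq_abs]
      norm_num
    rw [Real.norm_of_nonneg (mul_nonneg (sq_nonneg _) (wt_nonneg _ _))]
    calc EE C y ^ 2 * wt (1 / 2) y ≤ ((1 + 24 * C) ^ 2 * (1 + y ^ 2) ^ (1 / 4 : ℝ)) *
          (4 * (1 + y ^ 2) ^ (-1 : ℝ)) :=
          mul_le_mul h1 h2 (wt_nonneg _ _) (by positivity)
      _ = (1 + 24 * C) ^ 2 * 4 * ((1 + y ^ 2 : ℝ) ^ (1 / 4 : ℝ) * (1 + y ^ 2) ^ (-1 : ℝ)) := by ring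
      _ = _ := by rw [h3]

lemma one_le_EE {C : ℝ} (hC : 0 < C) (y : ℝ) : 1 ≤ EE C y := by
  have h4 : 0 ≤ Real.log (2 + |y|) := Real.log_nonneg (by linarith [abs_nonneg y])
  unfold EE
  nlinarith

/-- `(1/π) ∫ (1 + C log (2+|y|))² / (1/4 + y²) dy` -/
noncomputable def CE (C : ℝ) : ℝ := (1 / Real.pi) * ∫ y, EE C y ^ 2 * wt (1 / 2) y

lemma CE_nonneg (C : ℝ) : 0 ≤ CE C := by
  unfold CE
  exact mul_nonneg (by positivity) (integral_nonneg fun y => mul_nonneg (sq_nonneg _) (wt_nonneg _ _))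

lemma EE_int' {C : ℝ} (hC : 0 < C) {σ : ℝ} (hσ : 1 / 2 ≤ σ) :
    Integrable (fun y => EE C y ^ 2 * wt σ y) ∧ (1 / Real.pi) * ∫ y, EE C y ^ 2 * wt σ y ≤ CE C := by
  have h1 : Integrable (fun y => EE C y ^ 2 * wt σ y) := by
    refine (EE_int hC).mono' ?_ (Eventually.of_forall fun y => ?_)
    · exact (((EE_cont C).pow 2).mul (wt_cont (by linarith))).aestronglyMeasurable
    · rw [Real.norm_of_nonneg (mul_nonneg (sq_nonneg _) (wt_nonneg _ _))]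
      exact mul_le_mul_of_nonneg_left (wt_le hσ y) (sq_nonneg _)
  refine ⟨h1, ?_⟩
  unfold CE
  refine mul_le_mul_of_nonneg_left ?_ (by positivity)
  exact integral_mono h1 (EE_int hC) fun y => mul_le_mul_of_nonneg_left (wt_le hσ y) (sq_nonneg _)

lemma EE_int1 {C : ℝ} (hC : 0 < C) {σ : ℝ} (hσ : 1 / 2 ≤ σ) :
    Integrable (fun y => EE C y * wt σ y) ∧ (1 / Real.pi) * ∫ y, EE C y * wt σ y ≤ CE C := by
  obtain ⟨h0, h0'⟩ := EE_int' hC hσ
  have hle : ∀ y, EE C y * wt σ y ≤ EE C y ^ 2 * wt σ y := fun y => by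
    refine mul_le_mul_of_nonneg_right ?_ (wt_nonneg _ _)
    nlinarith [one_le_EE hC y]
  have h1 : Integrable (fun y => EE C y * wt σ y) := by
    refine h0.mono' ?_ (Eventually.of_forall fun y => ?_)
    · exact ((EE_cont C).mul (wt_cont (by linarith))).aestronglyMeasurable
    · rw [Real.norm_of_nonneg (mul_nonneg (by linarith [one_le_EE hC y]) (wt_nonneg _ _))]
      exact hle y
  refine ⟨h1, le_trans ?_ h0'⟩
  refine mul_le_mul_of_nonneg_left ?_ (by positivity)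
  exact integral_mono h1 h0 hle

/-- `ψ(e^t, χ)` -/
noncomputable def ff {q : ℕ} (χ : DirichletCharacter ℂ q) (t : ℝ) : ℂ := psiC χ (Real.exp t)

/-- `(1/π) ∫ (Re ℓ(σ+iy))²/(σ²+y²) dy` -/
noncomputable def WW {q : ℕ} (χ : DirichletCharacter ℂ q) (σ : ℝ) : ℝ :=
  (1 / Real.pi) * ∫ y : ℝ, (ld (ff χ) (pt σ y)).re ^ 2 * wt σ y

/-- `Re ℓ(x)` at a real point -/
noncomputable def lr {q : ℕ} (χ : DirichletCharacter ℂ q) (x : ℝ) : ℝ := (ld (ff χ) ((x : ℝ) : ℂ)).re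

lemma po {q : ℕ} {χ : DirichletCharacter ℂ q} (hPO : S_PO) (hA : Adm (ff χ)) {σ τ : ℝ} (hσ : 0 < σ)
    (hτ : 1 / 2 < τ) : Integrable (fun y : ℝ => (ld (ff χ) (pt τ y)).re * wt σ y) ∧
    (1 / Real.pi) * (∫ y : ℝ, (ld (ff χ) (pt τ y)).re * wt σ y) = lr χ (σ + τ) / σ := by
  obtain ⟨h1, h2⟩ := hPO (ff χ) hA σ τ hσ hτ
  have e : ∀ y : ℝ, (ld (ff χ) (pt τ y)).re * wt σ y = (ld (ff χ) (pt τ y)).re / (σ ^ 2 + y ^ 2) := by
    intro y
    unfold wt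
    ring
  simp_rw [e]
  exact ⟨h1, h2⟩

lemma pl {q : ℕ} {χ : DirichletCharacter ℂ q} (hPL : S_PL) (hA : Adm (ff χ)) {σ : ℝ} (hσ : 1 / 2 < σ) :
    Integrable (fun y : ℝ => (ld (ff χ) (pt σ y)).re ^ 2 * wt σ y) ∧
    ∫ t in Ioi (0 : ℝ), ‖ff χ t‖ ^ 2 * Real.exp (-(2 * σ * t)) =
      WW χ σ - (ld (ff χ) ((2 * σ : ℝ) : ℂ) ^ 2).re / (2 * σ) := by
  obtain ⟨h1, h2⟩ := hPL (ff χ) hA σ hσ
  have e : ∀ y : ℝ, (ld (ff χ) (pt σ y)).re ^ 2 * wt σ y = (ld (ff χ) (pt σ y)).re ^ 2 / (σ ^ 2 + y ^ 2) := by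
    intro y
    unfold wt
    ring
  unfold WW
  simp_rw [e]
  exact ⟨h1, h2⟩

end Pool.Agent.Q253.HV
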