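import Pool.Agent.Q253.HV.LBi

set_option autoImplicit false

/-! # The pointwise inequality -/

namespace Pool.Agent.Q253.HV

open MeasureTheory Filter Topology Set Complex

lemma pw {Z Z2 r r2 lN D L E δ h η : ℝ} (h1 : |r - (Z - lN / 2)| ≤ E) (h2 : |r2 - (Z2 - lN / 2)| ≤ E)
    (hsq : (Z / δ - Z2 / ((1 + h) * δ)) / (2 * h + h ^ 2) ≤ Z ^ 2) (hD : lN = L - D)
    (hδ : 0 < δ) (hh : 0 < h) (hη : 0 < η) :
    ((r + lN / 2) / δ - (r2 + lN / 2) / ((1 + h) * δ) - 2 * E / δ) / (2 * h + h ^ 2) ≤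
      (1 + η) * ((1 + η) * r ^ 2 + L * r + lN ^ 2 / 4 + D ^ 2 / (4 * η)) + (1 + 1 / η) * E ^ 2 := by
  have hE : 0 ≤ E := (abs_nonneg _).trans h1
  obtain ⟨h1a, h1b⟩ := abs_le.1 h1
  obtain ⟨h2a, h2b⟩ := abs_le.1 h2
  have e1 : (r + lN / 2 - E) / δ ≤ Z / δ := div_le_div_of_nonneg_right (by linarith) hδ.le
  have e2 : Z2 / ((1 + h) * δ) ≤ (r2 + lN / 2 + E) / ((1 + h) * δ) :=
    div_le_div_of_nonneg_right (by linarith) (by positivity)
  have e3 : E / ((1 + h) * δ) ≤ E / δ := by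
    apply div_le_div_of_nonneg_left hE hδ
    nlinarith
  have e4 : (r + lN / 2) / δ - (r2 + lN / 2) / ((1 + h) * δ) - 2 * E / δ ≤ Z / δ - Z2 / ((1 + h) * δ) := by
    have e5 : (r + lN / 2 - E) / δ = (r + lN / 2) / δ - E / δ := by ring
    have e6 : (r2 + lN / 2 + E) / ((1 + h) * δ) = (r2 + lN / 2) / ((1 + h) * δ) + E / ((1 + h) * δ) := by
      rw [add_div]
    have e7 : 2 * E / δ = E / δ + E / δ := by ring
    rw [e7]
    linarith
  have e8 : ((r + lN / 2) / δ - (r2 + lN / 2) / ((1 + h) * δ) - 2 * E / δ) / (2 * h + h ^ 2) ≤ Z ^ 2 :=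
    (div_le_div_of_nonneg_right e4 (by positivity)).trans hsq
  refine e8.trans ?_
  set a := r + lN / 2 with ha
  set b := Z - a with hb
  have hb2 : b ^ 2 ≤ E ^ 2 := by
    apply sq_le_sq'
    · rw [hb, ha]; linarith
    · rw [hb, ha]; linarith
  have e9 : Z ^ 2 ≤ (1 + η) * a ^ 2 + (1 + 1 / η) * b ^ 2 := by
    have : Z = a + b := by rw [hb]; ring
    rw [this]
    have h3 : 0 ≤ (η * a - b) ^ 2 / η := by positivity
    have h4 : (η * a - b) ^ 2 / η = η * a ^ 2 - 2 * a * b + (1 / η) * b ^ 2 := by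
      field_simp
      ring
    nlinarith
  have e10 : a ^ 2 ≤ (1 + η) * r ^ 2 + L * r + lN ^ 2 / 4 + D ^ 2 / (4 * η) := by
    have h3 : 0 ≤ (2 * η * r + D) ^ 2 / (4 * η) := by positivity
    have h4 : (2 * η * r + D) ^ 2 / (4 * η) = η * r ^ 2 + r * D + D ^ 2 / (4 * η) := by
      field_simp
      ring
    have h5 : a ^ 2 = r ^ 2 + r * lN + lN ^ 2 / 4 := by rw [ha]; ring
    rw [h5]
    have h6 : r * lN = L * r - r * D := by rw [hD]; ring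
    rw [h6]
    linarith
  calc Z ^ 2 ≤ (1 + η) * a ^ 2 + (1 + 1 / η) * b ^ 2 := e9
    _ ≤ _ := add_le_add (mul_le_mul_of_nonneg_left e10 (by positivity))
      (mul_le_mul_of_nonneg_left hb2 (by positivity))

/-- the function `Z` attached to `χ` -/
lemma zdat (hZD : S_ZD) (hGR : S_GR) : ∃ C : ℝ, 0 < C ∧ ∀ (q : ℕ) [NeZero q] (χ : DirichletCharacter ℂ q),
    χ ≠ 1 → Adm (ff χ) → ∃ Z : ℝ → ℝ → ℝ, Zfun Z ∧ ∀ δ y : ℝ, 0 < δ → δ ≤ 1 →
      |(ld (ff χ) (pt (1 / 2 + δ) y)).re - (Z δ y - Real.log (χ.conductor : ℝ) / 2)| ≤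
        (1 + eq q) * EE C y := by
  obtain ⟨C, hC, h⟩ := hZD
  refine ⟨C, hC, ?_⟩
  intro q _ χ hχ hA
  obtain ⟨Z, hZ, hb⟩ := h q χ hχ (fun s hs => (hGR q χ hχ hA s hs).1)
  refine ⟨Z, hZ, ?_⟩
  intro δ y hδ hδ1
  have h1 := hb δ y hδ hδ1
  have hre : 1 / 2 < (pt (1 / 2 + δ) y).re := by
    unfold pt
    simp
    linarith
  rw [(hGR q χ hχ hA _ hre).2] at h1
  have h2 : (1 : ℝ) / 2 * Real.log (χ.conductor : ℝ) = Real.log (χ.conductor : ℝ) / 2 := by ring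
  rw [h2] at h1
  refine le_trans h1 ?_
  have h3 : 0 ≤ Real.log (2 + |y|) := Real.log_nonneg (by linarith [abs_nonneg y])
  have h4 := eq_nonneg q
  unfold EE
  have h5 : 0 ≤ eq q * (C * Real.log (2 + |y|)) := by positivity
  nlinarith

lemma lin4 {f1 f2 f3 f4 : ℝ → ℝ} (i1 : Integrable f1) (i2 : Integrable f2) (i3 : Integrable f3)
    (i4 : Integrable f4) (k a b c d : ℝ) :
    Integrable (fun y => k * (a * f1 y - b * f2 y + c * f3 y - d * f4 y)) ∧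
    ∫ y, k * (a * f1 y - b * f2 y + c * f3 y - d * f4 y) =
      k * (a * (∫ y, f1 y) - b * (∫ y, f2 y) + c * (∫ y, f3 y) - d * (∫ y, f4 y)) := by
  have j1 : Integrable (fun y => a * f1 y) := i1.const_mul a
  have j2 : Integrable (fun y => b * f2 y) := i2.const_mul b
  have j3 : Integrable (fun y => c * f3 y) := i3.const_mul c
  have j4 : Integrable (fun y => d * f4 y) := i4.const_mul d
  have j12 : Integrable (fun y => a * f1 y - b * f2 y) := j1.sub j2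
  have j123 : Integrable (fun y => a * f1 y - b * f2 y + c * f3 y) := j12.add j3
  have j : Integrable (fun y => a * f1 y - b * f2 y + c * f3 y - d * f4 y) := j123.sub j4
  refine ⟨j.const_mul k, ?_⟩
  rw [integral_const_mul, integral_sub j123 j4, integral_add j12 j3, integral_sub j1 j2, integral_const_mul,
    integral_const_mul, integral_const_mul, integral_const_mul]

lemma lin4' {f1 f2 f3 f4 : ℝ → ℝ} (i1 : Integrable f1) (i2 : Integrable f2) (i3 : Integrable f3)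
    (i4 : Integrable f4) (k a b c d : ℝ) :
    Integrable (fun y => k * (a * f1 y + b * f2 y + c * f3 y) + d * f4 y) ∧
    ∫ y, (k * (a * f1 y + b * f2 y + c * f3 y) + d * f4 y) =
      k * (a * (∫ y, f1 y) + b * (∫ y, f2 y) + c * (∫ y, f3 y)) + d * (∫ y, f4 y) := by
  have j1 : Integrable (fun y => a * f1 y) := i1.const_mul a
  have j2 : Integrable (fun y => b * f2 y) := i2.const_mul b
  have j3 : Integrable (fun y => c * f3 y) := i3.const_mul c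
  have j4 : Integrable (fun y => d * f4 y) := i4.const_mul d
  have j12 : Integrable (fun y => a * f1 y + b * f2 y) := j1.add j2
  have j123 : Integrable (fun y => a * f1 y + b * f2 y + c * f3 y) := j12.add j3
  have j : Integrable (fun y => k * (a * f1 y + b * f2 y + c * f3 y)) := j123.const_mul k
  refine ⟨j.add j4, ?_⟩
  rw [integral_add j j4, integral_const_mul, integral_add j12 j3, integral_add j1 j2, integral_const_mul,
    integral_const_mul, integral_const_mul, integral_const_mul]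

/-- abstract form of the integration -/
lemma abs_int {r r2 E w : ℝ → ℝ} {k δ h η lN L D e x1 x2 W σ C1 : ℝ} (hδ : 0 < δ) (hh : 0 < h) (hη : 0 < η)
    (he : 0 ≤ e) (hσ : 0 < σ)
    (iw : Integrable w) (cw : ∫ y, w y = Real.pi / σ)
    (ir : Integrable (fun y => r y * w y)) (cr : (1 / Real.pi) * ∫ y, r y * w y = x1 / σ)
    (ir2 : Integrable (fun y => r2 y * w y)) (cr2 : (1 / Real.pi) * ∫ y, r2 y * w y = x2 / σ)
    (iW : Integrable (fun y => r y ^ 2 * w y)) (cW : (1 / Real.pi) * ∫ y, r y ^ 2 * w y = W)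
    (iE1 : Integrable (fun y => E y * w y)) (cE1 : (1 / Real.pi) * ∫ y, E y * w y ≤ C1)
    (iE2 : Integrable (fun y => E y ^ 2 * w y)) (cE2 : (1 / Real.pi) * ∫ y, E y ^ 2 * w y ≤ C1)
    (key : ∀ y, k * ((1 / δ) * (r y * w y) - (1 / ((1 + h) * δ)) * (r2 y * w y) +
      (lN / 2 * (1 / δ - 1 / ((1 + h) * δ))) * w y - 2 * (1 + e) / δ * (E y * w y)) ≤
      (1 + η) * ((1 + η) * (r y ^ 2 * w y) + L * (r y * w y) + (lN ^ 2 / 4 + D ^ 2 / (4 * η)) * w y) +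
      (1 + 1 / η) * (1 + e) ^ 2 * (E y ^ 2 * w y)) (hk : 0 ≤ k) :
    k * (((x1 + lN / 2) / δ - (x2 + lN / 2) / ((1 + h) * δ)) / σ - 2 * (C1 * (1 + e)) / δ) ≤
      (1 + η) * ((1 + η) * W + (L * x1 + lN ^ 2 / 4 + D ^ 2 / (4 * η)) / σ) +
        (1 + 1 / η) * (C1 * (1 + e) ^ 2) := by
  obtain ⟨jL, eL⟩ := lin4 ir ir2 iw iE1 k (1 / δ) (1 / ((1 + h) * δ)) (lN / 2 * (1 / δ - 1 / ((1 + h) * δ)))
    (2 * (1 + e) / δ)
  obtain ⟨jR, eR⟩ := lin4' iW ir iw iE2 (1 + η) (1 + η) L (lN ^ 2 / 4 + D ^ 2 / (4 * η))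
    ((1 + 1 / η) * (1 + e) ^ 2)
  have hm := integral_mono jL jR key
  rw [eL, eR] at hm
  have hpi := Real.pi_pos
  have hm2 := mul_le_mul_of_nonneg_left hm (show 0 ≤ 1 / Real.pi by positivity)
  set Ir := ∫ y, r y * w y
  set Ir2 := ∫ y, r2 y * w y
  set IW := ∫ y, r y ^ 2 * w y
  set IE1 := ∫ y, E y * w y
  set IE2 := ∫ y, E y ^ 2 * w y
  rw [cw] at hm2
  have e1 : 1 / Real.pi * (k * (1 / δ * Ir - 1 / ((1 + h) * δ) * Ir2 +
      lN / 2 * (1 / δ - 1 / ((1 + h) * δ)) * (Real.pi / σ) - 2 * (1 + e) / δ * IE1)) =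
      k * ((1 / δ) * (1 / Real.pi * Ir) - 1 / ((1 + h) * δ) * (1 / Real.pi * Ir2) +
      lN / 2 * (1 / δ - 1 / ((1 + h) * δ)) / σ - 2 * (1 + e) / δ * (1 / Real.pi * IE1)) := by
    field_simp
  have e2 : 1 / Real.pi * ((1 + η) * ((1 + η) * IW + L * Ir + (lN ^ 2 / 4 + D ^ 2 / (4 * η)) * (Real.pi / σ)) +
      (1 + 1 / η) * (1 + e) ^ 2 * IE2) =
      (1 + η) * ((1 + η) * (1 / Real.pi * IW) + L * (1 / Real.pi * Ir) + (lN ^ 2 / 4 + D ^ 2 / (4 * η)) / σ) +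
      (1 + 1 / η) * (1 + e) ^ 2 * (1 / Real.pi * IE2) := by
    field_simp
  rw [e1, e2, cr, cr2, cW] at hm2
  have e3 : k * (((x1 + lN / 2) / δ - (x2 + lN / 2) / ((1 + h) * δ)) / σ - 2 * (C1 * (1 + e)) / δ) ≤
      k * ((1 / δ) * (x1 / σ) - 1 / ((1 + h) * δ) * (x2 / σ) +
      lN / 2 * (1 / δ - 1 / ((1 + h) * δ)) / σ - 2 * (1 + e) / δ * (1 / Real.pi * IE1)) := by
    refine mul_le_mul_of_nonneg_left ?_ hk
    have h3 : 2 * (1 + e) / δ * (1 / Real.pi * IE1) ≤ 2 * (1 + e) / δ * C1 :=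
      mul_le_mul_of_nonneg_left cE1 (by positivity)
    have h4 : ((x1 + lN / 2) / δ - (x2 + lN / 2) / ((1 + h) * δ)) / σ - 2 * (C1 * (1 + e)) / δ =
      (1 / δ) * (x1 / σ) - 1 / ((1 + h) * δ) * (x2 / σ) +
      lN / 2 * (1 / δ - 1 / ((1 + h) * δ)) / σ - 2 * (1 + e) / δ * C1 := by
      field_simp
      ring
    rw [h4]
    linarith
  have e4 : (1 + η) * ((1 + η) * W + L * (x1 / σ) + (lN ^ 2 / 4 + D ^ 2 / (4 * η)) / σ) +
      (1 + 1 / η) * (1 + e) ^ 2 * (1 / Real.pi * IE2) ≤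
      (1 + η) * ((1 + η) * W + (L * x1 + lN ^ 2 / 4 + D ^ 2 / (4 * η)) / σ) +
        (1 + 1 / η) * (C1 * (1 + e) ^ 2) := by
    have h3 : (1 + 1 / η) * (1 + e) ^ 2 * (1 / Real.pi * IE2) ≤ (1 + 1 / η) * (1 + e) ^ 2 * C1 :=
      mul_le_mul_of_nonneg_left cE2 (by positivity)
    have h4 : (L * x1 + lN ^ 2 / 4 + D ^ 2 / (4 * η)) / σ = L * (x1 / σ) + (lN ^ 2 / 4 + D ^ 2 / (4 * η)) / σ := by
      ring
    rw [h4]
    nlinarith
  exact e3.trans (hm2.trans e4)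

/-- **the lower bound for one character** -/
theorem lb_ind (hPL : S_PL) (hPO : S_PO) (hZD : S_ZD) (hGR : S_GR) : ∃ C1 : ℝ, 0 ≤ C1 ∧
    ∀ (q : ℕ) [NeZero q] (χ : DirichletCharacter ℂ q), χ ≠ 1 → Adm (ff χ) → ∀ δ h η lN D : ℝ, 0 < δ →
    δ ≤ 1 / 4 → 0 < h → h ≤ 1 → 0 < η → lN = Real.log (χ.conductor : ℝ) → lN = Real.log q - D →
    1 / (2 * h + h ^ 2) * (((lr χ (1 + 2 * δ) + lN / 2) / δ - (lr χ (1 + (2 + h) * δ) + lN / 2) / ((1 + h) * δ)) /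
      (1 / 2 + δ) - 2 * (C1 * (1 + eq q)) / δ) ≤
    (1 + η) * ((1 + η) * WW χ (1 / 2 + δ) + (Real.log q * lr χ (1 + 2 * δ) + lN ^ 2 / 4 + D ^ 2 / (4 * η)) /
      (1 / 2 + δ)) + (1 + 1 / η) * (C1 * (1 + eq q) ^ 2) := by
  obtain ⟨C, hC, hz⟩ := zdat hZD hGR
  refine ⟨CE C, CE_nonneg C, ?_⟩
  intro q _ χ hχ hA δ h η lN D hδ hδ1 hh hh1 hη hlN hD
  obtain ⟨Z, hZ, hb⟩ := hz q χ hχ hA
  have he := eq_nonneg q
  have hτ1 : (1 + h) * δ ≤ 1 := by nlinarith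
  obtain ⟨iE2, cE2⟩ := EE_int' hC (σ := 1 / 2 + δ) (by linarith)
  obtain ⟨iE1, cE1⟩ := EE_int1 hC (σ := 1 / 2 + δ) (by linarith)
  obtain ⟨iW, cW⟩ := wt_integral (show 0 < 1 / 2 + δ by linarith)
  obtain ⟨ir, cr⟩ := po hPO hA (σ := 1 / 2 + δ) (τ := 1 / 2 + δ) (by linarith) (by linarith)
  obtain ⟨ir2, cr2⟩ := po hPO hA (σ := 1 / 2 + δ) (τ := 1 / 2 + (1 + h) * δ) (by linarith) (by nlinarith)
  obtain ⟨iw, -⟩ := pl hPL hA (σ := 1 / 2 + δ) (by linarith)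
  have e1 : 1 / 2 + δ + (1 / 2 + δ) = 1 + 2 * δ := by ring
  have e2 : 1 / 2 + δ + (1 / 2 + (1 + h) * δ) = 1 + (2 + h) * δ := by ring
  rw [e1] at cr
  rw [e2] at cr2
  refine abs_int (k := 1 / (2 * h + h ^ 2)) hδ hh hη he (show 0 < 1 / 2 + δ by linarith) iW cW ir cr ir2 cr2 iw rfl
    iE1 cE1 iE2 cE2 ?_ (by positivity)
  intro y
  have h1 := hb δ y hδ (by linarith)
  have h2 := hb ((1 + h) * δ) y (by positivity) hτ1
  rw [← hlN] at h1 h2
  have h3 := pw h1 h2 (hZ.sq δ h y hδ hh) hD hδ hh hη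
  have h4 := mul_le_mul_of_nonneg_left h3 (wt_nonneg (1 / 2 + δ) y)
  refine le_trans (le_of_eq ?_) (h4.trans (le_of_eq ?_))
  · generalize (ld (ff χ) (pt (1 / 2 + δ) y)).re = r
    generalize (ld (ff χ) (pt (1 / 2 + (1 + h) * δ) y)).re = r2
    generalize wt (1 / 2 + δ) y = w
    generalize EE C y = E
    field_simp
    ring
  · ring

end Pool.Agent.Q253.HV
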