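import Pool.Agent.Q253.HV.Stm

set_option autoImplicit false

/-! # Project HV: more jobs -/

namespace Pool.Agent.Q253.HV

open MeasureTheory Filter Topology Set Complex

/-- HV-CL.  The change of level: the difference is a sum over the prime powers `p^k ≤ x` with `p | q`, at most
`∑_{p | q} ⌊log x / log p⌋ log p ≤ ω(q) log x ≤ 2 log q log x`. -/
def S_CL : Prop := ∀ (r q : ℕ) [NeZero r] [NeZero q] (h : r ∣ q) (χ : DirichletCharacter ℂ r) (x : ℝ), 1 ≤ x →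
  ‖psiC (DirichletCharacter.changeLevel h χ) x - psiC χ x‖ ≤ 2 * Real.log q * Real.log x

/-- HV-MS.  From dyadic mean squares to square integrability with weights: for `σ > 1/2` take `η = σ - 1/2`; the integral
over `[T, 2T]` is at most `C e^(-ηT)`; sum over `T = 2^j T0` (`integrableOn_Ioi_of_intervalIntegral_norm_bounded`). -/
def S_MS : Prop := ∀ g : ℝ → ℝ, Measurable g → (∀ t, 0 ≤ g t) →
  (∀ b : ℝ, ∃ C : ℝ, ∀ t : ℝ, 0 ≤ t → t ≤ b → g t ≤ C) →
  (∀ η : ℝ, 0 < η → ∃ C T0 : ℝ, 0 < T0 ∧ ∀ T : ℝ, T0 ≤ T →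
    ∫ t in T..(2 * T), g t * Real.exp (-t) ≤ C * Real.exp (η * T)) →
  ∀ σ : ℝ, 1 / 2 < σ → IntegrableOn (fun t => g t * Real.exp (-(2 * σ * t))) (Ioi 0)

end Pool.Agent.Q253.HV
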