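import Pool.Agent.Q253.HV.LBf

set_option autoImplicit false

/-! # The upper bound -/

namespace Pool.Agent.Q253.HV

open MeasureTheory Filter Topology Set Complex

lemma wt_le4 {σ' σ : ℝ} (h0 : 0 < σ') (h2 : σ ≤ 2 * σ') (h1 : 0 < σ) (y : ℝ) : wt σ' y ≤ 4 * wt σ y := by
  unfold wt
  rw [mul_one_div, div_le_div_iff₀ (by positivity) (by positivity)]
  nlinarith [sq_nonneg y]

lemma sq_bd {r' r L e R : ℝ} (hR : 1 ≤ R) (h : |r'| ≤ R * (|r| + L + 2 * e)) (_hL : 0 ≤ L) (_he : 0 ≤ e) :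
    r' ^ 2 ≤ R ^ 2 * (3 * r ^ 2 + 3 * L ^ 2 + 12 * e ^ 2) := by
  have h1 : r' ^ 2 ≤ (R * (|r| + L + 2 * e)) ^ 2 := by
    rw [← sq_abs r']
    exact pow_le_pow_left₀ (abs_nonneg _) h 2
  refine h1.trans ?_
  rw [mul_pow]
  apply mul_le_mul_of_nonneg_left _ (by positivity)
  have h2 := sq_abs r
  nlinarith [sq_nonneg (|r| - L), sq_nonneg (|r| - 2 * e), sq_nonneg (L - 2 * e)]

lemma lin3 {f1 f2 f3 : ℝ → ℝ} (i1 : Integrable f1) (i2 : Integrable f2) (i3 : Integrable f3) (a b c : ℝ) :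
    Integrable (fun y => a * f1 y + b * f2 y + c * f3 y) ∧
    ∫ y, (a * f1 y + b * f2 y + c * f3 y) = a * (∫ y, f1 y) + b * (∫ y, f2 y) + c * (∫ y, f3 y) := by
  have j1 : Integrable (fun y => a * f1 y) := i1.const_mul a
  have j2 : Integrable (fun y => b * f2 y) := i2.const_mul b
  have j3 : Integrable (fun y => c * f3 y) := i3.const_mul c
  have j12 : Integrable (fun y => a * f1 y + b * f2 y) := j1.add j2
  refine ⟨j12.add j3, ?_⟩
  rw [integral_add j12 j3, integral_add j1 j2, integral_const_mul, integral_const_mul, integral_const_mul]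

/-- Harnack: the mean square nearer to the line -/
lemma W_le (hPL : S_PL) (hZD : S_ZD) (hGR : S_GR) : ∃ C1 : ℝ, 0 ≤ C1 ∧
    ∀ (q : ℕ) [NeZero q] (χ : DirichletCharacter ℂ q), χ ≠ 1 → Adm (ff χ) → ∀ δ' δ : ℝ, 0 < δ' → δ' ≤ δ →
    δ ≤ 1 / 4 → WW χ (1 / 2 + δ') ≤ (δ / δ') ^ 2 * (12 * WW χ (1 / 2 + δ) + 6 * Real.log q ^ 2 +
      12 * C1 * (1 + eq q) ^ 2) := by
  obtain ⟨C, hC, hz⟩ := zdat hZD hGR
  refine ⟨CE C, CE_nonneg C, ?_⟩
  intro q _ χ hχ hA δ' δ hδ' hδδ hδ1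
  obtain ⟨Z, hZ, hb⟩ := hz q χ hχ hA
  have hδ : 0 < δ := by linarith
  have he := eq_nonneg q
  have hR : 1 ≤ δ / δ' := by
    rw [le_div_iff₀ hδ']
    linarith
  have hL0 : 0 ≤ Real.log q := by
    have := DN_nonneg χ
    have h2 := DN_le χ
    linarith
  obtain ⟨i1, -⟩ := pl hPL hA (σ := 1 / 2 + δ') (by linarith)
  obtain ⟨i2, -⟩ := pl hPL hA (σ := 1 / 2 + δ) (by linarith)
  obtain ⟨iE, cE⟩ := EE_int' hC (σ := 1 / 2 + δ') (by linarith)
  obtain ⟨iW, cW⟩ := wt_integral (show 0 < 1 / 2 + δ' by linarith)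
  obtain ⟨j, hj⟩ := lin3 i2 iW iE ((δ / δ') ^ 2 * 12) ((δ / δ') ^ 2 * (3 * Real.log q ^ 2))
    ((δ / δ') ^ 2 * (12 * (1 + eq q) ^ 2))
  have key : ∀ y, (ld (ff χ) (pt (1 / 2 + δ') y)).re ^ 2 * wt (1 / 2 + δ') y ≤
      (δ / δ') ^ 2 * 12 * ((ld (ff χ) (pt (1 / 2 + δ) y)).re ^ 2 * wt (1 / 2 + δ) y) +
      (δ / δ') ^ 2 * (3 * Real.log q ^ 2) * wt (1 / 2 + δ') y +
      (δ / δ') ^ 2 * (12 * (1 + eq q) ^ 2) * (EE C y ^ 2 * wt (1 / 2 + δ') y) := by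
    intro y
    have h1 := hb δ' y hδ' (by linarith)
    have h2 := hb δ y hδ (by linarith)
    have h3 := hZ.harn δ' δ y hδ' hδδ
    have h4 := hZ.nonneg δ' y hδ'
    have h5 := hZ.nonneg δ y hδ
    have h6 : Real.log (χ.conductor : ℝ) ≤ Real.log q := by
      have := DN_nonneg χ
      unfold DN at this
      linarith
    have h7 : 0 ≤ Real.log (χ.conductor : ℝ) := by
      have h2 := cond_pos χ
      exact Real.log_nonneg (by exact_mod_cast h2)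
    have hEE := one_le_EE hC y
    set r' := (ld (ff χ) (pt (1 / 2 + δ') y)).re
    set r := (ld (ff χ) (pt (1 / 2 + δ) y)).re
    set e := (1 + eq q) * EE C y with hedef
    set lN := Real.log (χ.conductor : ℝ)
    have he0 : 0 ≤ e := by positivity
    set R := δ / δ'
    have h8 : |r'| ≤ R * (|r| + Real.log q + 2 * e) := by
      have h9 : |r'| ≤ Z δ' y + lN / 2 + e := by
        obtain ⟨ha, hb'⟩ := abs_le.1 h1
        rw [abs_le]
        constructor <;> linarith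
      have h10 : Z δ y ≤ |r| + lN / 2 + e := by
        obtain ⟨ha, hb'⟩ := abs_le.1 h2
        linarith [le_abs_self r]
      have h11 : R * Z δ y ≤ R * (|r| + lN / 2 + e) := mul_le_mul_of_nonneg_left h10 (by linarith)
      have h12 : lN / 2 + e ≤ R * (lN / 2 + e) := by nlinarith
      have h13 : R * (|r| + lN / 2 + e) + R * (lN / 2 + e) ≤ R * (|r| + Real.log q + 2 * e) := by
        rw [← mul_add]
        apply mul_le_mul_of_nonneg_left _ (by linarith)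
        linarith
      linarith
    have h14 := sq_bd hR h8 hL0 he0
    have hw := wt_nonneg (1 / 2 + δ') y
    have hw4 := wt_le4 (σ' := 1 / 2 + δ') (σ := 1 / 2 + δ) (by linarith) (by linarith) (by linarith) y
    have h15 := mul_le_mul_of_nonneg_right h14 hw
    refine h15.trans ?_
    have h16 : r ^ 2 * wt (1 / 2 + δ') y ≤ 4 * (r ^ 2 * wt (1 / 2 + δ) y) := by
      have := mul_le_mul_of_nonneg_left hw4 (sq_nonneg r)
      linarith
    have h17 := mul_le_mul_of_nonneg_left h16 (show 0 ≤ R ^ 2 * 3 by positivity)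
    rw [hedef]
    calc R ^ 2 * (3 * r ^ 2 + 3 * Real.log q ^ 2 + 12 * ((1 + eq q) * EE C y) ^ 2) * wt (1 / 2 + δ') y
        = R ^ 2 * 3 * (r ^ 2 * wt (1 / 2 + δ') y) + R ^ 2 * (3 * Real.log q ^ 2) * wt (1 / 2 + δ') y +
          R ^ 2 * (12 * (1 + eq q) ^ 2) * (EE C y ^ 2 * wt (1 / 2 + δ') y) := by ring
      _ ≤ R ^ 2 * 3 * (4 * (r ^ 2 * wt (1 / 2 + δ) y)) + R ^ 2 * (3 * Real.log q ^ 2) * wt (1 / 2 + δ') y +
          R ^ 2 * (12 * (1 + eq q) ^ 2) * (EE C y ^ 2 * wt (1 / 2 + δ') y) := by linarith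
      _ = _ := by ring
  have hm := integral_mono i1 j key
  rw [hj, cW] at hm
  have hpi := Real.pi_pos
  have hm2 := mul_le_mul_of_nonneg_left hm (show 0 ≤ 1 / Real.pi by positivity)
  have e1 : WW χ (1 / 2 + δ') = 1 / Real.pi * ∫ y, (ld (ff χ) (pt (1 / 2 + δ') y)).re ^ 2 * wt (1 / 2 + δ') y := rfl
  have e2 : WW χ (1 / 2 + δ) = 1 / Real.pi * ∫ y, (ld (ff χ) (pt (1 / 2 + δ) y)).re ^ 2 * wt (1 / 2 + δ) y := rfl
  rw [e1, e2]
  refine hm2.trans ?_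
  set I2 := ∫ y, (ld (ff χ) (pt (1 / 2 + δ) y)).re ^ 2 * wt (1 / 2 + δ) y
  set IE := ∫ y, EE C y ^ 2 * wt (1 / 2 + δ') y
  have hR2 : 0 ≤ (δ / δ') ^ 2 := by positivity
  set R2 := (δ / δ') ^ 2
  have h18 : 1 / Real.pi * (R2 * 12 * I2 + R2 * (3 * Real.log q ^ 2) * (Real.pi / (1 / 2 + δ')) +
      R2 * (12 * (1 + eq q) ^ 2) * IE) = R2 * (12 * (1 / Real.pi * I2) + 3 * Real.log q ^ 2 / (1 / 2 + δ') +
      12 * (1 + eq q) ^ 2 * (1 / Real.pi * IE)) := by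
    field_simp
  rw [h18]
  apply mul_le_mul_of_nonneg_left _ hR2
  have h19 : 3 * Real.log q ^ 2 / (1 / 2 + δ') ≤ 6 * Real.log q ^ 2 := by
    rw [div_le_iff₀ (by linarith)]
    nlinarith [sq_nonneg (Real.log q)]
  have h20 : 12 * (1 + eq q) ^ 2 * (1 / Real.pi * IE) ≤ 12 * (1 + eq q) ^ 2 * CE C :=
    mul_le_mul_of_nonneg_left cE (by positivity)
  linarith

end Pool.Agent.Q253.HV
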