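import Pool.Agent.Q253.HV.TB

set_option autoImplicit false

/-! # The upper bound, conclusion -/

namespace Pool.Agent.Q253.HV

open MeasureTheory Filter Topology Set Complex

lemma psiAP_nonneg (x : ℝ) (q a : ℕ) : 0 ≤ psiAP x q a :=
  Finset.sum_nonneg fun _ _ => ArithmeticFunction.vonMangoldt_nonneg

lemma psiAP_mono (q a : ℕ) : Monotone (fun x => psiAP x q a) := by
  intro x y hxy
  unfold psiAP
  apply Finset.sum_le_sum_of_subset_of_nonneg
  · apply Finset.filter_subset_filter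
    exact Finset.Icc_subset_Icc le_rfl (Nat.floor_mono hxy)
  · intro _ _ _
    exact ArithmeticFunction.vonMangoldt_nonneg

lemma G_nonneg (x : ℝ) (q : ℕ) : 0 ≤ G x q := Finset.sum_nonneg fun _ _ => sq_nonneg _

lemma G_meas (q : ℕ) : Measurable (fun x => G x q) := by
  unfold G
  refine Finset.measurable_sum _ fun a _ => ?_
  exact (((psiAP_mono q a).measurable).sub (measurable_id.div_const _)).pow_const 2

lemma G_bdd (q : ℕ) (X : ℝ) : ∃ C : ℝ, ∀ x : ℝ, 0 ≤ x → x ≤ X → G x q ≤ C := by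
  refine ⟨∑ a ∈ (Finset.range q).filter (fun a => Nat.Coprime a q), (psiAP X q a + X / (Nat.totient q : ℝ)) ^ 2, ?_⟩
  intro x hx0 hx
  unfold G
  refine Finset.sum_le_sum fun a _ => ?_
  have h1 : psiAP x q a ≤ psiAP X q a := psiAP_mono q a hx
  have h2 := psiAP_nonneg x q a
  have h3 : x / (Nat.totient q : ℝ) ≤ X / (Nat.totient q : ℝ) :=
    div_le_div_of_nonneg_right hx (Nat.cast_nonneg _)
  have h4 : 0 ≤ x / (Nat.totient q : ℝ) := div_nonneg hx0 (Nat.cast_nonneg _)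
  apply sq_le_sq'
  · linarith
  · linarith

/-- `G(e^t, q) e^(-t)` -/
noncomputable def HH (q : ℕ) (t : ℝ) : ℝ := G (Real.exp t) q * Real.exp (-t)

lemma HH_nonneg (q : ℕ) (t : ℝ) : 0 ≤ HH q t := mul_nonneg (G_nonneg _ _) (Real.exp_pos _).le

lemma HH_meas (q : ℕ) : Measurable (HH q) :=
  ((G_meas q).comp Real.measurable_exp).mul (by fun_prop)

lemma HH_intv (q : ℕ) (a b : ℝ) : IntervalIntegrable (HH q) volume a b := by
  rw [intervalIntegrable_iff]
  obtain ⟨C, hC⟩ := G_bdd q (Real.exp (max a b))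
  have h1 : IntegrableOn (fun _ : ℝ => C * Real.exp (-(min a b))) (uIoc a b) volume :=
    intervalIntegrable_iff.1 intervalIntegrable_const
  refine Integrable.mono' h1 (HH_meas q).aestronglyMeasurable ?_
  refine (ae_restrict_iff' measurableSet_uIoc).2 (Eventually.of_forall fun t ht => ?_)
  rw [Real.norm_of_nonneg (HH_nonneg q t)]
  have ht1 : min a b < t := ht.1
  have ht2 : t ≤ max a b := ht.2
  unfold HH
  have h2 := hC (Real.exp t) (Real.exp_pos _).le (Real.exp_le_exp.2 ht2)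
  have h3 : 0 ≤ C := (G_nonneg _ _).trans h2
  exact mul_le_mul h2 (Real.exp_le_exp.2 (by linarith)) (Real.exp_pos _).le h3

/-- the sum over the nonprincipal characters is at most `φ(q) G` -/
lemma sum_le_G (hOD : S_OD) (q : ℕ) [NeZero q] (t : ℝ) :
    ∑ χ ∈ NP q, ‖ff χ t‖ ^ 2 ≤ (Nat.totient q : ℝ) * G (Real.exp t) q := by
  have hF : (0 : ℝ) < Nat.totient q := by
    exact_mod_cast Nat.totient_pos.2 (Nat.pos_of_ne_zero (NeZero.ne q))
  rw [hOD q (Real.exp t) (Real.exp_pos t).le]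
  have e : (Nat.totient q : ℝ) * ((1 / (Nat.totient q : ℝ)) * ∑ χ : DirichletCharacter ℂ q,
    ‖psiC χ (Real.exp t) - (if χ = 1 then ((Real.exp t : ℝ) : ℂ) else 0)‖ ^ 2) =
    ∑ χ : DirichletCharacter ℂ q, ‖psiC χ (Real.exp t) - (if χ = 1 then ((Real.exp t : ℝ) : ℂ) else 0)‖ ^ 2 := by
    field_simp
  rw [e]
  have h1 : ∑ χ ∈ NP q, ‖ff χ t‖ ^ 2 = ∑ χ ∈ NP q,
      ‖psiC χ (Real.exp t) - (if χ = 1 then ((Real.exp t : ℝ) : ℂ) else 0)‖ ^ 2 := by
    refine Finset.sum_congr rfl fun χ hχ => ?_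
    have hχ1 : χ ≠ 1 := Finset.ne_of_mem_erase hχ
    rw [if_neg hχ1, sub_zero]
    rfl
  rw [h1]
  exact Finset.sum_le_sum_of_subset_of_nonneg (Finset.subset_univ _) fun _ _ _ => by positivity

/-- the square integrable function of `t` -/
noncomputable def fw {q : ℕ} (χ : DirichletCharacter ℂ q) (δ t : ℝ) : ℝ :=
  ‖ff χ t‖ ^ 2 * Real.exp (-(2 * (1 / 2 + δ) * t))

lemma fw_nonneg {q : ℕ} (χ : DirichletCharacter ℂ q) (δ t : ℝ) : 0 ≤ fw χ δ t := by unfold fw; positivity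

lemma J_def (q : ℕ) [NeZero q] (δ : ℝ) : J q δ = (1 / (Nat.totient q : ℝ)) * ∑ χ ∈ NP q, ∫ t in Ioi (0 : ℝ), fw χ δ t :=
  rfl

lemma near_le (hOD : S_OD) {q : ℕ} [NeZero q] (hA : AdmAll q) {δ : ℝ} (hδ : 0 < δ) {L : ℝ} (hL : 0 ≤ L) :
    ∑ χ ∈ NP q, ∫ t in (0 : ℝ)..L, fw χ δ t ≤ (Nat.totient q : ℝ) * ∫ t in (0 : ℝ)..L, HH q t := by
  have hi : ∀ χ ∈ NP q, IntervalIntegrable (fw χ δ) volume 0 L := by
    intro χ hχ
    have hχ1 : χ ≠ 1 := Finset.ne_of_mem_erase hχ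
    have h1 := (hA χ hχ1).2 (1 / 2 + δ) (by linarith)
    rw [intervalIntegrable_iff_integrableOn_Ioc_of_le hL]
    exact h1.mono_set Ioc_subset_Ioi_self
  rw [← intervalIntegral.integral_finsetSum hi, ← intervalIntegral.integral_const_mul]
  apply intervalIntegral.integral_mono_on hL
  · have h := IntervalIntegrable.sum (NP q) hi
    have e : (∑ i ∈ NP q, fw i δ) = fun u => ∑ i ∈ NP q, fw i δ u := by
      funext u
      simp
    rw [e] at h
    exact h
  · exact (HH_intv q 0 L).const_mul _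
  · intro t ht
    have h1 := sum_le_G hOD q t
    unfold fw HH
    rw [← Finset.sum_mul]
    have h2 : Real.exp (-(2 * (1 / 2 + δ) * t)) ≤ Real.exp (-t) := by
      apply Real.exp_le_exp.2
      nlinarith [ht.1]
    calc (∑ χ ∈ NP q, ‖ff χ t‖ ^ 2) * Real.exp (-(2 * (1 / 2 + δ) * t)) ≤
          ((Nat.totient q : ℝ) * G (Real.exp t) q) * Real.exp (-t) :=
          mul_le_mul h1 h2 (Real.exp_pos _).le (mul_nonneg (Nat.cast_nonneg _) (G_nonneg _ _))
      _ = _ := by ring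

/-- splitting at `L` -/
lemma J_split (hOD : S_OD) {q : ℕ} [NeZero q] (hA : AdmAll q) {L : ℝ} (hL : 0 < L) :
    J q (6 / L) ≤ (∫ t in (0 : ℝ)..L, HH q t) + Real.exp (-6) * J q (3 / L) := by
  have hF : (0 : ℝ) < Nat.totient q := by
    exact_mod_cast Nat.totient_pos.2 (Nat.pos_of_ne_zero (NeZero.ne q))
  have h6 : 0 < 6 / L := by positivity
  have h3 : 0 < 3 / L := by positivity
  have hnear := near_le hOD hA h6 hL.le
  have hsp : ∀ χ ∈ NP q, ∫ t in Ioi (0 : ℝ), fw χ (6 / L) t ≤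
      (∫ t in (0 : ℝ)..L, fw χ (6 / L) t) + Real.exp (-6) * ∫ t in Ioi (0 : ℝ), fw χ (3 / L) t := by
    intro χ hχ
    have hχ1 : χ ≠ 1 := Finset.ne_of_mem_erase hχ
    have i6 : IntegrableOn (fw χ (6 / L)) (Ioi 0) := (hA χ hχ1).2 (1 / 2 + 6 / L) (by linarith)
    have i3 : IntegrableOn (fw χ (3 / L)) (Ioi 0) := (hA χ hχ1).2 (1 / 2 + 3 / L) (by linarith)
    have h1 : ∫ t in Ioi (0 : ℝ), fw χ (6 / L) t = (∫ t in (0 : ℝ)..L, fw χ (6 / L) t) +
        ∫ t in Ioi L, fw χ (6 / L) t := by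
      rw [intervalIntegral.integral_of_le hL.le, ← setIntegral_union (Ioc_disjoint_Ioi le_rfl) measurableSet_Ioi
        (i6.mono_set Ioc_subset_Ioi_self) (i6.mono_set (Ioi_subset_Ioi hL.le)), Ioc_union_Ioi_eq_Ioi hL.le]
    rw [h1]
    have h2 : ∫ t in Ioi L, fw χ (6 / L) t ≤ ∫ t in Ioi L, Real.exp (-6) * fw χ (3 / L) t := by
      apply setIntegral_mono_on (i6.mono_set (Ioi_subset_Ioi hL.le))
        ((i3.mono_set (Ioi_subset_Ioi hL.le)).const_mul _) measurableSet_Ioi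
      intro t ht
      have ht' : L < t := ht
      unfold fw
      have h4 : Real.exp (-(2 * (1 / 2 + 6 / L) * t)) ≤ Real.exp (-6) * Real.exp (-(2 * (1 / 2 + 3 / L) * t)) := by
        rw [← Real.exp_add]
        apply Real.exp_le_exp.2
        have h5 : 1 ≤ t / L := by
          rw [le_div_iff₀ hL]
          linarith
        have e6 : 6 / L * t = 6 * (t / L) := by ring
        have e3 : 3 / L * t = 3 * (t / L) := by ring
        have e1 : -(2 * (1 / 2 + 6 / L) * t) = -t - 12 * (t / L) := by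
          have : 2 * (1 / 2 + 6 / L) * t = t + 2 * (6 / L * t) := by ring
          rw [this, e6]
          ring
        have e2 : -(2 * (1 / 2 + 3 / L) * t) = -t - 6 * (t / L) := by
          have : 2 * (1 / 2 + 3 / L) * t = t + 2 * (3 / L * t) := by ring
          rw [this, e3]
          ring
        rw [e1, e2]
        linarith
      calc ‖ff χ t‖ ^ 2 * Real.exp (-(2 * (1 / 2 + 6 / L) * t)) ≤
            ‖ff χ t‖ ^ 2 * (Real.exp (-6) * Real.exp (-(2 * (1 / 2 + 3 / L) * t))) :=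
            mul_le_mul_of_nonneg_left h4 (by positivity)
        _ = _ := by ring
    have h7 : ∫ t in Ioi L, Real.exp (-6) * fw χ (3 / L) t ≤ Real.exp (-6) * ∫ t in Ioi (0 : ℝ), fw χ (3 / L) t := by
      rw [integral_const_mul]
      apply mul_le_mul_of_nonneg_left _ (Real.exp_pos _).le
      apply setIntegral_mono_set i3 (Eventually.of_forall fun t => fw_nonneg χ _ t)
      exact (Ioi_subset_Ioi hL.le).eventuallyLE
    linarith
  have hsum := Finset.sum_le_sum hsp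
  rw [Finset.sum_add_distrib, ← Finset.mul_sum] at hsum
  rw [J_def, J_def]
  have h8 : ∑ χ ∈ NP q, ∫ t in Ioi (0 : ℝ), fw χ (6 / L) t ≤ (Nat.totient q : ℝ) * (∫ t in (0 : ℝ)..L, HH q t) +
      Real.exp (-6) * ∑ χ ∈ NP q, ∫ t in Ioi (0 : ℝ), fw χ (3 / L) t := by linarith
  have h9 := mul_le_mul_of_nonneg_left h8 (show 0 ≤ 1 / (Nat.totient q : ℝ) by positivity)
  refine h9.trans (le_of_eq ?_)
  field_simp

/-- **the upper bound** -/
theorem t_TB (hPL : S_PL) (hZD : S_ZD) (hGR : S_GR) (hCO : S_CO) (hEQ : S_EQ) (hOS : S_OS)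
    (hOD : S_OD) (hTR : S_TR) : S_TB := by
  obtain ⟨C1, hC1, hW⟩ := W_le hPL hZD hGR
  refine ⟨36 * (67 + 96 * C1), by positivity, ?_⟩
  intro c hc hc1
  obtain ⟨q1, h1⟩ := small hCO hEQ hOS (show (0 : ℝ) < 6 by norm_num) one_pos
  obtain ⟨q2, h2⟩ := small hCO hEQ hOS (show (0 : ℝ) < 3 by norm_num) one_pos
  obtain ⟨q3, h3⟩ := small hCO hEQ hOS hc one_pos
  obtain ⟨q4, h4⟩ := log_big 24
  obtain ⟨q5, h5⟩ := hTR (1 / 2) (by norm_num)
  refine ⟨q1 + q2 + q3 + q4 + q5, ?_⟩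
  intro q _ hq hA
  have s6 := h1 q (by omega)
  have s3 := h2 q (by omega)
  have sc := h3 q (by omega)
  have hL24 := h4 q (by omega)
  have hnear := h5 q (by omega) 0 le_rfl
  have hF : (0 : ℝ) < Nat.totient q := by
    exact_mod_cast Nat.totient_pos.2 (Nat.pos_of_ne_zero (NeZero.ne q))
  have hcard := card_NP q
  set F : ℝ := (Nat.totient q : ℝ) with hFd
  set L := Real.log q with hLd
  have hL0 : 0 < L := by linarith
  have he0 := eq_nonneg q
  have heL : eq q ≤ L := by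
    have := s6.e
    rw [one_mul] at this
    exact this
  have hnear' : ∫ t in (0 : ℝ)..L, HH q t ≤ L ^ 2 := by
    have e1 : ∫ t in (0 : ℝ)..L, HH q t = ∫ t in (0 : ℝ)..L,
        G (Real.exp t) q * Real.exp (-t) * Real.exp (-(2 * 0 * t / L)) := by
      congr 1
      funext t
      unfold HH
      simp
    rw [e1]
    refine hnear.trans (le_of_eq ?_)
    have e2 : ∫ α in (0 : ℝ)..1, α * Real.exp (-(2 * 0 * α)) = 1 / 2 := by
      have : ∀ α : ℝ, α * Real.exp (-(2 * 0 * α)) = α := by intro α; simp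
      simp_rw [this]
      rw [integral_id]
      norm_num
    rw [e2]
    ring
  -- the sums of the squares at real points
  have hS : ∀ c' : ℝ, 0 < c' → Small q c' 1 →
      ∑ χ ∈ NP q, WW χ (1 / 2 + c' / L) ≤ F * (J q (c' / L) + 1) ∧
      F * J q (c' / L) ≤ ∑ χ ∈ NP q, WW χ (1 / 2 + c' / L) + F := by
    intro c' hc' hs
    have hδ : 0 < c' / L := by positivity
    have h6 : |∑ χ ∈ NP q, (ld (ff χ) ((1 + 2 * (c' / L) : ℝ) : ℂ) ^ 2).re| ≤ 1 * F :=
      (sum_sq hGR hA (by linarith)).trans hs.s2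
    rw [one_mul] at h6
    rw [J_eq hPL hA hδ]
    set S3 := ∑ χ ∈ NP q, (ld (ff χ) ((1 + 2 * (c' / L) : ℝ) : ℂ) ^ 2).re
    set SW := ∑ χ ∈ NP q, WW χ (1 / 2 + c' / L)
    have h7 : |S3 / (1 + 2 * (c' / L))| ≤ F := by
      rw [abs_div, abs_of_pos (show 0 < 1 + 2 * (c' / L) by positivity), div_le_iff₀ (by positivity)]
      nlinarith
    obtain ⟨h8, h9⟩ := abs_le.1 h7
    have e1 : F * (1 / F * (SW - S3 / (1 + 2 * (c' / L)))) = SW - S3 / (1 + 2 * (c' / L)) := by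
      field_simp
    constructor
    · rw [mul_add, e1]
      linarith
    · rw [e1]
      linarith
  obtain ⟨a6, -⟩ := hS 6 (by norm_num) s6
  obtain ⟨-, b3⟩ := hS 3 (by norm_num) s3
  obtain ⟨-, bc⟩ := hS c hc sc
  have h6L : 6 / L ≤ 1 / 4 := by
    rw [div_le_iff₀ hL0]
    linarith
  have he2 : (1 + eq q) ^ 2 ≤ 4 * L ^ 2 := by
    have : 1 + eq q ≤ 2 * L := by linarith
    calc (1 + eq q) ^ 2 ≤ (2 * L) ^ 2 := pow_le_pow_left₀ (by linarith) this 2
      _ = _ := by ring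
  have hW' : ∀ c' : ℝ, 0 < c' → c' ≤ 6 → ∑ χ ∈ NP q, WW χ (1 / 2 + c' / L) ≤
      (6 / c') ^ 2 * (12 * ∑ χ ∈ NP q, WW χ (1 / 2 + 6 / L) + F * (6 * L ^ 2 + 48 * C1 * L ^ 2)) := by
    intro c' hc' hc6
    have hr : 6 / L / (c' / L) = 6 / c' := by field_simp
    calc ∑ χ ∈ NP q, WW χ (1 / 2 + c' / L) ≤ ∑ χ ∈ NP q, (6 / c') ^ 2 * (12 * WW χ (1 / 2 + 6 / L) +
          (6 * L ^ 2 + 48 * C1 * L ^ 2)) := by
          refine Finset.sum_le_sum fun χ hχ => ?_
          have hχ1 : χ ≠ 1 := Finset.ne_of_mem_erase hχ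
          have h7 := hW q χ hχ1 (hA χ hχ1) (c' / L) (6 / L) (by positivity)
            (div_le_div_of_nonneg_right hc6 hL0.le) h6L
          rw [hr] at h7
          refine h7.trans ?_
          apply mul_le_mul_of_nonneg_left _ (by positivity)
          have h8 : 12 * C1 * (1 + eq q) ^ 2 ≤ 12 * C1 * (4 * L ^ 2) :=
            mul_le_mul_of_nonneg_left he2 (by positivity)
          linarith
      _ = (6 / c') ^ 2 * (12 * ∑ χ ∈ NP q, WW χ (1 / 2 + 6 / L) + (F - 1) * (6 * L ^ 2 + 48 * C1 * L ^ 2)) := by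
          rw [← Finset.mul_sum, Finset.sum_add_distrib, ← Finset.mul_sum, Finset.sum_const, nsmul_eq_mul, hcard]
      _ ≤ _ := by
          apply mul_le_mul_of_nonneg_left _ (by positivity)
          have : 0 ≤ 6 * L ^ 2 + 48 * C1 * L ^ 2 := by positivity
          nlinarith
  have hJ := J_split hOD hA hL0
  have he6 : Real.exp (-6) ≤ 1 / 100 := by
    have h7 : (100 : ℝ) ≤ Real.exp 6 := by
      have h8 : (2.7 : ℝ) ≤ Real.exp 1 := by linarith [Real.exp_one_gt_d9]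
      have h9 : Real.exp 6 = Real.exp 1 ^ 6 := by rw [← Real.exp_nat_mul]; norm_num
      rw [h9]
      calc (100 : ℝ) ≤ 2.7 ^ 6 := by norm_num
        _ ≤ _ := pow_le_pow_left₀ (by norm_num) h8 6
    rw [Real.exp_neg, ← one_div]
    exact one_div_le_one_div_of_le (by norm_num) h7
  have hW3 := hW' 3 (by norm_num) (by norm_num)
  have hJ3n : 0 ≤ J q (3 / L) := by
    rw [J_def]
    exact mul_nonneg (by positivity) (Finset.sum_nonneg fun χ _ => integral_nonneg fun t => fw_nonneg _ _ _)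
  have hL2 : 1 ≤ L ^ 2 := by nlinarith
  have hJ3 : J q (3 / L) ≤ 48 * (J q (6 / L) + 1) + (24 + 192 * C1) * L ^ 2 + 1 := by
    have h7 : F * J q (3 / L) ≤ F * (48 * (J q (6 / L) + 1) + (24 + 192 * C1) * L ^ 2 + 1) := by
      have h8 : (6 / 3 : ℝ) ^ 2 = 4 := by norm_num
      rw [h8] at hW3
      nlinarith
    exact le_of_mul_le_mul_left h7 hF
  have hJ6 : J q (6 / L) ≤ (4 + 4 * C1) * L ^ 2 := by
    have h7 : Real.exp (-6) * J q (3 / L) ≤ 1 / 100 * (48 * (J q (6 / L) + 1) + (24 + 192 * C1) * L ^ 2 + 1) :=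
      mul_le_mul he6 hJ3 hJ3n (by norm_num)
    have h8 : 0 ≤ C1 * L ^ 2 := by positivity
    nlinarith
  have hWc := hW' c hc (by linarith)
  have h10 : F * J q (c / L) ≤ F * (36 * (67 + 96 * C1) / c ^ 2 * L ^ 2) := by
    have h11 : (6 / c) ^ 2 = 36 / c ^ 2 := by
      rw [div_pow]
      norm_num
    rw [h11] at hWc
    have h12 : 12 * ∑ χ ∈ NP q, WW χ (1 / 2 + 6 / L) + F * (6 * L ^ 2 + 48 * C1 * L ^ 2) ≤
        F * ((66 + 96 * C1) * L ^ 2) := by
      have h13 := mul_le_mul_of_nonneg_left hJ6 hF.le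
      nlinarith
    have h14 : 36 / c ^ 2 * (12 * ∑ χ ∈ NP q, WW χ (1 / 2 + 6 / L) + F * (6 * L ^ 2 + 48 * C1 * L ^ 2)) ≤
        36 / c ^ 2 * (F * ((66 + 96 * C1) * L ^ 2)) := mul_le_mul_of_nonneg_left h12 (by positivity)
    have h15 : F ≤ 36 / c ^ 2 * (F * L ^ 2) := by
      have h16 : 1 ≤ 36 / c ^ 2 := by
        rw [le_div_iff₀ (by positivity)]
        nlinarith
      have h17 : F ≤ F * L ^ 2 := by nlinarith
      calc F ≤ F * L ^ 2 := h17
        _ = 1 * (F * L ^ 2) := by ring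
        _ ≤ _ := mul_le_mul_of_nonneg_right h16 (by positivity)
    calc F * J q (c / L) ≤ ∑ χ ∈ NP q, WW χ (1 / 2 + c / L) + F := bc
      _ ≤ 36 / c ^ 2 * (F * ((66 + 96 * C1) * L ^ 2)) + 36 / c ^ 2 * (F * L ^ 2) := by linarith
      _ = _ := by ring
  exact le_of_mul_le_mul_left h10 hF

end Pool.Agent.Q253.HV
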