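import Pool.Agent.Q253.HV.TBf
import Pool.Agent.Q253.HV.Stm2
import Pool.Agent.Q98.HV.BG
import Pool.Agent.Q213.GM.Lap

set_option autoImplicit false

/-! # From bounds for the variance to the generalized Riemann hypothesis -/

namespace Pool.Agent.Q253.HV

open MeasureTheory Filter Topology Set Complex

/-- `(1/log² q) ∫ G(x, q) dx / x²` over `q^a ≤ x ≤ q^b` -/
noncomputable def V (q : ℕ) (a b : ℝ) : ℝ :=
  (∫ x in ((q : ℝ) ^ a)..((q : ℝ) ^ b), G x q / x ^ 2) / Real.log q ^ 2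

/-- substitution `x = e^t` -/
lemma G_subst (q : ℕ) {u v : ℝ} (huv : u ≤ v) :
    ∫ x in (Real.exp u)..(Real.exp v), G x q / x ^ 2 = ∫ t in u..v, HH q t := by
  rw [intervalIntegral.integral_of_le (Real.exp_le_exp.2 huv), intervalIntegral.integral_of_le huv]
  have him : Real.exp '' (Ioc u v) = Ioc (Real.exp u) (Real.exp v) := by
    ext x
    constructor
    · rintro ⟨t, ht, rfl⟩
      exact ⟨Real.exp_lt_exp.2 ht.1, Real.exp_le_exp.2 ht.2⟩
    · intro hx
      have hx0 : 0 < x := (Real.exp_pos u).trans hx.1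
      exact ⟨Real.log x, ⟨(Real.lt_log_iff_exp_lt hx0).2 hx.1, (Real.log_le_iff_le_exp hx0).2 hx.2⟩,
        Real.exp_log hx0⟩
  rw [← him, integral_image_eq_integral_abs_deriv_smul measurableSet_Ioc
    (fun x _ => (Real.hasDerivAt_exp x).hasDerivWithinAt) Real.exp_injective.injOn]
  refine setIntegral_congr_fun measurableSet_Ioc fun t _ => ?_
  simp only [smul_eq_mul]
  rw [abs_of_pos (Real.exp_pos t)]
  unfold HH
  rw [Real.exp_neg]
  have := (Real.exp_pos t).ne'
  field_simp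

lemma V_eq {q : ℕ} (hq : 2 ≤ q) {a b : ℝ} (hab : a ≤ b) :
    V q a b = (∫ t in (a * Real.log q)..(b * Real.log q), HH q t) / Real.log q ^ 2 := by
  have hq0 : (0 : ℝ) < q := by positivity
  have hL : 0 ≤ Real.log q := Real.log_natCast_nonneg q
  unfold V
  rw [← G_subst q (mul_le_mul_of_nonneg_right hab hL)]
  rw [Real.rpow_def_of_pos hq0, Real.rpow_def_of_pos hq0, mul_comm a, mul_comm b]

/-- the term of the character `χ` -/
noncomputable def gg {q : ℕ} [NeZero q] (χ : DirichletCharacter ℂ q) (t : ℝ) : ℝ :=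
  ‖psiC χ (Real.exp t) - (if χ = 1 then ((Real.exp t : ℝ) : ℂ) else 0)‖ ^ 2

lemma gg_nonneg {q : ℕ} [NeZero q] (χ : DirichletCharacter ℂ q) (t : ℝ) : 0 ≤ gg χ t := by unfold gg; positivity

lemma gg_meas {q : ℕ} [NeZero q] (χ : DirichletCharacter ℂ q) : Measurable (gg χ) := by
  unfold gg
  refine (((Pool.Agent.Q98.HV.psiC_meas χ).sub ?_).norm).pow_const 2
  split_ifs
  · exact Complex.measurable_ofReal.comp Real.measurable_exp
  · exact measurable_const

lemma gg_bdd {q : ℕ} [NeZero q] (χ : DirichletCharacter ℂ q) (b : ℝ) :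
    ∃ C : ℝ, ∀ t : ℝ, 0 ≤ t → t ≤ b → gg χ t ≤ C := by
  refine ⟨((Real.log 4 + 4) * Real.exp b + Real.exp b) ^ 2, fun t _ ht => ?_⟩
  unfold gg
  have hl : 0 ≤ Real.log 4 := Real.log_nonneg (by norm_num)
  have h1 : ‖psiC χ (Real.exp t)‖ ≤ (Real.log 4 + 4) * Real.exp b :=
    (Pool.Agent.Q98.HV.psiC_le χ (Real.exp_pos t).le).trans
      (mul_le_mul_of_nonneg_left (Real.exp_le_exp.2 ht) (by linarith))
  have h2 : ‖(if χ = 1 then ((Real.exp t : ℝ) : ℂ) else 0)‖ ≤ Real.exp b := by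
    split_ifs
    · rw [Complex.norm_real, Real.norm_of_nonneg (Real.exp_pos t).le]
      exact Real.exp_le_exp.2 ht
    · simp only [norm_zero]
      exact (Real.exp_pos b).le
  apply pow_le_pow_left₀ (norm_nonneg _)
  exact (norm_sub_le _ _).trans (add_le_add h1 h2)

lemma gg_le_G (hOD : S_OD) {q : ℕ} [NeZero q] (χ : DirichletCharacter ℂ q) (t : ℝ) :
    gg χ t ≤ (Nat.totient q : ℝ) * G (Real.exp t) q := by
  have hF : (0 : ℝ) < Nat.totient q := by
    exact_mod_cast Nat.totient_pos.2 (Nat.pos_of_ne_zero (NeZero.ne q))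
  rw [hOD q (Real.exp t) (Real.exp_pos t).le]
  have e : (Nat.totient q : ℝ) * ((1 / (Nat.totient q : ℝ)) * ∑ χ : DirichletCharacter ℂ q,
    ‖psiC χ (Real.exp t) - (if χ = 1 then ((Real.exp t : ℝ) : ℂ) else 0)‖ ^ 2) =
    ∑ χ : DirichletCharacter ℂ q, gg χ t := by
    unfold gg
    field_simp
  rw [e]
  exact Finset.single_le_sum (fun χ _ => gg_nonneg χ t) (Finset.mem_univ χ)

lemma gg_level (hCL : S_CL) {r q : ℕ} [NeZero r] [NeZero q] (h : r ∣ q) (χ : DirichletCharacter ℂ r) {t : ℝ}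
    (ht : 0 ≤ t) : gg χ t ≤ 2 * gg (DirichletCharacter.changeLevel h χ) t + 2 * (2 * Real.log q * t) ^ 2 := by
  have h1 := hCL r q h χ (Real.exp t) (Real.one_le_exp ht)
  rw [Real.log_exp] at h1
  have h2 : (if DirichletCharacter.changeLevel h χ = 1 then ((Real.exp t : ℝ) : ℂ) else 0) =
      (if χ = 1 then ((Real.exp t : ℝ) : ℂ) else 0) := by
    simp only [DirichletCharacter.changeLevel_eq_one_iff h]
  unfold gg
  rw [h2]
  set E : ℂ := (if χ = 1 then ((Real.exp t : ℝ) : ℂ) else 0)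
  set A := psiC χ (Real.exp t)
  set B := psiC (DirichletCharacter.changeLevel h χ) (Real.exp t)
  have h3 : ‖A - E‖ ≤ ‖B - E‖ + 2 * Real.log q * t := by
    have : A - E = (B - E) - (B - A) := by ring
    rw [this]
    exact (norm_sub_le _ _).trans (by linarith)
  have h4 : 0 ≤ 2 * Real.log q * t := (norm_nonneg _).trans h1
  nlinarith [norm_nonneg (A - E), norm_nonneg (B - E), sq_nonneg (‖B - E‖ - 2 * Real.log q * t)]

/-- each `r` in the set has, up to a fixed power, multiples in the set of every size -/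
def Rich (Q : Set ℕ) : Prop := ∀ r ∈ Q, 0 < r → ∃ A y0 : ℝ, ∀ y : ℝ, y0 ≤ y →
  ∃ q ∈ Q, r ∣ q ∧ y ≤ (q : ℝ) ∧ (q : ℝ) ≤ y ^ A

/-- bounds in all the windows `[q, q^b]` -/
def Bdd (Q : Set ℕ) : Prop := ∀ b : ℝ, 1 < b → ∃ C : ℝ, ∃ q0 : ℕ, ∀ q ∈ Q, q0 ≤ q → V q 1 b ≤ C

/-- a polynomial is at most a constant times an exponential function -/
lemma poly_exp (n : ℕ) {η : ℝ} (hη : 0 < η) : ∃ C : ℝ, 0 < C ∧ ∀ T : ℝ, 0 ≤ T → T ^ n ≤ C * Real.exp (η * T) := by
  refine ⟨(n.factorial : ℝ) / η ^ n, by positivity, fun T hT => ?_⟩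
  have h1 := Real.pow_div_factorial_le_exp (η * T) (by positivity) n
  rw [mul_pow] at h1
  have hf : (0 : ℝ) < n.factorial := by exact_mod_cast n.factorial_pos
  have hp : 0 < η ^ n := by positivity
  rw [div_le_iff₀ hf] at h1
  rw [div_mul_eq_mul_div, le_div_iff₀ hp]
  nlinarith

/-- the mean square over `[T, 2T]` -/
lemma dyadic (hOD : S_OD) (hCL : S_CL) {Q : Set ℕ} (hB : Bdd Q) (hR : Rich Q) {r : ℕ} [NeZero r] (hr : r ∈ Q)
    (χ : DirichletCharacter ℂ r) {η : ℝ} (hη : 0 < η) :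
    ∃ C T0 : ℝ, 0 < T0 ∧ ∀ T : ℝ, T0 ≤ T →
      ∫ t in T..(2 * T), gg χ t * Real.exp (-t) ≤ C * Real.exp (η * T) := by
  obtain ⟨A', y0, hy⟩ := hR r hr (Nat.pos_of_ne_zero (NeZero.ne r))
  set A : ℝ := max A' 1 with hA
  have hA1 : 1 ≤ A := le_max_right _ _
  set η' : ℝ := min η 1 with hη'
  have hη'0 : 0 < η' := lt_min hη one_pos
  have hη'1 : η' ≤ 1 := min_le_right _ _
  have hη'η : η' ≤ η := min_le_left _ _
  set κ : ℝ := η' / (2 * A) with hκ
  have hκ0 : 0 < κ := by positivity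
  have hκA : κ * A = η' / 2 := by rw [hκ]; field_simp
  have hκ1 : κ ≤ 1 / 2 := by nlinarith
  obtain ⟨C, q0, hC⟩ := hB (2 / κ) (by rw [lt_div_iff₀ hκ0]; linarith)
  obtain ⟨C1, hC1, hC1'⟩ := poly_exp 2 (by positivity : 0 < η' / 2)
  obtain ⟨C2, hC2, hC2'⟩ := poly_exp 5 (by positivity : (0 : ℝ) < 1)
  refine ⟨2 * (max C 0 * C1) + 2 * (16 * C2), max (max (Real.log (max y0 1) / κ) (Real.log (max (q0 : ℝ) 2) / κ)) 1,
    lt_of_lt_of_le one_pos (le_max_right _ _), fun T hT => ?_⟩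
  have hT1 : 1 ≤ T := (le_max_right _ _).trans hT
  have hTy : Real.log (max y0 1) / κ ≤ T := ((le_max_left _ _).trans (le_max_left _ _)).trans hT
  have hTq : Real.log (max (q0 : ℝ) 2) / κ ≤ T := ((le_max_right _ _).trans (le_max_left _ _)).trans hT
  have hT0 : 0 < T := by linarith
  set y : ℝ := Real.exp (κ * T) with hyd
  have hy1 : 1 ≤ y := Real.one_le_exp (by positivity)
  have hyy : y0 ≤ y := by
    rw [div_le_iff₀ hκ0] at hTy
    have h1 : Real.log (max y0 1) ≤ κ * T := by linarith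
    have h2 : max y0 1 ≤ y := by
      rw [hyd, ← Real.log_le_iff_le_exp (by positivity)]
      exact h1
    exact (le_max_left _ _).trans h2
  have hyq : max (q0 : ℝ) 2 ≤ y := by
    rw [div_le_iff₀ hκ0] at hTq
    rw [hyd, ← Real.log_le_iff_le_exp (by positivity)]
    linarith
  obtain ⟨q, hqQ, hrq, hyq1, hyq2⟩ := hy y hyy
  have hq2 : (2 : ℝ) ≤ q := ((le_max_right _ _).trans hyq).trans hyq1
  have hq2' : 2 ≤ q := by exact_mod_cast hq2
  have hqq0 : q0 ≤ q := by
    have : (q0 : ℝ) ≤ q := ((le_max_left _ _).trans hyq).trans hyq1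
    exact_mod_cast this
  have : NeZero q := ⟨by omega⟩
  have hqpos : (0 : ℝ) < q := by linarith
  set L := Real.log q with hL
  have hL1 : κ * T ≤ L := by
    rw [hL, Real.le_log_iff_exp_le hqpos]
    exact hyq1
  have hL2 : L ≤ κ * A * T := by
    rw [hL, Real.log_le_iff_le_exp hqpos]
    refine hyq2.trans ?_
    rw [hyd, ← Real.exp_mul]
    apply Real.exp_le_exp.2
    have : κ * T * A' ≤ κ * T * A := mul_le_mul_of_nonneg_left (le_max_left _ _) (by positivity)
    linarith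
  rw [hκA] at hL2
  have hLT : L ≤ T := by nlinarith
  have hL0 : 0 < L := by
    have : 0 < κ * T := by positivity
    linarith
  have hqexp : (q : ℝ) ≤ Real.exp (η' / 2 * T) := by
    rw [← Real.log_le_iff_le_exp hqpos]
    exact hL2
  -- the window
  have hVC := hC q hqQ hqq0
  have hb1 : (1 : ℝ) ≤ 2 / κ := by rw [le_div_iff₀ hκ0]; linarith
  rw [V_eq hq2' hb1, div_le_iff₀ (by positivity)] at hVC
  rw [← hL, one_mul] at hVC
  have hTb : 2 * T ≤ 2 / κ * L := by
    rw [div_mul_eq_mul_div, le_div_iff₀ hκ0]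
    nlinarith
  have hTT : T ≤ 2 * T := by linarith
  have hsub : ∫ t in T..(2 * T), HH q t ≤ ∫ t in L..(2 / κ * L), HH q t :=
    intervalIntegral.integral_mono_interval hLT hTT hTb (Eventually.of_forall fun t => HH_nonneg q t)
      (HH_intv q _ _)
  have hI : ∫ t in T..(2 * T), HH q t ≤ max C 0 * L ^ 2 :=
    (hsub.trans hVC).trans (mul_le_mul_of_nonneg_right (le_max_left _ _) (by positivity))
  -- pointwise
  have hpt : ∀ t ∈ Icc T (2 * T), gg χ t * Real.exp (-t) ≤
      2 * (Nat.totient q : ℝ) * HH q t + 2 * (2 * T * (2 * T)) ^ 2 * Real.exp (-T) := by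
    intro t ht
    have ht0 : 0 ≤ t := by linarith [ht.1]
    have h1 := gg_level hCL hrq χ ht0
    have h2 := gg_le_G hOD (DirichletCharacter.changeLevel hrq χ) t
    have h3 : (2 * Real.log q * t) ^ 2 ≤ (2 * T * (2 * T)) ^ 2 := by
      apply pow_le_pow_left₀ (by positivity)
      exact mul_le_mul (by linarith) ht.2 ht0 (by positivity)
    have h4 : Real.exp (-t) ≤ Real.exp (-T) := Real.exp_le_exp.2 (by linarith [ht.1])
    have h5 : 0 ≤ (2 * T * (2 * T)) ^ 2 := by positivity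
    calc gg χ t * Real.exp (-t) ≤ (2 * ((Nat.totient q : ℝ) * G (Real.exp t) q) + 2 * (2 * T * (2 * T)) ^ 2) *
          Real.exp (-t) := mul_le_mul_of_nonneg_right (by linarith) (Real.exp_pos _).le
      _ = 2 * (Nat.totient q : ℝ) * HH q t + 2 * (2 * T * (2 * T)) ^ 2 * Real.exp (-t) := by
          unfold HH; ring
      _ ≤ _ := by
          have := mul_le_mul_of_nonneg_left h4 (by linarith : 0 ≤ 2 * (2 * T * (2 * T)) ^ 2)
          linarith
  have hgi : IntervalIntegrable (fun t => gg χ t * Real.exp (-t)) volume T (2 * T) := by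
    rw [intervalIntegrable_iff]
    obtain ⟨K, hK⟩ := gg_bdd χ (2 * T)
    have h1 : IntegrableOn (fun _ : ℝ => K * 1) (uIoc T (2 * T)) volume :=
      intervalIntegrable_iff.1 intervalIntegrable_const
    refine Integrable.mono' h1 ((gg_meas χ).mul (by fun_prop)).aestronglyMeasurable ?_
    refine (ae_restrict_iff' measurableSet_uIoc).2 (Eventually.of_forall fun t ht => ?_)
    rw [uIoc_of_le hTT] at ht
    rw [Real.norm_of_nonneg (mul_nonneg (gg_nonneg χ t) (Real.exp_pos _).le)]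
    have h2 := hK t (by linarith [ht.1]) ht.2
    have h3 : Real.exp (-t) ≤ 1 := Real.exp_le_one_iff.2 (by linarith [ht.1])
    exact mul_le_mul h2 h3 (Real.exp_pos _).le ((gg_nonneg χ t).trans h2)
  have hmain : ∫ t in T..(2 * T), gg χ t * Real.exp (-t) ≤
      ∫ t in T..(2 * T), (2 * (Nat.totient q : ℝ) * HH q t + 2 * (2 * T * (2 * T)) ^ 2 * Real.exp (-T)) :=
    intervalIntegral.integral_mono_on hTT hgi
      (((HH_intv q _ _).const_mul _).add intervalIntegrable_const) hpt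
  rw [intervalIntegral.integral_add ((HH_intv q _ _).const_mul _) intervalIntegrable_const,
    intervalIntegral.integral_const_mul, intervalIntegral.integral_const, smul_eq_mul] at hmain
  have hφ : (Nat.totient q : ℝ) ≤ Real.exp (η' / 2 * T) :=
    (by exact_mod_cast Nat.totient_le q : (Nat.totient q : ℝ) ≤ q).trans hqexp
  have hE1 : Real.exp (η' / 2 * T) * Real.exp (η' / 2 * T) ≤ Real.exp (η * T) := by
    rw [← Real.exp_add]
    apply Real.exp_le_exp.2
    nlinarith
  have hfirst : 2 * (Nat.totient q : ℝ) * ∫ t in T..(2 * T), HH q t ≤ 2 * (max C 0 * C1) * Real.exp (η * T) := by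
    have h1 : L ^ 2 ≤ C1 * Real.exp (η' / 2 * T) :=
      (pow_le_pow_left₀ hL0.le hLT 2).trans (hC1' T hT0.le)
    have h2 : ∫ t in T..(2 * T), HH q t ≤ max C 0 * (C1 * Real.exp (η' / 2 * T)) :=
      hI.trans (mul_le_mul_of_nonneg_left h1 (le_max_right _ _))
    have h3 : 0 ≤ max C 0 * (C1 * Real.exp (η' / 2 * T)) :=
      mul_nonneg (le_max_right _ _) (by positivity)
    calc 2 * (Nat.totient q : ℝ) * ∫ t in T..(2 * T), HH q t ≤
          2 * (Nat.totient q : ℝ) * (max C 0 * (C1 * Real.exp (η' / 2 * T))) :=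
          mul_le_mul_of_nonneg_left h2 (by positivity)
      _ ≤ 2 * Real.exp (η' / 2 * T) * (max C 0 * (C1 * Real.exp (η' / 2 * T))) :=
          mul_le_mul_of_nonneg_right (by linarith) h3
      _ = 2 * (max C 0 * C1) * (Real.exp (η' / 2 * T) * Real.exp (η' / 2 * T)) := by ring
      _ ≤ _ := mul_le_mul_of_nonneg_left hE1 (by have := le_max_right C 0; positivity)
  have hsecond : (2 * T - T) * (2 * (2 * T * (2 * T)) ^ 2 * Real.exp (-T)) ≤ 2 * (16 * C2) * Real.exp (η * T) := by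
    have h1 := hC2' T hT0.le
    rw [one_mul] at h1
    have h2 : T ^ 5 * Real.exp (-T) ≤ C2 := by
      have h3 := mul_le_mul_of_nonneg_right h1 (Real.exp_pos (-T)).le
      rw [mul_assoc, ← Real.exp_add, add_neg_cancel, Real.exp_zero, mul_one] at h3
      exact h3
    have h4 : 1 ≤ Real.exp (η * T) := Real.one_le_exp (by positivity)
    calc (2 * T - T) * (2 * (2 * T * (2 * T)) ^ 2 * Real.exp (-T)) = 32 * (T ^ 5 * Real.exp (-T)) := by ring
      _ ≤ 32 * C2 := by linarith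
      _ ≤ 2 * (16 * C2) * Real.exp (η * T) := by nlinarith
  linarith

/-- square integrability of `ψ(e^t, χ)`, minus `e^t` for the principal character -/
lemma gg_int (hOD : S_OD) (hCL : S_CL) (hMS : S_MS) {Q : Set ℕ} (hB : Bdd Q) (hR : Rich Q) {r : ℕ} [NeZero r]
    (hr : r ∈ Q) (χ : DirichletCharacter ℂ r) (σ : ℝ) (hσ : 1 / 2 < σ) :
    IntegrableOn (fun t => gg χ t * Real.exp (-(2 * σ * t))) (Ioi 0) :=
  hMS (gg χ) (gg_meas χ) (gg_nonneg χ) (gg_bdd χ) (fun _ hη => dyadic hOD hCL hB hR hr χ hη) σ hσ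

lemma adm_of (hOD : S_OD) (hCL : S_CL) (hMS : S_MS) {Q : Set ℕ} (hB : Bdd Q) (hR : Rich Q) {r : ℕ} [NeZero r]
    (hr : r ∈ Q) : AdmAll r := by
  intro χ hχ
  refine ⟨(Pool.Agent.Q98.HV.psiC_meas χ).aestronglyMeasurable, fun σ hσ => ?_⟩
  have h := gg_int hOD hCL hMS hB hR hr χ σ hσ
  unfold gg at h
  simp only [if_neg hχ, sub_zero] at h
  exact h

lemma psiC_one (t : ℝ) : psiC (1 : DirichletCharacter ℂ 1) (Real.exp t) = ((Chebyshev.psi (Real.exp t) : ℝ) : ℂ) := by
  unfold psiC Chebyshev.psi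
  rw [Complex.ofReal_sum]
  have h3 : Finset.Icc 1 ⌊Real.exp t⌋₊ = Finset.Ioc 0 ⌊Real.exp t⌋₊ := rfl
  rw [h3]
  refine Finset.sum_congr rfl fun n _ => ?_
  have h1 : (1 : DirichletCharacter ℂ 1) (n : ZMod 1) = 1 := by
    apply MulChar.one_apply
    exact isUnit_of_subsingleton _
  rw [h1, mul_one]

lemma rh_of (hOD : S_OD) (hCL : S_CL) (hMS : S_MS) {Q : Set ℕ} (hB : Bdd Q) (hR : Rich Q) {r : ℕ} [NeZero r]
    (hr : r ∈ Q) : RiemannHypothesis := by
  apply Pool.Agent.Q213.GM.rh_of_L2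
  intro θ hθ
  have h := gg_int hOD hCL hMS hB hR hr (1 : DirichletCharacter ℂ r) (θ / 2) (by linarith)
  have h4 : IntegrableOn (fun t : ℝ => (2 * Real.log r * t) ^ 2 * Real.exp (-(θ * t))) (Ioi 0) := by
    obtain ⟨C, hC, hC'⟩ := poly_exp 2 (by positivity : (0 : ℝ) < 1 / 2)
    have h1 : IntegrableOn (fun t : ℝ => (2 * Real.log r) ^ 2 * C * Real.exp ((-(1 / 2)) * t)) (Ioi 0) :=
      (integrableOn_exp_mul_Ioi (by norm_num) 0).const_mul _
    refine Integrable.mono' h1 (by fun_prop) ?_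
    refine (ae_restrict_iff' measurableSet_Ioi).2 (Eventually.of_forall fun t ht => ?_)
    have ht0 : 0 < t := ht
    rw [Real.norm_of_nonneg (by positivity)]
    have h2 := hC' t ht0.le
    have h3 : Real.exp (-(θ * t)) ≤ Real.exp (-t) := Real.exp_le_exp.2 (by nlinarith)
    calc (2 * Real.log r * t) ^ 2 * Real.exp (-(θ * t)) = (2 * Real.log r) ^ 2 * (t ^ 2 * Real.exp (-(θ * t))) := by
          ring
      _ ≤ (2 * Real.log r) ^ 2 * ((C * Real.exp (1 / 2 * t)) * Real.exp (-t)) :=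
          mul_le_mul_of_nonneg_left (mul_le_mul h2 h3 (Real.exp_pos _).le (by positivity)) (by positivity)
      _ = (2 * Real.log r) ^ 2 * C * (Real.exp (1 / 2 * t) * Real.exp (-t)) := by ring
      _ = _ := by
          rw [← Real.exp_add]
          congr 2
          ring
  have hd := (h.const_mul 2).add (h4.const_mul 2)
  refine Integrable.mono' hd ?_ ?_
  · exact ((Pool.Agent.Q213.GM.ph_meas.pow_const 2).mul (by fun_prop)).aestronglyMeasurable
  · refine (ae_restrict_iff' measurableSet_Ioi).2 (Eventually.of_forall fun t ht => ?_)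
    have ht0 : 0 < t := ht
    rw [Real.norm_of_nonneg (by positivity)]
    simp only [Pi.add_apply]
    have h5 := gg_level hCL (one_dvd r) (1 : DirichletCharacter ℂ 1) ht0.le
    have h6 : DirichletCharacter.changeLevel (one_dvd r) (1 : DirichletCharacter ℂ 1) = 1 :=
      DirichletCharacter.changeLevel_one (one_dvd r)
    rw [h6] at h5
    have h7 : gg (1 : DirichletCharacter ℂ 1) t = Pool.Agent.Q260.GM.ph t ^ 2 := by
      unfold gg Pool.Agent.Q260.GM.ph
      rw [psiC_one, if_pos rfl, ← Complex.ofReal_sub, Complex.norm_real, Real.norm_eq_abs, sq_abs]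
    rw [h7] at h5
    have h8 := mul_le_mul_of_nonneg_right h5 (Real.exp_pos (-(θ * t))).le
    have h9 : (2 : ℝ) * (θ / 2) * t = θ * t := by ring
    rw [h9]
    linarith

/-- GRH modulo `q`: the zeros with `0 < Re s < 1` of `L(s, χ)` have real part `1/2`, for every `χ` modulo `q` -/
def GRHmod (q : ℕ) [NeZero q] : Prop := ∀ χ : DirichletCharacter ℂ q, ∀ s : ℂ,
  DirichletCharacter.LFunction χ s = 0 → 0 < s.re → s.re < 1 → s.re = 1 / 2

lemma nonvan {q : ℕ} [NeZero q] (h : GRHmod q) {χ : DirichletCharacter ℂ q} (hχ : χ ≠ 1) {s : ℂ} (hs : 1 / 2 < s.re) :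
    DirichletCharacter.LFunction χ s ≠ 0 := by
  intro h0
  rcases lt_or_ge s.re 1 with h1 | h1
  · have := h χ s h0 (by linarith) h1
    linarith
  · exact DirichletCharacter.LFunction_ne_zero_of_one_le_re χ (Or.inl hχ) h1 h0

lemma adm_of_grh (hBG : S_BG) {q : ℕ} [NeZero q] (h : GRHmod q) : AdmAll q := fun χ hχ =>
  hBG q χ hχ fun _ hs => nonvan h hχ hs

lemma rh_of_grh {q : ℕ} [NeZero q] (h : GRHmod q) : RiemannHypothesis := by
  apply Pool.Agent.Q213.GM.RH_of
  intro s hs h0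
  have h1 : s.re < 1 := by
    by_contra hc
    exact riemannZeta_ne_zero_of_one_le_re (not_lt.1 hc) h0
  have hs1 : s ≠ 1 := by
    rintro rfl
    simp at h1
  have h2 := DirichletCharacter.LFunctionTrivChar_eq_mul_riemannZeta (N := q) hs1
  rw [h0, mul_zero] at h2
  have := h 1 s h2 (by linarith) h1
  linarith

lemma grh_of (hGR : S_GR) (hSY : S_SY) {q : ℕ} [NeZero q] (hA : AdmAll q) (hRH : RiemannHypothesis) : GRHmod q := by
  intro χ s h0 hs0 hs1
  refine hSY q χ ?_ s hs0 hs1 h0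
  intro z hz hz1
  by_cases hχ : χ = 1
  · subst hχ
    have hz' : z ≠ 1 := by
      rintro rfl
      simp at hz1
    have h2 := DirichletCharacter.LFunctionTrivChar_eq_mul_riemannZeta (N := q) hz'
    unfold DirichletCharacter.LFunctionTrivChar at h2
    rw [h2]
    refine mul_ne_zero ?_ ?_
    · rw [Finset.prod_ne_zero_iff]
      intro p hp h3
      have hp' := Nat.prime_of_mem_primeFactors hp
      have h4 : (p : ℂ) ^ (-z) = 1 := (sub_eq_zero.1 h3).symm
      have h5 : ‖(p : ℂ) ^ (-z)‖ = (p : ℝ) ^ (-z.re) := by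
        rw [Complex.norm_natCast_cpow_of_pos hp'.pos]
        simp
      rw [h4, norm_one] at h5
      have h6 : (p : ℝ) ^ (-z.re) < 1 := by
        apply Real.rpow_lt_one_of_one_lt_of_neg
        · exact_mod_cast hp'.one_lt
        · linarith
      linarith
    · intro h3
      have h4 := hRH z h3 (by
        rintro ⟨n, hn⟩
        have h5 : z.re = -2 * ((n : ℝ) + 1) := by rw [hn]; simp
        have : (0 : ℝ) ≤ n := Nat.cast_nonneg n
        linarith) hz'
      linarith
  · exact (hGR q χ hχ (hA χ hχ) z hz).1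

end Pool.Agent.Q253.HV
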